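import Pool.Agent.MG.G0.StmtsTC
import Mathlib.RingTheory.AdjoinRoot
import Mathlib.LinearAlgebra.FreeModule.Finite.Matrix
import Mathlib.FieldTheory.IsAlgClosed.Basic

/-!
# TCF: the zeros of a function (PAPER_TG.md, section TC)
-/

namespace Pool.Agent.MG.G0

namespace TCF

/-- A non-zero-divisor `f` with a non-trivial equation over `κ[X]` divides the image of a non-zero
element of `κ[X]`. -/
theorem exists_const {C P : Type} [CommRing C] [CommRing P] (φ : C →+* P) (f : P)
    (hf : ∀ x : P, x * f = 0 → x = 0) :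
    ∀ (n : ℕ) (p : Polynomial C), p ≠ 0 → p.natDegree ≤ n → Polynomial.eval₂ φ f p = 0 →
      ∃ c : C, c ≠ 0 ∧ ∃ q : P, φ c = q * f := by
  intro n
  induction n with
  | zero =>
    intro p hp hn h0
    have h1 : p = Polynomial.C (p.coeff 0) := Polynomial.eq_C_of_natDegree_le_zero hn
    refine ⟨p.coeff 0, fun h => hp ?_, 0, ?_⟩
    · rw [h1, h, Polynomial.C_0]
    · rw [h1, Polynomial.eval₂_C] at h0
      rw [h0, zero_mul]
  | succ n ih =>
    intro p hp hn h0
    have h1 : p.divX * Polynomial.X + Polynomial.C (p.coeff 0) = p := Polynomial.divX_mul_X_add p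
    have h2 : Polynomial.eval₂ φ f p.divX * f + φ (p.coeff 0) = 0 := by
      rw [← h0]
      conv_rhs => rw [← h1]
      rw [Polynomial.eval₂_add, Polynomial.eval₂_mul_X, Polynomial.eval₂_C]
    by_cases hc : p.coeff 0 = 0
    · rw [hc, map_zero, add_zero] at h2
      refine ih p.divX (fun h => hp ?_) ?_ (hf _ h2)
      · rw [← h1, h, hc, zero_mul, Polynomial.C_0, add_zero]
      · rw [Polynomial.natDegree_divX_eq_natDegree_tsub_one]
        omega
    · refine ⟨p.coeff 0, hc, -Polynomial.eval₂ φ f p.divX, ?_⟩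
      linear_combination h2

/-- The quotient of a finite `κ[X]`-algebra by an ideal which contains a non-zero polynomial. -/
theorem finite_quot {κ P : Type} [Field κ] [CommRing P] [Algebra κ P]
    (φ : Polynomial κ →+* P) (hφ : φ.Finite) (hC : ∀ a : κ, φ (Polynomial.C a) = algebraMap κ P a)
    (J : Ideal P) (c : Polynomial κ) (hc : c ≠ 0) (hcJ : φ c ∈ J) :
    Module.Finite κ (P ⧸ J) := by
  -- make `c` monic
  obtain ⟨c', hc', hc'J⟩ : ∃ c' : Polynomial κ, c'.Monic ∧ φ c' ∈ J := by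
    refine ⟨c * Polynomial.C c.leadingCoeff⁻¹, Polynomial.monic_mul_leadingCoeff_inv hc, ?_⟩
    rw [map_mul]
    exact J.mul_mem_right _ hcJ
  have hfin1 : ((Ideal.Quotient.mk J).comp φ).Finite :=
    RingHom.Finite.comp (RingHom.Finite.of_surjective _ Ideal.Quotient.mk_surjective) hφ
  let ψ : (Polynomial κ ⧸ Ideal.span {c'}) →+* P ⧸ J :=
    Ideal.Quotient.lift (Ideal.span {c'}) ((Ideal.Quotient.mk J).comp φ) (by
      intro a ha
      obtain ⟨q, rfl⟩ := Ideal.mem_span_singleton'.1 ha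
      rw [RingHom.comp_apply, map_mul, map_mul, Ideal.Quotient.eq_zero_iff_mem.2 hc'J, mul_zero])
  have hψ : ψ.Finite := by
    refine RingHom.Finite.of_comp_finite (f := Ideal.Quotient.mk (Ideal.span {c'})) ?_
    have : ψ.comp (Ideal.Quotient.mk (Ideal.span {c'})) = (Ideal.Quotient.mk J).comp φ :=
      Ideal.Quotient.lift_comp_mk _ _ _
    rw [this]
    exact hfin1
  have h2 : (algebraMap κ (Polynomial κ ⧸ Ideal.span {c'})).Finite := by
    rw [RingHom.finite_algebraMap]
    exact hc'.finite_quotient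
  have h3 : (ψ.comp (algebraMap κ (Polynomial κ ⧸ Ideal.span {c'}))).Finite := hψ.comp h2
  have h4 : ψ.comp (algebraMap κ (Polynomial κ ⧸ Ideal.span {c'})) = algebraMap κ (P ⧸ J) := by
    ext a
    change (Ideal.Quotient.mk J) (φ (Polynomial.C a)) = (Ideal.Quotient.mk J) (algebraMap κ P a)
    rw [hC]
  rw [h4, RingHom.finite_algebraMap] at h3
  exact h3

/-- The points of a finite subscheme. -/
theorem points {κ P : Type} [Field κ] [IsAlgClosed κ] [CommRing P] [Algebra κ P] (f : P)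
    (h : Module.Finite κ (P ⧸ Ideal.span {f})) :
    {e : P →ₐ[κ] κ | e f = 0}.Finite ∧
    ∀ b : P, (∀ e : P →ₐ[κ] κ, e f = 0 → e b ≠ 0) → ∃ u v : P, u * f + v * b = 1 := by
  constructor
  · have hfin : Finite ((P ⧸ Ideal.span {f}) →ₐ[κ] κ) := inferInstance
    let F : ((P ⧸ Ideal.span {f}) →ₐ[κ] κ) → (P →ₐ[κ] κ) := fun g =>
      g.comp (Ideal.Quotient.mkₐ κ (Ideal.span {f}))
    refine (Set.finite_range F).subset ?_
    intro e he
    refine ⟨Ideal.Quotient.liftₐ (Ideal.span {f}) e ?_, ?_⟩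
    · intro a ha
      obtain ⟨q, rfl⟩ := Ideal.mem_span_singleton'.1 ha
      rw [map_mul, show e f = 0 from he, mul_zero]
    · ext a
      rfl
  · intro b hb
    by_contra hcon
    have hne : Ideal.span {f, b} ≠ ⊤ := by
      intro h1
      have h2 : (1 : P) ∈ Ideal.span {f, b} := by rw [h1]; exact Submodule.mem_top
      obtain ⟨u, v, huv⟩ := Ideal.mem_span_pair.1 h2
      exact hcon ⟨u, v, huv⟩
    obtain ⟨n, hn, hle⟩ := Ideal.exists_le_maximal _ hne
    have hfn : f ∈ n := hle (Ideal.subset_span (by simp))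
    have hbn : b ∈ n := hle (Ideal.subset_span (by simp))
    let _ : Field (P ⧸ n) := Ideal.Quotient.field n
    have hfle : Ideal.span {f} ≤ n := (Ideal.span_singleton_le_iff_mem _).2 hfn
    have hfin : Module.Finite κ (P ⧸ n) :=
      Module.Finite.of_surjective (Ideal.Quotient.factorₐ κ hfle).toLinearMap
        (Ideal.Quotient.factor_surjective hfle)
    have hbij : Function.Bijective (algebraMap κ (P ⧸ n)) :=
      IsAlgClosed.algebraMap_bijective_of_isIntegral
    let E : κ ≃ₐ[κ] (P ⧸ n) := AlgEquiv.ofBijective (Algebra.ofId κ (P ⧸ n)) hbij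
    let e : P →ₐ[κ] κ := (E.symm : (P ⧸ n) →ₐ[κ] κ).comp (Ideal.Quotient.mkₐ κ n)
    have hker : ∀ x ∈ n, e x = 0 := by
      intro x hx
      change E.symm (Ideal.Quotient.mk n x) = 0
      rw [Ideal.Quotient.eq_zero_iff_mem.2 hx, map_zero]
    exact hb e (hker f hfn) (hker b hbn)

end TCF

theorem t_TCF (h1 : Stmt_KNZ) (h2 : Stmt_KFG) : Stmt_TCF := by
  intro I κ _ _ _ _ h P hP f hf
  obtain ⟨⟨N, hN⟩, hK⟩ := h1 hP
  obtain ⟨z, hzP, hz⟩ := (hK N hN).2.2 (N + 1) (by omega)
  obtain ⟨-, -, hfin, -, hinj⟩ := (h2 hP).2 N (N + 1) ⟨z, hzP⟩ hN (by omega) hz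
  -- `f` is not a zero divisor
  have hreg : ∀ x : P, x * f = 0 → x = 0 := by
    intro x hx
    have h3 : (x : KK I κ) * (f : KK I κ) = 0 := by
      have := congrArg Subtype.val hx
      exact this
    have h4 : (x : KK I κ) = 0 := by
      rwa [hf.mul_left_eq_zero] at h3
    exact Subtype.ext h4
  obtain ⟨p, hp, hp0⟩ := hfin.to_isIntegral f
  obtain ⟨c, hc, q, hq⟩ := TCF.exists_const _ f hreg p.natDegree p hp.ne_zero le_rfl hp0
  refine TCF.points f (TCF.finite_quot _ hfin (fun a => ?_) (Ideal.span {f}) c hc ?_)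
  · exact Polynomial.aeval_C _ _
  · rw [hq]
    exact Ideal.mul_mem_left _ _ (Ideal.subset_span rfl)

end Pool.Agent.MG.G0
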