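import Pool.Agent.MG.G0.StmtsTC

/-!
# TCI: the base change of `R[1/b]` in the Laurent series (PAPER_TG.md)
-/

open TensorProduct

namespace Pool.Agent.MG.G0

namespace TCI

section

variable {I A B : Type} [CommRing A] [CommRing B] [Algebra A B]

theorem tower : IsScalarTower A B (KK I B) :=
  IsScalarTower.of_algebraMap_eq fun _ => rfl

/-- The map `R → KK I B`. -/
noncomputable def kR (R : Subalgebra A (KK I A)) : R →ₐ[A] KK I B :=
  { toRingHom := (kmap (algebraMap A B)).comp (R.val : R →+* KK I A)
    commutes' := fun a => by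
      change kmap (algebraMap A B) (algebraMap A (KK I A) a) = _
      rw [kmap_algebraMap]
      rfl }

theorem kR_apply (R : Subalgebra A (KK I A)) (f : R) :
    kR (B := B) R f = kmap (algebraMap A B) (f : KK I A) := rfl

theorem isUnit_kR (R : Subalgebra A (KK I A)) (b : R) (hb : IsUnit (b : KK I A)) :
    ∀ y : Submonoid.powers b, IsUnit (kR (B := B) R y) := by
  rintro ⟨y, n, hn⟩
  change IsUnit (kR (B := B) R y)
  subst hn
  rw [map_pow]
  exact (hb.map (kmap (algebraMap A B))).pow n

/-- The map `R[1/b] → KK I B`. -/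
noncomputable def kL (R : Subalgebra A (KK I A)) (b : R) (hb : IsUnit (b : KK I A)) :
    Localization.Away b →ₐ[A] KK I B :=
  IsLocalization.liftAlgHom (M := Submonoid.powers b) (f := kR (B := B) R) (isUnit_kR R b hb)

theorem kL_algebraMap (R : Subalgebra A (KK I A)) (b : R) (hb : IsUnit (b : KK I A)) (f : R) :
    kL (B := B) R b hb (algebraMap R (Localization.Away b) f) =
      kmap (algebraMap A B) (f : KK I A) := by
  rw [kL, IsLocalization.liftAlgHom_apply, IsLocalization.lift_eq]
  rfl

/-- Common denominators. -/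
theorem denom (R : Subalgebra A (KK I A)) (b : R) (y : B ⊗[A] Localization.Away b) :
    ∃ (n m : ℕ) (a : Fin m → B) (f : Fin m → R),
      ((1 : B) ⊗ₜ[A] algebraMap R (Localization.Away b) (b ^ n)) * y =
        ∑ k, a k ⊗ₜ[A] algebraMap R (Localization.Away b) (f k) := by
  have step : ∀ (n n' m : ℕ) (a : Fin m → B) (f : Fin m → R) (z : B ⊗[A] Localization.Away b),
      ((1 : B) ⊗ₜ[A] algebraMap R (Localization.Away b) (b ^ n)) * z =
        ∑ k, a k ⊗ₜ[A] algebraMap R (Localization.Away b) (f k) →
      ((1 : B) ⊗ₜ[A] algebraMap R (Localization.Away b) (b ^ (n + n'))) * z =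
        ∑ k, a k ⊗ₜ[A] algebraMap R (Localization.Away b) (b ^ n' * f k) := by
    intro n n' m a f z hz
    have e1 : ((1 : B) ⊗ₜ[A] algebraMap R (Localization.Away b) (b ^ (n + n'))) =
        ((1 : B) ⊗ₜ[A] algebraMap R (Localization.Away b) (b ^ n')) *
          ((1 : B) ⊗ₜ[A] algebraMap R (Localization.Away b) (b ^ n)) := by
      rw [Algebra.TensorProduct.tmul_mul_tmul, one_mul, ← map_mul, ← pow_add, add_comm n']
    rw [e1, mul_assoc, hz, Finset.mul_sum]
    refine Finset.sum_congr rfl fun k _ => ?_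
    rw [Algebra.TensorProduct.tmul_mul_tmul, one_mul, ← map_mul]
  induction y using TensorProduct.induction_on with
  | zero => exact ⟨0, 0, fun _ => 0, fun _ => 0, by rw [mul_zero, Finset.univ_eq_empty,
      Finset.sum_empty]⟩
  | tmul x s =>
    obtain ⟨⟨f, ⟨_, n, rfl⟩⟩, hs⟩ := IsLocalization.surj (Submonoid.powers b) s
    refine ⟨n, 1, fun _ => x, fun _ => f, ?_⟩
    rw [Algebra.TensorProduct.tmul_mul_tmul, one_mul, Finset.univ_unique, Finset.sum_singleton,
      mul_comm (algebraMap R (Localization.Away b) (b ^ n)) s]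
    exact congrArg (fun z => x ⊗ₜ[A] z) hs
  | add y z hy hz =>
    obtain ⟨n, m, a, f, h1⟩ := hy
    obtain ⟨n', m', a', f', h2⟩ := hz
    refine ⟨n + n', m + m', Fin.append a a',
      Fin.append (fun k => b ^ n' * f k) (fun k => b ^ n * f' k), ?_⟩
    rw [mul_add, step n n' m a f y h1, Fin.sum_univ_add]
    have h3 := step n' n m' a' f' z h2
    rw [add_comm n' n] at h3
    rw [h3]
    congr 1
    · refine Finset.sum_congr rfl fun k _ => ?_
      rw [Fin.append_left, Fin.append_left]
    · refine Finset.sum_congr rfl fun k _ => ?_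
      rw [Fin.append_right, Fin.append_right]

end

end TCI

theorem t_TCI (hKBT : Stmt_KBT) : Stmt_TCI := by
  intro I A B _ _ _ _ _ h R hR b hb
  have := TCI.tower (I := I) (A := A) (B := B)
  let E : (B ⊗[A] Localization.Away b) →ₐ[B] KK I B :=
    Algebra.TensorProduct.lift (Algebra.ofId B (KK I B)) (TCI.kL R b hb)
      fun _ _ => Commute.all _ _
  have hE : ∀ (a : B) (f : R), E (a ⊗ₜ[A] algebraMap R (Localization.Away b) f) =
      a • kmap (algebraMap A B) (f : KK I A) := by
    intro a f
    change Algebra.TensorProduct.lift _ _ _ _ = _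
    rw [Algebra.TensorProduct.lift_tmul, TCI.kL_algebraMap, Algebra.smul_def]
    rfl
  refine ⟨E, ?_, hE, TCI.denom R b⟩
  rw [injective_iff_map_eq_zero]
  intro y hy
  obtain ⟨n, m, a, f, h1⟩ := TCI.denom R b y
  have h2 : ∑ k, a k • kmap (algebraMap A B) (f k : KK I A) = 0 := by
    have h3 := congrArg E h1
    rw [map_mul, hy, mul_zero, map_sum] at h3
    simp only [hE] at h3
    exact h3.symm
  have h4 := (hKBT hR).1 m a f h2
  have h5 : ∑ k, a k ⊗ₜ[A] algebraMap R (Localization.Away b) (f k) = 0 := by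
    have h6 := congrArg (LinearMap.lTensor B
      (IsScalarTower.toAlgHom A R (Localization.Away b)).toLinearMap) h4
    rw [map_sum, map_zero] at h6
    exact h6
  rw [h5] at h1
  have hu : IsUnit ((1 : B) ⊗ₜ[A] algebraMap R (Localization.Away b) (b ^ n)) := by
    have h7 : IsUnit (algebraMap R (Localization.Away b) (b ^ n)) := by
      rw [map_pow]
      exact (IsLocalization.Away.algebraMap_isUnit b).pow n
    exact h7.map (Algebra.TensorProduct.includeRight : Localization.Away b →ₐ[A]
      B ⊗[A] Localization.Away b)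
  exact (hu.mul_right_eq_zero).1 h1

end Pool.Agent.MG.G0
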