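import Pool.Agent.MG.G0.StmtsTC

/-!
# TCM: there are no vector fields
-/

namespace Pool.Agent.MG.G0

namespace TCM

section series

variable {B : Type} [CommRing B]

theorem step {f g : LaurentSeries B} (hg : ∀ m < 0, g.coeff m = 0) (hu : IsUnit (g.coeff 0))
    (h : ∀ m < 0, (g * f).coeff m = 0) (n : ℕ) :
    (∀ m < -(n : ℤ), f.coeff m = 0) → ∀ m < 0, f.coeff m = 0 := by
  induction n with
  | zero =>
    intro h1 m hm
    exact h1 m (by simpa using hm)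
  | succ n ih =>
    intro h1
    refine ih fun m hm => ?_
    rcases lt_or_ge m (-((n + 1 : ℕ) : ℤ)) with h2 | h2
    · exact h1 m h2
    · have e : m = 0 + -((n + 1 : ℕ) : ℤ) := by
        push_cast at h2 ⊢
        omega
      have h3 := mul_lead hg h1
      rw [← e, h m (by push_cast at e; omega)] at h3
      have h4 : f.coeff (-((n + 1 : ℕ) : ℤ)) = 0 := by
        rw [← hu.mul_right_eq_zero]
        exact h3.symm
      rw [e, zero_add]
      exact h4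

theorem reg1 {f g : LaurentSeries B} (hg : ∀ m < 0, g.coeff m = 0) (hu : IsUnit (g.coeff 0))
    (h : ∀ m < 0, (g * f).coeff m = 0) : ∀ m < 0, f.coeff m = 0 := by
  obtain ⟨n, hn⟩ := exists_low f
  exact step hg hu h n hn

theorem regK {f g : LaurentSeries B} (hg : ∀ m < 0, g.coeff m = 0) (hu : IsUnit (g.coeff 0))
    (K : ℕ) : (∀ m < 0, (g ^ K * f).coeff m = 0) → ∀ m < 0, f.coeff m = 0 := by
  induction K with
  | zero =>
    intro h
    simpa using h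
  | succ K ih =>
    intro h
    refine ih (reg1 hg hu ?_)
    rw [← mul_assoc, ← pow_succ']
    exact h

theorem mulr {f g : LaurentSeries B} (hf : ∀ m < 0, f.coeff m = 0) (hg : ∀ m < 0, g.coeff m = 0) :
    ∀ m < 0, (f * g).coeff m = 0 := fun m hm => mul_low hf hg m (by omega)

theorem powr {f : LaurentSeries B} (hf : ∀ m < 0, f.coeff m = 0) (k : ℕ) :
    ∀ m < 0, (f ^ k).coeff m = 0 := by
  induction k with
  | zero =>
    intro m hm
    rw [pow_zero, HahnSeries.coeff_one, if_neg (by omega)]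
  | succ k ih =>
    rw [pow_succ]
    exact mulr ih hf

end series

section reix

variable {I I' A : Type} [CommRing A]

/-- Reindexing. -/
def ri (e : I' ≃ I) (f : KK I A) : KK I' A := fun i => f (e i)

theorem ri_mem (e : I' ≃ I) {P : Subalgebra A (KK I A)} {f : KK I A} (hf : f ∈ P) :
    ri e f ∈ reix e P := by
  change (fun i => f (e (e.symm i))) ∈ P
  simpa only [Equiv.apply_symm_apply] using hf

theorem tt_mem (e : I' ≃ I) {P : Subalgebra A (KK I A)} {θ : KK I' A} (h : θ ∈ TT (reix e P)) :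
    ri e.symm θ ∈ TT P := by
  intro f hf
  have h1 := h (ri e f) (ri_mem e hf)
  have h2 : (fun i => (θ * dd (ri e f)) (e.symm i)) ∈ P := h1
  have h3 : (fun i => (θ * dd (ri e f)) (e.symm i)) = ri e.symm θ * dd f := by
    funext i
    change θ (e.symm i) * ld (f (e (e.symm i))) = θ (e.symm i) * ld (f i)
    rw [Equiv.apply_symm_apply]
  rwa [h3] at h2

/-- The second inclusion. -/
noncomputable def inc2 (e : I' ≃ I) {P : Subalgebra A (KK I A)} {J : Type}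
    {R : Subalgebra A (KK J A)} (ι : R →ₐ[A] P) : R →ₐ[A] reix e P where
  toFun f := ⟨ri e (ι f : KK I A), ri_mem e (ι f).2⟩
  map_one' := by
    apply Subtype.ext
    change ri e (ι 1 : KK I A) = 1
    rw [map_one]
    rfl
  map_zero' := by
    apply Subtype.ext
    change ri e (ι 0 : KK I A) = 0
    rw [map_zero]
    rfl
  map_mul' f g := by
    apply Subtype.ext
    change ri e (ι (f * g) : KK I A) = ri e (ι f : KK I A) * ri e (ι g : KK I A)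
    rw [map_mul]
    rfl
  map_add' f g := by
    apply Subtype.ext
    change ri e (ι (f + g) : KK I A) = ri e (ι f : KK I A) + ri e (ι g : KK I A)
    rw [map_add]
    rfl
  commutes' a := by
    apply Subtype.ext
    change ri e (ι (algebraMap A R a) : KK I A) = algebraMap A (KK I' A) a
    rw [AlgHom.commutes]
    rfl

theorem inc2_val (e : I' ≃ I) {P : Subalgebra A (KK I A)} {J : Type}
    {R : Subalgebra A (KK J A)} (ι : R →ₐ[A] P) (f : R) :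
    (inc2 e ι f : KK I' A) = ri e (ι f : KK I A) := rfl

end reix

/-- The vector fields of the two charts. -/
theorem fields (hTCH : Stmt_TCH) (hTRX : Stmt_TRX) {A : Type} [CommRing A] {h : ℕ}
    {R₁ R₂ : Subalgebra A (KK Unit A)} {P : Subalgebra A (KK (Unit ⊕ Unit) A)}
    {ι₁ : R₁ →ₐ[A] P} {ι₂ : R₂ →ₐ[A] P} (hc : Chp h R₁ R₂ P) (hi : Inc ι₁ ι₂)
    (D₁ : Derivation A R₁ R₁) (D₂ : Derivation A R₂ R₂) :
    (∃ θ ∈ TT P, (∀ m < 0, (θ (Sum.inr ())).coeff m = 0) ∧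
      ∀ f : R₁, θ * dd (ι₁ f : KK (Unit ⊕ Unit) A) = (ι₁ (D₁ f) : KK (Unit ⊕ Unit) A)) ∧
    ∃ θ ∈ TT P, (∀ m < 0, (θ (Sum.inl ())).coeff m = 0) ∧
      ∀ f : R₂, θ * dd (ι₂ f : KK (Unit ⊕ Unit) A) = (ι₂ (D₂ f) : KK (Unit ⊕ Unit) A) := by
  constructor
  · exact hTCH hc.s12.kr hc.s12.smc hc.d1 hc.f1 ι₁ hi.e1 (fun f => hi.r1 f ()) D₁
  · have hs := hTRX.2 (Equiv.sumComm Unit Unit) hc.s12
    obtain ⟨θ, h1, h2, h3⟩ := hTCH hs.kr hs.smc hc.d2 hc.f2 (inc2 (Equiv.sumComm Unit Unit) ι₂)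
      (fun f i => hi.e2 f i) (fun f => hi.r2 f ()) D₂
    refine ⟨ri (Equiv.sumComm Unit Unit).symm θ, tt_mem _ h1, h2, fun f => ?_⟩
    have h4 := h3 f
    rw [inc2_val, inc2_val] at h4
    funext i
    have h5 := congrFun h4 ((Equiv.sumComm Unit Unit).symm i)
    change θ ((Equiv.sumComm Unit Unit).symm i) * ld ((ι₂ f : KK (Unit ⊕ Unit) A)
      (Equiv.sumComm Unit Unit ((Equiv.sumComm Unit Unit).symm i))) =
      (ι₂ (D₂ f) : KK (Unit ⊕ Unit) A)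
        (Equiv.sumComm Unit Unit ((Equiv.sumComm Unit Unit).symm i)) at h5
    rw [Equiv.apply_symm_apply] at h5
    exact h5

section alg

variable {X : Type} [CommRing X]

theorem eq2 {b e t F w χ : X} (N k : ℕ) (h : b * e = t) :
    b ^ (N + (k + 1)) * (F * w ^ k * χ * e ^ (k + 1)) =
      (b ^ N * F) * (t * w) ^ k * (t * χ) := by
  rw [← h]
  ring

theorem eq1 {d₁ d₂ e₁ e₂ F₁ F₂ c : X} (k : ℕ) (h1 : d₁ * e₁ = 1) (h2 : d₂ * e₂ = 1)
    (h : d₁ ^ (k + 1) * F₂ = c * (d₂ ^ (k + 1) * F₁)) :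
    F₂ * e₂ ^ (k + 1) = c * (F₁ * e₁ ^ (k + 1)) := by
  have h3 : (d₁ * e₁) ^ (k + 1) * (F₂ * e₂ ^ (k + 1)) =
      c * ((d₂ * e₂) ^ (k + 1) * (F₁ * e₁ ^ (k + 1))) := by
    calc (d₁ * e₁) ^ (k + 1) * (F₂ * e₂ ^ (k + 1)) =
        (d₁ ^ (k + 1) * F₂) * (e₁ ^ (k + 1) * e₂ ^ (k + 1)) := by ring
      _ = _ := by
        rw [h]
        ring
  rwa [h1, h2, one_pow, one_mul, one_mul] at h3

end alg

end TCM

open TCM in
/-- TCM: there are no vector fields. -/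
theorem t_TCM (hTCH : Stmt_TCH) (hKBC : Stmt_KBC) (hTRX : Stmt_TRX) : Stmt_TCM := by
  intro A _ h R₁ R₂ P ι₁ ι₂ D₁ g₁ D₂ g₂ hT B _ φ F₁ F₂ c n hn hc ⟨N₁, hm₁, hr₁⟩ ⟨N₂, hm₂, hr₂⟩ heq
  obtain ⟨k, rfl⟩ : ∃ k, n = k + 1 := ⟨n - 1, by omega⟩
  obtain ⟨⟨θ₁, ht₁, hθr₁, hθ₁⟩, ⟨θ₂, ht₂, hθr₂, hθ₂⟩⟩ :=
    fields hTCH hTRX hT.chp hT.inc D₁ D₂
  obtain ⟨ω, ω', hω, hω', hωu, hfrm⟩ := hT.frm
  have hkr : IsKr h (bc φ P) := (hKBC.2.2.2 hT.chp.s12.kr φ).1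
  set b₁ : KK (Unit ⊕ Unit) B := kmap φ (ι₁ (D₁ g₁) : KK (Unit ⊕ Unit) A) with hb₁
  set b₂ : KK (Unit ⊕ Unit) B := kmap φ (ι₂ (D₂ g₂) : KK (Unit ⊕ Unit) A) with hb₂
  set d₁ : KK (Unit ⊕ Unit) B := kmap φ (dd (ι₁ g₁ : KK (Unit ⊕ Unit) A)) with hd₁
  set d₂ : KK (Unit ⊕ Unit) B := kmap φ (dd (ι₂ g₂ : KK (Unit ⊕ Unit) A)) with hd₂
  have e1 : kmap φ θ₁ * d₁ = b₁ := by
    rw [hd₁, hb₁, ← map_mul, hθ₁]
  have e2 : kmap φ θ₂ * d₂ = b₂ := by
    rw [hd₂, hb₂, ← map_mul, hθ₂]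
  have ub₁ : IsUnit b₁ := hT.u1.map (kmap φ)
  have ub₂ : IsUnit b₂ := hT.u2.map (kmap φ)
  have ud₁ : IsUnit d₁ := isUnit_of_mul_isUnit_right (by rwa [e1])
  have ud₂ : IsUnit d₂ := isUnit_of_mul_isUnit_right (by rwa [e2])
  obtain ⟨i₁, hi₁⟩ := ud₁.exists_right_inv
  obtain ⟨i₂, hi₂⟩ := ud₂.exists_right_inv
  have f1 : b₁ * i₁ = kmap φ θ₁ := by
    rw [← e1, mul_assoc, hi₁, mul_one]
  have f2 : b₂ * i₂ = kmap φ θ₂ := by
    rw [← e2, mul_assoc, hi₂, mul_one]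
  have heq' : d₁ ^ (k + 1) * F₂ = algebraMap B _ c * (d₂ ^ (k + 1) * F₁) := by
    rw [heq, Algebra.smul_def]
  have hFe := eq1 k hi₁ hi₂ heq'
  -- the two expressions
  have key : ∀ χ ∈ EE P, ∃ a : B, F₂ * kmap φ ω ^ k * kmap φ χ * i₂ ^ (k + 1) =
      algebraMap B (KK (Unit ⊕ Unit) B) a := by
    intro χ hχ
    set F := F₂ * kmap φ ω ^ k * kmap φ χ * i₂ ^ (k + 1) with hF
    have hF' : F = algebraMap B _ c * (F₁ * kmap φ ω ^ k * kmap φ χ * i₁ ^ (k + 1)) := by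
      calc F = (F₂ * i₂ ^ (k + 1)) * (kmap φ ω ^ k * kmap φ χ) := by rw [hF]; ring
        _ = _ := by
          rw [hFe]
          ring
    have g2 : b₂ ^ (N₂ + (k + 1)) * F =
        (b₂ ^ N₂ * F₂) * (kmap φ θ₂ * kmap φ ω) ^ k * (kmap φ θ₂ * kmap φ χ) := eq2 N₂ k f2
    have g1 : b₁ ^ (N₁ + (k + 1)) * F = algebraMap B _ c *
        ((b₁ ^ N₁ * F₁) * (kmap φ θ₁ * kmap φ ω) ^ k * (kmap φ θ₁ * kmap φ χ)) := by
      rw [hF', ← eq2 N₁ k f1]
      ring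
    have hmem : ∀ θ ∈ TT P, ∀ η ∈ EE P, kmap φ θ * kmap φ η ∈ bc φ P := by
      intro θ hθ η hη
      rw [← map_mul]
      exact kmap_mem_bc φ (hT.chp.s12.dual θ hθ η hη.1)
    have m2 : b₂ ^ (N₂ + (k + 1)) * F ∈ bc φ P := by
      rw [g2]
      exact mul_mem (mul_mem hm₂ (pow_mem (hmem θ₂ ht₂ ω hω) k)) (hmem θ₂ ht₂ χ hχ)
    have m1 : b₁ ^ (N₁ + (k + 1)) * F ∈ bc φ P := by
      rw [g1]
      exact mul_mem ((bc φ P).algebraMap_mem c)
        (mul_mem (mul_mem hm₁ (pow_mem (hmem θ₁ ht₁ ω hω) k)) (hmem θ₁ ht₁ χ hχ))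
    -- `F` is in the ring
    have hFm : F ∈ bc φ P := by
      obtain ⟨u, v, huv⟩ := hT.cov
      have hco : IsCoprime (ι₁ (D₁ g₁)) (ι₂ (D₂ g₂)) := ⟨u, v, huv⟩
      obtain ⟨u', v', huv'⟩ := (hco.pow_left (m := N₁ + (k + 1))).pow_right (n := N₂ + (k + 1))
      have h1 := congrArg (fun x : P => kmap φ (x : KK (Unit ⊕ Unit) A)) huv'
      have h2 : kmap φ (u' : KK (Unit ⊕ Unit) A) * b₁ ^ (N₁ + (k + 1)) +
          kmap φ (v' : KK (Unit ⊕ Unit) A) * b₂ ^ (N₂ + (k + 1)) = 1 := by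
        rw [hb₁, hb₂, ← map_pow, ← map_pow, ← map_mul, ← map_mul, ← map_add, ← map_one (kmap φ)]
        exact h1
      have h3 : F = kmap φ (u' : KK (Unit ⊕ Unit) A) * (b₁ ^ (N₁ + (k + 1)) * F) +
          kmap φ (v' : KK (Unit ⊕ Unit) A) * (b₂ ^ (N₂ + (k + 1)) * F) := by
        calc F = (kmap φ (u' : KK (Unit ⊕ Unit) A) * b₁ ^ (N₁ + (k + 1)) +
              kmap φ (v' : KK (Unit ⊕ Unit) A) * b₂ ^ (N₂ + (k + 1))) * F := by
              rw [h2, one_mul]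
          _ = _ := by ring
      rw [h3]
      exact add_mem (mul_mem (kmap_mem_bc φ u'.2) m1) (mul_mem (kmap_mem_bc φ v'.2) m2)
    -- `F` is regular
    have hreg : ∀ (η : KK (Unit ⊕ Unit) A) (i : Unit ⊕ Unit), (∀ m < 0, (η i).coeff m = 0) →
        ∀ m < 0, (kmap φ η i).coeff m = 0 := by
      intro η i hη m hm
      rw [kmap_apply, lmap_coeff, hη m hm, map_zero]
    have hEE : ∀ η ∈ EE P, ∀ i, ∀ m < 0, (η i).coeff m = 0 :=
      fun η hη i m hm => hη.2 i m (by omega)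
    have hFl : ∀ m < 0, (F (Sum.inl ())).coeff m = 0 := by
      refine regK (g := b₂ (Sum.inl ())) (hreg _ _ (hT.inc.r2 _ ())) ?_ (N₂ + (k + 1)) ?_
      · rw [hb₂, kmap_apply, lmap_coeff]
        exact hT.v2.map φ
      · have h1 := congrFun g2 (Sum.inl ())
        have h2 : b₂ (Sum.inl ()) ^ (N₂ + (k + 1)) * F (Sum.inl ()) =
            (b₂ ^ N₂ * F₂) (Sum.inl ()) * (kmap φ θ₂ (Sum.inl ()) * kmap φ ω (Sum.inl ())) ^ k *
              (kmap φ θ₂ (Sum.inl ()) * kmap φ χ (Sum.inl ())) := h1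
        rw [h2]
        exact mulr (mulr hr₂ (powr (mulr (hreg _ _ hθr₂) (hreg _ _ (hEE ω hω _))) k))
          (mulr (hreg _ _ hθr₂) (hreg _ _ (hEE χ hχ _)))
    have hFr : ∀ m < 0, (F (Sum.inr ())).coeff m = 0 := by
      refine regK (g := b₁ (Sum.inr ())) (hreg _ _ (hT.inc.r1 _ ())) ?_ (N₁ + (k + 1)) ?_
      · rw [hb₁, kmap_apply, lmap_coeff]
        exact hT.v1.map φ
      · have h1 := congrFun g1 (Sum.inr ())
        have h2 : b₁ (Sum.inr ()) ^ (N₁ + (k + 1)) * F (Sum.inr ()) =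
            algebraMap B (KK (Unit ⊕ Unit) B) c (Sum.inr ()) *
            ((b₁ ^ N₁ * F₁) (Sum.inr ()) * (kmap φ θ₁ (Sum.inr ()) * kmap φ ω (Sum.inr ())) ^ k *
              (kmap φ θ₁ (Sum.inr ()) * kmap φ χ (Sum.inr ()))) := h1
        rw [h2]
        exact mulr (fun m hm => algebraMap_mem_Pol0 c _ m (by omega))
          (mulr (mulr hr₁ (powr (mulr (hreg _ _ hθr₁) (hreg _ _ (hEE ω hω _))) k))
          (mulr (hreg _ _ hθr₁) (hreg _ _ (hEE χ hχ _))))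
    refine hkr.k1 F hFm ?_
    rintro (i | i) m hm
    · exact hFl m (by omega)
    · exact hFr m (by omega)
  obtain ⟨a, ha⟩ := key ω hω
  obtain ⟨a', ha'⟩ := key ω' hω'
  have h1 : a • kmap φ ω' = a' • kmap φ ω := by
    rw [Algebra.smul_def, Algebra.smul_def, ← ha, ← ha']
    ring
  have h2 : a = 0 := (hfrm φ a a' h1).1
  rw [h2, map_zero] at ha
  have uω : IsUnit (kmap φ ω) := hωu.map (kmap φ)
  have ui₂ : IsUnit i₂ := isUnit_of_mul_isUnit_right (by rw [hi₂]; exact isUnit_one)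
  have h3 : F₂ * (kmap φ ω ^ k * kmap φ ω * i₂ ^ (k + 1)) = 0 := by
    rw [← ha]
    ring
  have h4 : F₂ = 0 := by
    have hu : IsUnit (kmap φ ω ^ k * kmap φ ω * i₂ ^ (k + 1)) :=
      ((uω.pow k).mul uω).mul (ui₂.pow (k + 1))
    exact (hu.mul_left_eq_zero).1 h3
  rw [h4, mul_zero] at heq'
  have hu : IsUnit (algebraMap B (KK (Unit ⊕ Unit) B) c * d₂ ^ (k + 1)) :=
    (hc.map (algebraMap B (KK (Unit ⊕ Unit) B))).mul (ud₂.pow (k + 1))
  refine (hu.mul_right_eq_zero).1 ?_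
  rw [mul_assoc]
  exact heq'.symm

end Pool.Agent.MG.G0
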