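import Pool.Agent.MG.G0.StmtsTC
import Pool.Agent.MG.G0.StmtsNP

/-!
# TCN: a second puncture (PAPER_TG.md, TC)
-/

open TensorProduct

namespace Pool.Agent.MG.G0

namespace TCN

/-- The reduction is surjective. -/
theorem bcMap_surj {I κ A : Type} [Field κ] [CommRing A] [Algebra κ A] (rs : A →ₐ[κ] κ)
    (R : Subalgebra A (KK I A)) : Function.Surjective (bcMap (rs : A →+* κ) R) := by
  rintro ⟨y, hy⟩
  suffices h : ∃ x ∈ R, kmap (rs : A →+* κ) x = y by
    obtain ⟨x, hx, hxy⟩ := h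
    exact ⟨⟨x, hx⟩, Subtype.ext hxy⟩
  refine Algebra.adjoin_induction (p := fun y _ => ∃ x ∈ R, kmap (rs : A →+* κ) x = y)
    ?_ ?_ ?_ ?_ hy
  · rintro _ ⟨x, hx, rfl⟩
    exact ⟨x, hx, rfl⟩
  · intro c
    refine ⟨algebraMap A (KK I A) (algebraMap κ A c), R.algebraMap_mem _, ?_⟩
    rw [kmap_algebraMap]
    congr 1
    change rs (algebraMap κ A c) = c
    rw [AlgHom.commutes]
    rfl
  · rintro _ _ _ _ ⟨x, hx, rfl⟩ ⟨x', hx', rfl⟩
    exact ⟨x + x', add_mem hx hx', map_add _ _ _⟩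
  · rintro _ _ _ _ ⟨x, hx, rfl⟩ ⟨x', hx', rfl⟩
    exact ⟨x * x', mul_mem hx hx', map_mul _ _ _⟩

/-- A point of a nonzero algebra of finite type over an algebraically closed field. -/
theorem exists_point {κ P : Type} [Field κ] [IsAlgClosed κ] [CommRing P] [Algebra κ P]
    [Nontrivial P] (hf : Algebra.FiniteType κ P) : Nonempty (P →ₐ[κ] κ) := by
  obtain ⟨m, hm⟩ := Ideal.exists_maximal P
  let _ : Field (P ⧸ m) := Ideal.Quotient.field m
  have h1 : Algebra.FiniteType κ (P ⧸ m) :=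
    Algebra.FiniteType.of_surjective (Ideal.Quotient.mkₐ κ m) (Ideal.Quotient.mkₐ_surjective κ m)
  have h2 : Module.Finite κ (P ⧸ m) := finite_of_finite_type_of_isJacobsonRing κ (P ⧸ m)
  have h3 := IsAlgClosed.algebraMap_bijective_of_isIntegral (k := κ) (K := P ⧸ m)
  let e : κ ≃ₐ[κ] (P ⧸ m) := AlgEquiv.ofBijective (Algebra.ofId κ (P ⧸ m)) h3
  exact ⟨(e.symm : (P ⧸ m) →ₐ[κ] κ).comp (Ideal.Quotient.mkₐ κ m)⟩

section nil

variable {A : Type} [CommRing A]

/-- The series with coefficients in an ideal. -/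
def coId (J : Ideal A) : Ideal (PowerSeries A) where
  carrier := {f | ∀ m, PowerSeries.coeff m f ∈ J}
  add_mem' {f g} hf hg m := by
    rw [map_add]
    exact J.add_mem (hf m) (hg m)
  zero_mem' m := by
    rw [map_zero]
    exact J.zero_mem
  smul_mem' c f hf m := by
    rw [smul_eq_mul, PowerSeries.coeff_mul]
    exact J.sum_mem fun p _ => J.mul_mem_left _ (hf _)

theorem coId_mul (J K : Ideal A) : coId J * coId K ≤ coId (J * K) := by
  rw [Ideal.mul_le]
  intro f hf g hg m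
  rw [PowerSeries.coeff_mul]
  exact (J * K).sum_mem fun p _ => Ideal.mul_mem_mul (hf _) (hg _)

theorem coId_pow (J : Ideal A) (n : ℕ) : coId J ^ n ≤ coId (J ^ n) := by
  induction n with
  | zero =>
    intro f _ m
    rw [pow_zero, Ideal.one_eq_top]
    trivial
  | succ n ih =>
    rw [pow_succ, pow_succ]
    exact (Ideal.mul_mono_left ih).trans (coId_mul _ _)

theorem coId_bot : coId (⊥ : Ideal A) = ⊥ := by
  rw [eq_bot_iff]
  intro f hf
  rw [Ideal.mem_bot]
  ext m
  exact hf m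

/-- Units modulo a nilpotent ideal. -/
theorem unit_of {κ : Type} [Field κ] [Algebra κ A] (r : A →ₐ[κ] κ)
    (hn : ∃ n : ℕ, RingHom.ker (r : A →+* κ) ^ n = ⊥) {a : A} (ha : r a ≠ 0) : IsUnit a := by
  have h1 : r (algebraMap κ A (r a)⁻¹ * a - 1) = 0 := by
    rw [map_sub, map_mul, map_one, AlgHom.commutes]
    change (r a)⁻¹ * r a - 1 = 0
    rw [inv_mul_cancel₀ ha, sub_self]
  have h2 : IsNilpotent (algebraMap κ A (r a)⁻¹ * a - 1) := by
    obtain ⟨n, hn⟩ := hn
    refine ⟨n, ?_⟩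
    have h3 : (algebraMap κ A (r a)⁻¹ * a - 1) ^ n ∈ RingHom.ker (r : A →+* κ) ^ n :=
      Ideal.pow_mem_pow h1 n
    rw [hn] at h3
    exact h3
  have h3 : IsUnit (algebraMap κ A (r a)⁻¹ * a) := by
    have h4 := h2.isUnit_add_one
    rwa [sub_add_cancel] at h4
  exact isUnit_of_mul_isUnit_right h3

end nil

end TCN

theorem t_TCN (hTRX : Stmt_TRX) (hAPT : Stmt_APT) (hAWK : Stmt_AWK) (hAWD : Stmt_AWD)
    (hTCA : Stmt_TCA) (hTNS : Stmt_TNS) (hMCB : Stmt_MCB) (hSDB : Stmt_SDB) (hKFG : Stmt_KFG)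
    (hKBC : Stmt_KBC) : Stmt_TCN := by
  intro A κ _ _ _ _ _ r hn _ h R hR
  have hRk : SKr h (bc (r : A →+* κ) R) := hTRX.1 hR (r : A →+* κ)
  have hft : Algebra.FiniteType κ (bc (r : A →+* κ) R) := by
    have := (hKFG hRk.kr).1
    infer_instance
  obtain ⟨e⟩ := TCN.exists_point hft
  obtain ⟨p0, -⟩ := hAPT hRk.fs hRk.smc e
  -- the lifting problem
  let _ : Algebra A κ := (r : A →+* κ).toAlgebra
  have halg : ∀ a : A, algebraMap A κ a = r a := fun _ => rfl
  let π : PowerSeries A →ₐ[A] PowerSeries κ :=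
    { PowerSeries.map (r : A →+* κ) with
      commutes' := fun a => by
        change PowerSeries.map (r : A →+* κ) (algebraMap A (PowerSeries A) a) =
          algebraMap A (PowerSeries κ) a
        rw [PowerSeries.algebraMap_apply, PowerSeries.algebraMap_apply, PowerSeries.map_C]
        rfl }
  have hπ : ∀ f, π f = PowerSeries.map (r : A →+* κ) f := fun _ => rfl
  have hr : ∀ c : κ, r (algebraMap κ A c) = c := fun c => by
    rw [AlgHom.commutes]
    rfl
  have hsurj : Function.Surjective π := by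
    intro f
    refine ⟨PowerSeries.map (algebraMap κ A) f, ?_⟩
    rw [hπ]
    ext m
    rw [PowerSeries.coeff_map, PowerSeries.coeff_map]
    exact hr _
  have hnil : IsNilpotent (RingHom.ker (π : PowerSeries A →+* PowerSeries κ)) := by
    obtain ⟨n, hn⟩ := hn
    refine ⟨n, ?_⟩
    have h1 : RingHom.ker (π : PowerSeries A →+* PowerSeries κ) ≤
        TCN.coId (RingHom.ker (r : A →+* κ)) := by
      intro f hf m
      have h2 : PowerSeries.map (r : A →+* κ) f = 0 := hf
      have h3 := congrArg (PowerSeries.coeff m) h2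
      rw [PowerSeries.coeff_map, map_zero] at h3
      exact h3
    have h2 := (Ideal.pow_right_mono h1 n).trans (TCN.coId_pow _ n)
    have hn' : RingHom.ker (r : A →+* κ) ^ n = ⊥ := hn
    rw [hn', TCN.coId_bot] at h2
    exact le_bot_iff.mp h2
  let g : R →ₐ[A] PowerSeries κ :=
    { (p0.h : bc (r : A →+* κ) R →+* PowerSeries κ).comp (bcMap (r : A →+* κ) R) with
      commutes' := fun a => by
        change p0.h (bcMap (r : A →+* κ) R (algebraMap A R a)) = algebraMap A (PowerSeries κ) a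
        have h1 : bcMap (r : A →+* κ) R (algebraMap A R a) =
            algebraMap κ (bc (r : A →+* κ) R) (r a) :=
          Subtype.ext (kmap_algebraMap (r : A →+* κ) a)
        rw [h1, AlgHom.commutes, PowerSeries.algebraMap_apply, PowerSeries.algebraMap_apply]
        rfl }
  have hg : ∀ f, g f = p0.h (bcMap (r : A →+* κ) R f) := fun _ => rfl
  have hfs : Algebra.FormallySmooth A R := hR.fs
  let hh : R →ₐ[A] PowerSeries A := Algebra.FormallySmooth.liftOfSurjective g π hsurj hnil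
  have hhh : ∀ f, π (hh f) = g f := fun f =>
    Algebra.FormallySmooth.liftOfSurjective_apply g π hsurj hnil f
  obtain ⟨x, hx⟩ := TCN.bcMap_surj r R p0.x
  let p : FPt R :=
    { h := hh
      x := x
      par := by
        refine TCN.unit_of r hn ?_
        have h1 := congrArg (PowerSeries.coeff 1) (hhh x)
        rw [hπ, PowerSeries.coeff_map, hg, hx] at h1
        have h2 := p0.par.ne_zero
        rw [← h1] at h2
        exact h2 }
  let pt : Unit → FPt R := fun _ => p
  have hD : Disj pt := fun j k hjk => absurd (Subsingleton.elim j k) hjk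
  have hK := hAWK hR.kr hR.smc pt hD
  have hDn : Dn (WJ pt) := hK.2.2.2.2.2.1
  have hdual : Dual (WJ pt) := hAWD hR.kr hR.smc pt hD hR.dual
  have hM := (hMCB.1 hK.1 hDn).2 (r : A →+* κ)
  have hkW : IsKr h (bc (r : A →+* κ) (WJ pt)) := (hKBC.2.2.2 hK.1 (r : A →+* κ)).1
  have hfs1 : Algebra.FormallySmooth κ (Rem (bc (r : A →+* κ) (WJ pt))) := by
    rw [hM.2.1, hK.2.2.1]
    exact hRk.fs
  have hfs2 : Algebra.FormallySmooth κ (bc (r : A →+* κ) (WJ pt)) := hTNS hkW hM.1 hfs1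
  have hsm2 : SmC κ (bc (r : A →+* κ) (WJ pt)) := (hSDB hK.1 hK.2.1 (r : A →+* κ)).1
  have hfs3 := (hTCA r hn hK.1 hfs2 hsm2).1
  refine ⟨WJ pt, (hat pt).codRestrict (WJ pt) (hat_mem pt), p,
    ⟨hK.1, hfs3, hK.2.1, hdual⟩, hK.2.2.1.symm, hDn, fun f => ⟨rfl, rfl⟩⟩

end Pool.Agent.MG.G0
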