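import Pool.Agent.MG.G0.StmtsTC

/-!
# TCO: differentials of the ring of a curve with one puncture less (PAPER_TG.md, TCO)
-/

namespace Pool.Agent.MG.G0

namespace TCO

section

variable {I A : Type} [CommRing A]

/-- The components at the punctures `I`. -/
noncomputable def pI : KK (I ⊕ Unit) A →ₐ[A] KK I A where
  toFun w i := w (Sum.inl i)
  map_one' := rfl
  map_mul' _ _ := rfl
  map_zero' := rfl
  map_add' _ _ := rfl
  commutes' _ := rfl

theorem pI_apply (w : KK (I ⊕ Unit) A) (i : I) : pI w i = w (Sum.inl i) := rfl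

theorem pI_dd (w : KK (I ⊕ Unit) A) : pI (dd w) = dd (pI w) := rfl

/-- Vanishing of order at least `M` at the last puncture. -/
def Vn (M : ℤ) (w : KK (I ⊕ Unit) A) : Prop := ∀ m < M, (w (Sum.inr ())).coeff m = 0

theorem Vn.mul {a b : ℤ} {v w : KK (I ⊕ Unit) A} (hv : Vn a v) (hw : Vn b w) :
    Vn (a + b) (v * w) := fun m hm => by
  rw [Pi.mul_apply]
  exact mul_low hv hw m hm

theorem Vn.mono {a b : ℤ} (h : a ≤ b) {w : KK (I ⊕ Unit) A} (hw : Vn b w) : Vn a w :=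
  fun m hm => hw m (lt_of_lt_of_le hm h)

theorem Vn.add {a : ℤ} {v w : KK (I ⊕ Unit) A} (hv : Vn a v) (hw : Vn a w) : Vn a (v + w) :=
  fun m hm => by rw [Pi.add_apply, HahnSeries.coeff_add, hv m hm, hw m hm, add_zero]

theorem Vn.sub {a : ℤ} {v w : KK (I ⊕ Unit) A} (hv : Vn a v) (hw : Vn a w) : Vn a (v - w) :=
  fun m hm => by rw [Pi.sub_apply, HahnSeries.coeff_sub, hv m hm, hw m hm, sub_zero]

theorem Vn.smul {a : ℤ} (c : A) {w : KK (I ⊕ Unit) A} (hw : Vn a w) : Vn a (c • w) :=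
  fun m hm => by rw [Pi.smul_apply, HahnSeries.coeff_smul, hw m hm, smul_zero]

theorem Vn.sum {n : ℕ} {a : ℤ} {w : Fin n → KK (I ⊕ Unit) A} (hw : ∀ k, Vn a (w k)) :
    Vn a (∑ k, w k) := fun m hm => by
  rw [Finset.sum_apply, HahnSeries.coeff_sum]
  exact Finset.sum_eq_zero fun k _ => hw k m hm

theorem exists_Vn (w : KK (I ⊕ Unit) A) : ∃ n : ℕ, Vn (-(n : ℤ)) w := exists_low _

theorem exists_Vn_fin {n : ℕ} (w : Fin n → KK (I ⊕ Unit) A) :
    ∃ N : ℕ, ∀ k, Vn (-(N : ℤ)) (w k) := by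
  choose l hl using fun k => exists_Vn (w k)
  refine ⟨Finset.univ.sup l, fun k => (hl k).mono ?_⟩
  have : l k ≤ Finset.univ.sup l := Finset.le_sup (Finset.mem_univ k)
  omega

theorem pI_mem {W : Subalgebra A (KK (I ⊕ Unit) A)} {w : KK (I ⊕ Unit) A} (hw : w ∈ W)
    (h : Vn 0 w) : pI w ∈ Rem W := ⟨w, hw, fun _ m hm => h m hm, fun _ => rfl⟩

theorem om_mul {P : Subalgebra A (KK I A)} {p η : KK I A} (hp : p ∈ P) (h : η ∈ Om P) :
    p * η ∈ Om P := by
  induction h using Submodule.span_induction with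
  | mem x hx =>
    obtain ⟨q, hq, f, hf, rfl⟩ := hx
    exact Submodule.subset_span ⟨p * q, mul_mem hp hq, f, hf, by rw [mul_assoc]⟩
  | zero => rw [mul_zero]; exact zero_mem _
  | add x y _ _ hx hy => rw [mul_add]; exact add_mem hx hy
  | smul a x _ hx => rw [mul_smul_comm]; exact Submodule.smul_mem _ a hx

theorem om_gen {P : Subalgebra A (KK I A)} {p f : KK I A} (hp : p ∈ P) (hf : f ∈ P) :
    p * dd f ∈ Om P := Submodule.subset_span ⟨p, hp, f, hf, rfl⟩

/-- Step 2. -/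
theorem step2 {W : Subalgebra A (KK (I ⊕ Unit) A)} {ζ : KK (I ⊕ Unit) A} (h : ζ ∈ Om W) :
    ∃ M : ℕ, ∀ s ∈ W, ∀ s' ∈ W, Vn M s → Vn M s' → pI (s * s' * ζ) ∈ Om (Rem W) := by
  induction h using Submodule.span_induction with
  | mem x hx =>
    obtain ⟨p, hp, g, hg, rfl⟩ := hx
    obtain ⟨a, ha⟩ := exists_Vn p
    obtain ⟨b, hb⟩ := exists_Vn g
    refine ⟨a + b, fun s hs s' hs' h1 h2 => ?_⟩
    have e1 : Vn 0 (s * p) := (h1.mul ha).mono (by push_cast; omega)
    have e2 : Vn 0 (s' * g) := (h2.mul hb).mono (by push_cast; omega)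
    have e3 : Vn 0 (s * p * g) := ((h1.mul ha).mul hb).mono (by push_cast; omega)
    have e4 : Vn 0 s' := h2.mono (by push_cast; omega)
    have e5 : s * s' * (p * dd g) = (s * p) * dd (s' * g) - (s * p * g) * dd s' := by
      rw [dd_mul]
      ring
    have e6 : pI ((s * p) * dd (s' * g)) = pI (s * p) * dd (pI (s' * g)) := rfl
    have e7 : pI ((s * p * g) * dd s') = pI (s * p * g) * dd (pI s') := rfl
    rw [e5, map_sub, e6, e7]
    exact sub_mem (om_gen (pI_mem (mul_mem hs hp) e1) (pI_mem (mul_mem hs' hg) e2))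
      (om_gen (pI_mem (mul_mem (mul_mem hs hp) hg) e3) (pI_mem hs' e4))
  | zero => exact ⟨0, fun s _ s' _ _ _ => by rw [mul_zero, map_zero]; exact zero_mem _⟩
  | add x y _ _ hx hy =>
    obtain ⟨M, hM⟩ := hx
    obtain ⟨N, hN⟩ := hy
    refine ⟨M + N, fun s hs s' hs' h1 h2 => ?_⟩
    rw [mul_add, map_add]
    exact add_mem (hM s hs s' hs' (h1.mono (by push_cast; omega)) (h2.mono (by push_cast; omega)))
      (hN s hs s' hs' (h1.mono (by push_cast; omega)) (h2.mono (by push_cast; omega)))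
  | smul a x _ hx =>
    obtain ⟨M, hM⟩ := hx
    refine ⟨M, fun s hs s' hs' h1 h2 => ?_⟩
    rw [mul_smul_comm, map_smul]
    exact Submodule.smul_mem _ a (hM s hs s' hs' h1 h2)

/-- Step 3. -/
theorem step3 {W : Subalgebra A (KK (I ⊕ Unit) A)} {ζ : KK (I ⊕ Unit) A} {M : ℕ}
    (hM : ∀ s ∈ W, ∀ s' ∈ W, Vn M s → Vn M s' → pI (s * s' * ζ) ∈ Om (Rem W)) {n : ℕ}
    (s a : Fin n → KK (I ⊕ Unit) A) (hs : ∀ k, s k ∈ W) (ha : ∀ k, a k ∈ W)
    (h1 : ∑ k, a k * s k = 1) (hv : ∀ k, Vn M (s k)) :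
    ∃ L : ℕ, ∀ f ∈ W, Vn L f → pI (f * ζ) ∈ Om (Rem W) := by
  obtain ⟨N, hN⟩ := exists_Vn_fin a
  refine ⟨N + N, fun f hf hfv => ?_⟩
  have e1 : f * ζ = ∑ k, ∑ l, (f * a k * a l) * (s k * s l * ζ) := by
    have e2 : f * ζ = (∑ k, a k * s k) * (∑ l, a l * s l) * (f * ζ) := by
      rw [h1, one_mul, one_mul]
    rw [e2, Finset.sum_mul_sum, Finset.sum_mul]
    refine Finset.sum_congr rfl fun k _ => ?_
    rw [Finset.sum_mul]
    refine Finset.sum_congr rfl fun l _ => ?_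
    ring
  rw [e1, map_sum]
  refine Submodule.sum_mem _ fun k _ => ?_
  rw [map_sum]
  refine Submodule.sum_mem _ fun l _ => ?_
  rw [map_mul]
  refine om_mul (pI_mem (mul_mem (mul_mem hf (ha k)) (ha l)) ?_)
    (hM _ (hs k) _ (hs l) (hv k) (hv l))
  exact ((hfv.mul (hN k)).mul (hN l)).mono (by push_cast; omega)

/-- A series without poles and with constant term `1` has an inverse without poles. -/
theorem exists_inv {f : LaurentSeries A} (h0 : ∀ m < 0, f.coeff m = 0) (h1 : f.coeff 0 = 1) :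
    ∃ x : LaurentSeries A, (∀ m < 0, x.coeff m = 0) ∧ x * f = 1 := by
  set g : PowerSeries A := PowerSeries.mk fun n => f.coeff n with hg
  have e1 : psl A g = f := by
    ext m
    rw [psl, PowerSeries.coeff_coe]
    split_ifs with hm
    · rw [h0 m hm]
    · rw [hg, PowerSeries.coeff_mk, Int.natAbs_of_nonneg (not_lt.1 hm)]
  have e2 : IsUnit g := by
    rw [PowerSeries.isUnit_iff_constantCoeff, hg, ← PowerSeries.coeff_zero_eq_constantCoeff_apply,
      PowerSeries.coeff_mk, Nat.cast_zero, h1]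
    exact isUnit_one
  obtain ⟨g', hg'⟩ := e2.exists_left_inv
  refine ⟨psl A g', fun m hm => ?_, ?_⟩
  · rw [psl, PowerSeries.coeff_coe, if_pos hm]
  · rw [← e1, ← map_mul, hg', map_one]

end

section

variable {I A : Type} [Fintype I] [CommRing A]

theorem res_sum (w : KK (I ⊕ Unit) A) :
    res w = res (pI w) + (w (Sum.inr ())).coeff (-1) := by
  change ∑ k, (w k).coeff (-1) = ∑ i, (w (Sum.inl i)).coeff (-1) + _
  rw [Fintype.sum_sum_type]
  simp

/-- Step 1. -/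
theorem step1 (hK : Stmt_KDU) {W : Subalgebra A (KK (I ⊕ Unit) A)} (hD : Dn W) {η : KK I A}
    (hη : η ∈ Perp (Rem W)) : ∃ ζ ∈ Perp W, pI ζ = η ∧ Vn 0 ζ := by
  have hD' : ∀ f : KK Unit A, ∃ w ∈ W, ∀ m < 0, (w (Sum.inr ())).coeff m = (f ()).coeff m := by
    intro f
    obtain ⟨w, hw, h⟩ := hD f 0
    exact ⟨w, hw, h ()⟩
  choose w hw hwf using hD'
  have key : ∀ v v' : KK (I ⊕ Unit) A, v ∈ W → v' ∈ W →
      (∀ m < 0, (v (Sum.inr ())).coeff m = (v' (Sum.inr ())).coeff m) →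
      res (η * pI v) = res (η * pI v') := by
    intro v v' hv hv' h
    have h1 : Vn 0 (v - v') := fun m hm => by
      rw [Pi.sub_apply, HahnSeries.coeff_sub, h m hm, sub_self]
    have h2 := hη _ (pI_mem (sub_mem hv hv') h1)
    rwa [map_sub, mul_sub, map_sub, sub_eq_zero] at h2
  let l : KK Unit A →ₗ[A] A :=
    { toFun := fun f => -res (η * pI (w f))
      map_add' := fun f g => by
        have h := key (w (f + g)) (w f + w g) (hw _) (add_mem (hw _) (hw _)) (fun m hm => by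
          rw [hwf _ m hm, Pi.add_apply, Pi.add_apply, HahnSeries.coeff_add, HahnSeries.coeff_add,
            hwf _ m hm, hwf _ m hm])
        rw [h, map_add, mul_add, map_add, neg_add]
      map_smul' := fun a f => by
        have h := key (w (a • f)) (a • w f) (hw _) (W.smul_mem (hw _) a) (fun m hm => by
          rw [hwf _ m hm, Pi.smul_apply, Pi.smul_apply, HahnSeries.coeff_smul,
            HahnSeries.coeff_smul, hwf _ m hm])
        rw [h, map_smul, mul_smul_comm, map_smul, RingHom.id_apply, smul_neg] }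
  have hl : ∀ f : KK Unit A, l f = -res (η * pI (w f)) := fun _ => rfl
  obtain ⟨ξ, ⟨hξ, hlξ⟩, _⟩ := hK (I := Unit) (0 : ℤ) l (by
    intro f hf
    rw [hl, key (w f) 0 (hw f) (zero_mem W) (fun m hm => by
      rw [hwf _ m hm, hf () m (by simpa using hm), Pi.zero_apply, HahnSeries.coeff_zero]),
      map_zero, mul_zero, map_zero, neg_zero])
  refine ⟨Sum.elim η ξ, fun v hv => ?_, rfl, fun m hm => hξ () m (by omega)⟩
  rw [res_sum, map_mul]
  have h1 : pI (I := I) (A := A) (Sum.elim η ξ) = η := rfl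
  have h2 := hlξ (fun _ => v (Sum.inr ()))
  have h3 : res (ξ * (fun _ => v (Sum.inr ()) : KK Unit A)) =
      ((Sum.elim η ξ * v : KK (I ⊕ Unit) A) (Sum.inr ())).coeff (-1) := by
    change ∑ k : Unit, _ = _
    simp
  have h4 := key (w (fun _ => v (Sum.inr ()))) v (hw _) hv (hwf _)
  rw [h1, ← h3, ← h2, hl, h4, add_neg_cancel]

end

end TCO

open TCO in
theorem t_TCO (h1 : Stmt_TEP) (h2 : Stmt_KDU) (h3 : Stmt_STO) : Stmt_TCO := by
  intro I A _ _ _ h W hW hS hDu hDn η hη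
  obtain ⟨ζ, hζ, hζη, hζ0⟩ := step1 h2 hDn hη
  obtain ⟨-, -, sT, -, sS⟩ := h3 hW
  obtain ⟨-, ⟨n, θ, g, hθ, hg, hθg⟩, sD⟩ := sS hS
  have hζO : ζ ∈ Om W := (sD.1 hDu) hζ
  obtain ⟨M, hM⟩ := step2 hζO
  obtain ⟨ι, -, -, -, -, hι⟩ := h1 hW hDn rfl
  obtain ⟨k, s, a, ha1, has⟩ := hι M
  obtain ⟨L, hL⟩ := step3 hM (fun j => (ι (s j) : KK (I ⊕ Unit) A))
    (fun j => (a j : KK (I ⊕ Unit) A)) (fun j => (ι (s j)).2) (fun j => (a j).2) (by
      have := congrArg (fun z : W => (z : KK (I ⊕ Unit) A)) ha1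
      simpa using this) (fun j => has j)
  -- the function `x`
  obtain ⟨x, hx, hx1⟩ := hDn (fun _ => HahnSeries.single (1 : ℤ) (1 : A)) 3
  have hx2 : ∀ m < 3, (x (Sum.inr ())).coeff m = if m = 1 then 1 else 0 := fun m hm => by
    rw [hx1 () m hm, HahnSeries.coeff_single]
    split_ifs <;> rfl
  have hx0 : Vn 0 x := fun m hm => by rw [hx2 m (by omega), if_neg (by omega)]
  have hdx : ∀ m < 0, (ld (x (Sum.inr ()))).coeff m = 0 := fun m hm => by
    rw [ld_coeff, hx2 (m + 1) (by omega), if_neg (by omega), mul_zero]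
  have hdx0 : (ld (x (Sum.inr ()))).coeff 0 = 1 := by
    rw [ld_coeff, hx2 (0 + 1) (by omega), if_pos (by omega)]
    simp
  obtain ⟨ξ, hξ0, hξ⟩ := exists_inv hdx hdx0
  -- the approximation of the vector field
  obtain ⟨N, hN⟩ := exists_Vn_fin θ
  choose w hw hwa using fun i : Fin n =>
    hDn (fun _ => ξ * ld (g i (Sum.inr ()))) ((L : ℤ) + N)
  set Θ : KK (I ⊕ Unit) A := ∑ i, w i * θ i with hΘ
  have hΘT : Θ ∈ TT W := Submodule.sum_mem _ fun i _ => sT _ (hw i) _ (hθ i)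
  have hΘa : ∀ m < (L : ℤ), (Θ (Sum.inr ()) - ξ).coeff m = 0 := by
    have e1 : Θ (Sum.inr ()) - ξ =
        ∑ i, (w i (Sum.inr ()) - ξ * ld (g i (Sum.inr ()))) * θ i (Sum.inr ()) := by
      have e2 := congrFun hθg (Sum.inr ())
      rw [Finset.sum_apply] at e2
      have e3 : ∑ i, θ i (Sum.inr ()) * ld (g i (Sum.inr ())) = 1 := e2
      have e4 : ξ = ∑ i, ξ * ld (g i (Sum.inr ())) * θ i (Sum.inr ()) := by
        calc ξ = ξ * ∑ i, θ i (Sum.inr ()) * ld (g i (Sum.inr ())) := by rw [e3, mul_one]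
          _ = _ := by
            rw [Finset.mul_sum]
            exact Finset.sum_congr rfl fun i _ => by ring
      rw [hΘ, Finset.sum_apply]
      conv_lhs => rw [e4]
      rw [← Finset.sum_sub_distrib]
      exact Finset.sum_congr rfl fun i _ => by rw [Pi.mul_apply, sub_mul]
    intro m hm
    rw [e1, HahnSeries.coeff_sum]
    refine Finset.sum_eq_zero fun i _ => ?_
    refine mul_low (a := (L : ℤ) + N) (b := -(N : ℤ)) (fun q hq => ?_) (hN i) m (by omega)
    rw [HahnSeries.coeff_sub, hwa i () q hq, sub_self]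
  have hΘ0 : Vn 0 Θ := fun m hm => by
    have e1 := hΘa m (by omega)
    rwa [HahnSeries.coeff_sub, hξ0 m hm, sub_zero] at e1
  -- the function `e`
  have he : Θ * dd x ∈ W := hΘT x hx
  have he1 : Vn L (1 - Θ * dd x) := by
    intro m hm
    have e1 : (1 - Θ * dd x : KK (I ⊕ Unit) A) (Sum.inr ()) =
        -((Θ (Sum.inr ()) - ξ) * ld (x (Sum.inr ()))) := by
      change 1 - Θ (Sum.inr ()) * ld (x (Sum.inr ())) = _
      rw [← hξ]
      ring
    rw [e1, HahnSeries.coeff_neg, mul_low hΘa hdx m (by omega), neg_zero]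
  have e2 : pI (Θ * dd x * ζ) ∈ Om (Rem W) := by
    have e3 : Θ * dd x * ζ = (Θ * ζ) * dd x := by ring
    rw [e3, map_mul, pI_dd]
    exact om_gen (pI_mem (hDu Θ hΘT ζ hζ) ((hΘ0.mul hζ0).mono (by omega))) (pI_mem hx hx0)
  have e3 := hL _ (sub_mem (one_mem W) he) he1
  have e4 : ζ = Θ * dd x * ζ + (1 - Θ * dd x) * ζ := by ring
  rw [← hζη, e4, map_add]
  exact add_mem e2 e3

end Pool.Agent.MG.G0
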