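import Pool.Agent.MG.G0.StmtsTC

/-!
# TCQ: a derivation and a function whose derivative does not vanish at given points
-/

namespace Pool.Agent.MG.G0

namespace TCQ

theorem sum_apply {A R ι : Type} [CommRing A] [CommRing R] [Algebra A R] (s : Finset ι)
    (F : ι → Derivation A R R) (x : R) : (∑ i ∈ s, F i) x = ∑ i ∈ s, F i x := by
  classical
  induction s using Finset.induction_on with
  | empty => rw [Finset.sum_empty, Finset.sum_empty, Derivation.zero_apply]
  | insert i s hi ih => rw [Finset.sum_insert hi, Finset.sum_insert hi, Derivation.add_apply, ih]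

/-- General position: finitely many affine forms which are not constant. -/
theorem avoid {κ : Type} [Field κ] [Infinite κ] {m n : ℕ} (b : Fin n → κ) (c : Fin n → Fin m → κ)
    (h : ∀ l, ∃ k, c l k ≠ 0) : ∃ μ : Fin m → κ, ∀ l, b l + ∑ k, μ k * c l k ≠ 0 := by
  classical
  let p : Fin n → MvPolynomial (Fin m) κ := fun l =>
    MvPolynomial.C (b l) + ∑ k, MvPolynomial.C (c l k) * MvPolynomial.X k
  have hp : ∀ l x, MvPolynomial.eval x (p l) = b l + ∑ k, x k * c l k := by
    intro l x
    simp only [p, map_add, map_sum, map_mul, MvPolynomial.eval_C, MvPolynomial.eval_X]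
    congr 1
    exact Finset.sum_congr rfl fun k _ => mul_comm _ _
  have hne : ∀ l, p l ≠ 0 := by
    intro l h0
    obtain ⟨k, hk⟩ := h l
    have h1 := hp l 0
    rw [h0, map_zero] at h1
    simp only [Pi.zero_apply, zero_mul, Finset.sum_const_zero, add_zero] at h1
    have h2 := hp l (Pi.single k 1)
    rw [h0, map_zero, ← h1, zero_add, Finset.sum_eq_single k] at h2
    · rw [Pi.single_eq_same, one_mul] at h2
      exact hk h2.symm
    · intro j _ hj
      rw [Pi.single_eq_of_ne hj, zero_mul]
    · intro hk'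
      exact absurd (Finset.mem_univ k) hk'
  have hprod : ∏ l, p l ≠ 0 := Finset.prod_ne_zero_iff.2 fun l _ => hne l
  by_contra hcon
  push Not at hcon
  apply hprod
  apply MvPolynomial.funext
  intro x
  obtain ⟨l, hl⟩ := hcon x
  rw [map_prod, map_zero]
  refine Finset.prod_eq_zero (Finset.mem_univ l) ?_
  rw [hp, hl]

end TCQ

open TCQ in
/-- TCQ. -/
theorem t_TCQ : Stmt_TCQ := by
  intro κ A R _ _ _ _ _ _ r hsm
  obtain ⟨m, D, g, h1, -⟩ := hsm
  refine ⟨m, g, fun n e he z => ?_⟩
  have hs : ∀ l (c : κ) (x : R), e l (algebraMap κ A c • x) = c * e l x := by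
    intro l c x
    rw [Algebra.smul_def, map_mul, he]
    congr 1
    exact r.commutes c
  have hk : ∀ l, ∃ k, e l (D k (g k)) ≠ 0 := by
    intro l
    by_contra hcon
    push Not at hcon
    have h2 := congrArg (e l) h1
    rw [map_sum, map_one, Finset.sum_eq_zero fun k _ => hcon k] at h2
    exact zero_ne_one h2
  choose k hk using hk
  obtain ⟨lam, hlam⟩ := avoid (fun _ => 0) (fun l i => e l (D i (g (k l)))) fun l => ⟨k l, hk l⟩
  let D' : Derivation A R R := ∑ i, algebraMap κ A (lam i) • D i
  have hD' : ∀ l x, e l (D' x) = ∑ i, lam i * e l (D i x) := by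
    intro l x
    have h2 : D' x = ∑ i, algebraMap κ A (lam i) • D i x :=
      sum_apply Finset.univ (fun i => algebraMap κ A (lam i) • D i) x
    rw [h2, map_sum]
    exact Finset.sum_congr rfl fun i _ => hs l _ _
  obtain ⟨μ, hμ⟩ := avoid (fun l => e l (D' z)) (fun l j => e l (D' (g j))) fun l => ⟨k l, by
    rw [hD']
    have h2 := hlam l
    rwa [zero_add] at h2⟩
  refine ⟨D', μ, fun l => ?_⟩
  rw [map_add, map_sum, map_add, map_sum]
  have h2 : ∀ j, e l (D' (algebraMap κ A (μ j) • g j)) = μ j * e l (D' (g j)) := by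
    intro j
    rw [Derivation.map_smul, hs]
  rw [Finset.sum_congr rfl fun j _ => h2 j]
  exact hμ l

end Pool.Agent.MG.G0
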