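import Pool.Agent.MG.G0.StmtsTC
import Pool.Agent.MG.G0.StmtsNP

/-!
# TCR: the second chart
-/

namespace Pool.Agent.MG.G0

namespace TCR

theorem kmap_id {I A : Type} [CommRing A] (f : KK I A) : kmap (RingHom.id A) f = f := by
  funext i
  ext n
  rfl

theorem mem_bc_id {I A : Type} [CommRing A] {P : Subalgebra A (KK I A)} {f : KK I A}
    (hf : f ∈ P) : f ∈ bc (RingHom.id A) P := by
  have h := kmap_mem_bc (RingHom.id A) hf
  rwa [kmap_id] at h

/-- Injectivity of the component at the remaining punctures. -/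
theorem inj (hMCB : Stmt_MCB) {I J A : Type} [Fintype I] [Nonempty I] [Fintype J] [CommRing A]
    {h : ℕ} {W : Subalgebra A (KK (I ⊕ J) A)} (hW : IsKr h W) (hD : Dn W) {w : KK (I ⊕ J) A}
    (hw : w ∈ W) (h0 : ∀ i, w (Sum.inl i) = 0) : w = 0 :=
  ((hMCB.1 (B := A) hW hD).2 (RingHom.id A)).2.2 w (mem_bc_id hw) h0

end TCR

theorem t_TCR (hTDN : Stmt_TDN) (hMCB : Stmt_MCB) (hTRX : Stmt_TRX) (hTCA : Stmt_TCA)
    (hTCO : Stmt_TCO) (hTCY : Stmt_TCY) (hKAU : Stmt_KAU) : Stmt_TCR := by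
  intro A κ _ _ _ _ _ r hn hfg h R P hR hP hRP hD
  have hD' : Dn (reix (Equiv.sumComm Unit Unit) P) := hTDN r hn hP.kr hD
  have hkr' : IsKr h (reix (Equiv.sumComm Unit Unit) P) := hKAU.2 P _ hP.kr
  have hm := hMCB.1 (B := κ) hkr' hD'
  have hm' := hm.2 (r : A →+* κ)
  have hkr2 : IsKr h (Rem (reix (Equiv.sumComm Unit Unit) P)) := hm.1
  -- the special fibre
  have hbP : SKr h (bc (r : A →+* κ) P) := hTRX.1 hP (r : A →+* κ)
  have hW : SKr h (reix (Equiv.sumComm Unit Unit) (bc (r : A →+* κ) P)) := hTRX.2 _ hbP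
  have he : bc (r : A →+* κ) (reix (Equiv.sumComm Unit Unit) P) =
      reix (Equiv.sumComm Unit Unit) (bc (r : A →+* κ) P) := hMCB.2.1 _ _ _
  rw [← he] at hW
  have hO : Perp (Rem (bc (r : A →+* κ) (reix (Equiv.sumComm Unit Unit) P))) ≤
      Om (Rem (bc (r : A →+* κ) (reix (Equiv.sumComm Unit Unit) P))) :=
    hTCO hW.kr hW.smc hW.dual hm'.1
  have hkrW : IsKr h (Rem (bc (r : A →+* κ) (reix (Equiv.sumComm Unit Unit) P))) :=
    (hMCB.1 (B := κ) hW.kr hm'.1).1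
  have hS := hTCY hkrW hO
  rw [hm'.2.1] at hS
  obtain ⟨hfs, hsm⟩ := hS
  obtain ⟨h1, h2, h3⟩ := hTCA r hn hkr2 hfs hsm
  have hs2 : SKr h (Rem (reix (Equiv.sumComm Unit Unit) P)) := ⟨hkr2, h1, h2, h3 inferInstance hfg⟩
  refine ⟨Rem (reix (Equiv.sumComm Unit Unit) P), ⟨hR, hs2, hP, hRP, rfl, hD, hD', ?_, ?_⟩⟩
  · intro w hw h0
    exact TCR.inj hMCB hP.kr hD hw h0
  · intro w hw h0
    have h4 : (fun i => w (Equiv.sumComm Unit Unit i)) ∈ reix (Equiv.sumComm Unit Unit) P := by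
      change (fun i => w (Equiv.sumComm Unit Unit ((Equiv.sumComm Unit Unit).symm i))) ∈ P
      have h5 : (fun i => w (Equiv.sumComm Unit Unit ((Equiv.sumComm Unit Unit).symm i))) = w := by
        funext i
        rw [Equiv.apply_symm_apply]
      rw [h5]
      exact hw
    have h6 := TCR.inj hMCB hkr' hD' h4 (fun i => h0 i)
    funext i
    have h7 := congrFun h6 ((Equiv.sumComm Unit Unit).symm i)
    change w (Equiv.sumComm Unit Unit ((Equiv.sumComm Unit Unit).symm i)) = 0 at h7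
    rw [Equiv.apply_symm_apply] at h7
    exact h7

end Pool.Agent.MG.G0
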