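import Pool.Agent.MG.G0.StmtsTC

/-!
# TCX: Theorem G for Krichever rings
-/

open TensorProduct

namespace Pool.Agent.MG.G0

namespace TCX

section

variable {B R S A : Type} [CommRing B] [CommRing R] [CommRing S] [CommRing A] [Algebra B R]
  [Algebra B S] [Algebra B A]

/-- The constant part of a formal point. -/
noncomputable def cp (h : S →ₐ[B] PowerSeries A) : S →ₐ[B] A where
  toRingHom := (PowerSeries.constantCoeff (R := A)).comp (h : S →+* PowerSeries A)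
  commutes' b := by
    change PowerSeries.constantCoeff (h (algebraMap B S b)) = _
    rw [h.commutes, PowerSeries.algebraMap_apply, PowerSeries.constantCoeff_C]

theorem cp_apply (h : S →ₐ[B] PowerSeries A) (f : S) :
    cp h f = PowerSeries.constantCoeff (h f) := rfl

/-- The universal property of `R[1/b]`. -/
def Uq (l : R →ₐ[B] S) (b : R) : Prop :=
  ∀ {D : Type} [CommRing D] [Algebra B D] (p : R →ₐ[B] D), IsUnit (p b) →
    ∃! p' : S →ₐ[B] D, p'.comp l = p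

theorem fp {l : R →ₐ[B] S} {g : R} {x : S} (hx : l g = x) (h : S →ₐ[B] PowerSeries A)
    (hu : IsUnit (PowerSeries.coeff 1 (h x))) : FPm (h.comp l) := by
  refine Ideal.eq_top_of_isUnit_mem _ (Ideal.subset_span ⟨g, rfl⟩) ?_
  change IsUnit (PowerSeries.coeff 1 (h (l g)))
  rw [hx]
  exact hu

theorem un {l : R →ₐ[B] S} {b : R} (hb : IsUnit (l b)) (h k : S →ₐ[B] PowerSeries A) :
    UnP b (h.comp l) (k.comp l) :=
  ⟨(hb.map h).map (PowerSeries.constantCoeff (R := A)),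
    (hb.map k).map (PowerSeries.constantCoeff (R := A))⟩

theorem dj {l : R →ₐ[B] S} {b : R} (hb : IsUnit (l b)) (hU : Uq l b)
    (h k : S →ₐ[B] PowerSeries A) (hd : Ideal.span (Set.range fun f : S =>
      PowerSeries.constantCoeff (h f) - PowerSeries.constantCoeff (k f)) = ⊤) :
    DJm (h.comp l) (k.comp l) := by
  obtain ⟨J, hJ⟩ : ∃ J : Ideal A, J = Ideal.span (Set.range fun r : R =>
      PowerSeries.constantCoeff ((h.comp l) r) - PowerSeries.constantCoeff ((k.comp l) r)) :=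
    ⟨_, rfl⟩
  change Ideal.span (Set.range fun r : R =>
      PowerSeries.constantCoeff ((h.comp l) r) - PowerSeries.constantCoeff ((k.comp l) r)) = ⊤
  rw [← hJ]
  have e1 : ((Ideal.Quotient.mkₐ B J).comp (cp h)).comp l =
      ((Ideal.Quotient.mkₐ B J).comp (cp k)).comp l := by
    refine AlgHom.ext fun r => ?_
    change Ideal.Quotient.mk J (PowerSeries.constantCoeff (h (l r))) =
      Ideal.Quotient.mk J (PowerSeries.constantCoeff (k (l r)))
    rw [Ideal.Quotient.eq, hJ]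
    exact Ideal.subset_span ⟨r, rfl⟩
  have e2 : (Ideal.Quotient.mkₐ B J).comp (cp h) = (Ideal.Quotient.mkₐ B J).comp (cp k) :=
    (hU (((Ideal.Quotient.mkₐ B J).comp (cp h)).comp l)
      (hb.map ((Ideal.Quotient.mkₐ B J).comp (cp h)))).unique rfl e1.symm
  rw [eq_top_iff, ← hd, Ideal.span_le]
  rintro _ ⟨f, rfl⟩
  have e3 := DFunLike.congr_fun e2 f
  change Ideal.Quotient.mk J (PowerSeries.constantCoeff (h f)) =
    Ideal.Quotient.mk J (PowerSeries.constantCoeff (k f)) at e3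
  rwa [Ideal.Quotient.eq] at e3

theorem fu (hTFP : Stmt_TFP) {l : R →ₐ[B] S} {x : S} {Δ : Derivation B S S}
    (hinv : ∀ n : ℕ, n ≠ 0 → IsUnit (n : B)) (hch : IsChart B S x Δ)
    (h : S →ₐ[B] PowerSeries A) (hp : FPm (h.comp l)) :
    IsUnit (PowerSeries.coeff 1 (h x)) := by
  rw [← Ideal.span_singleton_eq_top, eq_top_iff]
  have hp' : Ideal.span (Set.range fun r : R => PowerSeries.coeff 1 ((h.comp l) r)) = ⊤ := hp
  rw [← hp', Ideal.span_le]
  rintro _ ⟨r, rfl⟩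
  have := (hTFP hinv hch (A := A)).2.2 h (l r)
  change PowerSeries.coeff 1 (h (l r)) ∈ Ideal.span {PowerSeries.coeff 1 (h x)}
  rw [this]
  exact Ideal.mul_mem_left _ _ (Ideal.mem_span_singleton_self _)

theorem dv {l : R →ₐ[B] S} (h k : S →ₐ[B] PowerSeries A) (hd : DJm (h.comp l) (k.comp l)) :
    Ideal.span (Set.range fun f : S =>
      PowerSeries.constantCoeff (h f) - PowerSeries.constantCoeff (k f)) = ⊤ := by
  rw [eq_top_iff]
  have hd' : Ideal.span (Set.range fun r : R =>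
      PowerSeries.constantCoeff ((h.comp l) r) - PowerSeries.constantCoeff ((k.comp l) r)) = ⊤ :=
    hd
  rw [← hd', Ideal.span_le]
  rintro _ ⟨r, rfl⟩
  exact Ideal.subset_span ⟨l r, rfl⟩

theorem ups {b : R} {p : R →ₐ[B] PowerSeries A} (hp : IsUnit (PowerSeries.constantCoeff (p b))) :
    IsUnit (p b) :=
  PowerSeries.isUnit_iff_constantCoeff.mpr hp

theorem fpm_of {R' : Type} [CommRing R'] [Algebra B R'] {ι : R →ₐ[B] R'}
    {p : R' →ₐ[B] PowerSeries A} (hp : FPm (p.comp ι)) : FPm p := by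
  change Ideal.span _ = _
  rw [eq_top_iff]
  have hp' : Ideal.span (Set.range fun r : R => PowerSeries.coeff 1 ((p.comp ι) r)) = ⊤ := hp
  rw [← hp', Ideal.span_le]
  rintro _ ⟨r, rfl⟩
  exact Ideal.subset_span ⟨ι r, rfl⟩

theorem djm_of {R' : Type} [CommRing R'] [Algebra B R'] {ι : R →ₐ[B] R'}
    {p q : R' →ₐ[B] PowerSeries A} (hp : DJm (p.comp ι) (q.comp ι)) : DJm p q := by
  change Ideal.span _ = _
  rw [eq_top_iff]
  have hp' : Ideal.span (Set.range fun r : R =>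
      PowerSeries.constantCoeff ((p.comp ι) r) - PowerSeries.constantCoeff ((q.comp ι) r)) = ⊤ :=
    hp
  rw [← hp', Ideal.span_le]
  rintro _ ⟨r, rfl⟩
  exact Ideal.subset_span ⟨ι r, rfl⟩

end

section

variable {B : Type} [CommRing B] {S : Bool → Type} [∀ j, CommRing (S j)]
  [∀ j, Algebra B (S j)] {R₁ R₂ : Type} [CommRing R₁] [CommRing R₂] [Algebra B R₁]
  [Algebra B R₂]

/-- The value of the pair of functions `c₁`, `c₂`. -/
noncomputable def val (l₁ : R₁ →ₐ[B] S true) (l₂ : R₂ →ₐ[B] S false) (c₁ : CF B R₁)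
    (c₂ : CF B R₂) (j : Bool) (A : Type) [CommRing A] [Algebra B A]
    (h k : S j →ₐ[B] PowerSeries A) : A :=
  match j, h, k with
  | true, h, k => c₁ A (h.comp l₁) (k.comp l₁)
  | false, h, k => c₂ A (h.comp l₂) (k.comp l₂)

variable {T : Type} [CommRing T] [Algebra B T] (G : TGD B S T) {P : Type} [CommRing P]
  [Algebra B P]

/-- The function of pairs of formal points given by `c₁`, `c₂`. -/
noncomputable def fn {w : ℕ} (l₁ : R₁ →ₐ[B] S true) (l₂ : R₂ →ₐ[B] S false) (l : P →ₐ[B] T)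
    (ι₁ : R₁ →ₐ[B] P) (ι₂ : R₂ →ₐ[B] P) (b₁ g₁ : R₁) (b₂ g₂ : R₂) (hg₁ : l₁ g₁ = G.x true)
    (hg₂ : l₂ g₂ = G.x false) (hi₁ : ∀ f, G.i true (l₁ f) = l (ι₁ f))
    (hi₂ : ∀ f, G.i false (l₂ f) = l (ι₂ f)) (hb₁ : IsUnit (l₁ b₁)) (hb₂ : IsUnit (l₂ b₂))
    (hU₁ : Uq l₁ b₁) (hU₂ : Uq l₂ b₂) (c₁ : CF B R₁) (c₂ : CF B R₂) (hn₁ : c₁.Nat b₁)
    (hn₂ : c₂.Nat b₂) (hw₁ : c₁.Wt b₁ w) (hw₂ : c₂.Wt b₂ w) (ha : CF.Agr b₁ b₂ ι₁ ι₂ c₁ c₂) :
    GFn G w where
  c := fun j A _ _ h k => val l₁ l₂ c₁ c₂ j A h k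
  nat := by
    intro j A A' _ _ _ _ φ h k h' k' hv hh hk
    cases j
    · exact hn₂ φ (h.comp l₂) (k.comp l₂) (h'.comp l₂) (k'.comp l₂) (fp hg₂ h hv.1)
        (fp hg₂ k hv.2.1) (dj hb₂ hU₂ h k hv.2.2) (un hb₂ h k) (fun r => hh (l₂ r))
        (fun r => hk (l₂ r))
    · exact hn₁ φ (h.comp l₁) (k.comp l₁) (h'.comp l₁) (k'.comp l₁) (fp hg₁ h hv.1)
        (fp hg₁ k hv.2.1) (dj hb₁ hU₁ h k hv.2.2) (un hb₁ h k) (fun r => hh (l₁ r))
        (fun r => hk (l₁ r))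
  hom := by
    intro j A _ _ h k h' k' s t hv hh hk
    cases j
    · exact hw₂ s t (h.comp l₂) (k.comp l₂) (h'.comp l₂) (k'.comp l₂) (fp hg₂ h hv.1)
        (fp hg₂ k hv.2.1) (dj hb₂ hU₂ h k hv.2.2) (un hb₂ h k) (fun r => hh (l₂ r))
        (fun r => hk (l₂ r))
    · exact hw₁ s t (h.comp l₁) (k.comp l₁) (h'.comp l₁) (k'.comp l₁) (fp hg₁ h hv.1)
        (fp hg₁ k hv.2.1) (dj hb₁ hU₁ h k hv.2.2) (un hb₁ h k) (fun r => hh (l₁ r))
        (fun r => hk (l₁ r))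
  agr := by
    intro A _ _ h k hv _
    have h1 : ∀ q : T →ₐ[B] PowerSeries A, (q.comp (G.i true)).comp l₁ = (q.comp l).comp ι₁ :=
      fun q => AlgHom.ext fun f => congrArg q (hi₁ f)
    have h2 : ∀ q : T →ₐ[B] PowerSeries A, (q.comp (G.i false)).comp l₂ = (q.comp l).comp ι₂ :=
      fun q => AlgHom.ext fun f => congrArg q (hi₂ f)
    have a1 := fp hg₁ (h.comp (G.i true)) (hv true).1
    have a2 := fp hg₁ (k.comp (G.i true)) (hv true).2.1
    have a3 := dj hb₁ hU₁ (h.comp (G.i true)) (k.comp (G.i true)) (hv true).2.2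
    have a4 := un hb₁ (h.comp (G.i true)) (k.comp (G.i true))
    have d1 := fp hg₂ (h.comp (G.i false)) (hv false).1
    have d2 := fp hg₂ (k.comp (G.i false)) (hv false).2.1
    have d3 := dj hb₂ hU₂ (h.comp (G.i false)) (k.comp (G.i false)) (hv false).2.2
    have d4 := un hb₂ (h.comp (G.i false)) (k.comp (G.i false))
    rw [h1] at a1 a2
    rw [h1, h1] at a3 a4
    rw [h2] at d1 d2
    rw [h2, h2] at d3 d4
    change c₁ A ((h.comp (G.i true)).comp l₁) ((k.comp (G.i true)).comp l₁) =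
      c₂ A ((h.comp (G.i false)).comp l₂) ((k.comp (G.i false)).comp l₂)
    rw [h1, h1, h2, h2]
    exact ha (h.comp l) (k.comp l) (fpm_of a1) (fpm_of a2) (djm_of a3) a1 a2 a3 d1 d2 d3 a4 d4

end

end TCX

open TCX in
/-- TCX: Theorem G for Krichever rings. -/
theorem t_TCX (hTFP : Stmt_TFP) (hTGG : Stmt_TGG) (hTCG : Stmt_TCG) : Stmt_TCX := by
  intro A _ h R₁ R₂ P ι₁ ι₂ D₁ g₁ D₂ g₂ hT
  obtain ⟨S, _, _, T, _, _, G, l₁, l₂, l, e1, e2, i1, i2, u1, u2, U1, U2⟩ := hTCG hT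
  intro w hw c₁ c₂ n1 n2 w1 w2 ag
  obtain ⟨F, hF⟩ : ∃ F : GFn G w, F = fn G l₁ l₂ l ι₁ ι₂ (D₁ g₁) g₁ (D₂ g₂) g₂ e1 e2 i1 i2 u1
    u2 U1 U2 c₁ c₂ n1 n2 w1 w2 ag := ⟨_, rfl⟩
  constructor
  · intro A' _ _ p q hp hq hd hu
    obtain ⟨p', hp', -⟩ := U1 p (ups hu.1)
    obtain ⟨q', hq', -⟩ := U1 q (ups hu.2)
    subst hp'
    subst hq'
    have := hTGG G F hw true p' q' ⟨fu hTFP G.inv (G.ch true) p' hp,
      fu hTFP G.inv (G.ch true) q' hq, dv p' q' hd⟩
    rw [hF] at this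
    exact this
  · intro A' _ _ p q hp hq hd hu
    obtain ⟨p', hp', -⟩ := U2 p (ups hu.1)
    obtain ⟨q', hq', -⟩ := U2 q (ups hu.2)
    subst hp'
    subst hq'
    have := hTGG G F hw false p' q' ⟨fu hTFP G.inv (G.ch false) p' hp,
      fu hTFP G.inv (G.ch false) q' hq, dv p' q' hd⟩
    rw [hF] at this
    exact this

end Pool.Agent.MG.G0
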