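import Pool.Agent.MG.G0.StmtsTC
import Pool.Agent.MG.G0.StmtsV
import Pool.Agent.MG.G0.StmtsG

/-!
# TCY: smoothness from `Perp R ≤ Om R` (PAPER_TG.md, TCY)
-/

open TensorProduct

namespace Pool.Agent.MG.G0

namespace TCY

variable {κ : Type} [Field κ]

/-- the monomial `τ^n` -/
theorem single_mul_coeff (n : ℤ) (f : LaurentSeries κ) (m : ℤ) :
    ((HahnSeries.single n (1 : κ) : LaurentSeries κ) * f).coeff m = f.coeff (m - n) := by
  have h : m = (m - n) + n := by ring
  rw [mul_comm]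
  nth_rewrite 1 [h]
  rw [HahnSeries.coeff_mul_single_add, mul_one]

theorem single_pow (d : ℕ) : (HahnSeries.single (1 : ℤ) (1 : κ) : LaurentSeries κ) ^ d =
    HahnSeries.single (d : ℤ) 1 := by
  rw [HahnSeries.single_pow]
  simp

theorem zz_mul_single (d : ℕ) : zz κ d * HahnSeries.single (d : ℤ) 1 = 1 := by
  rw [zz, HahnSeries.single_mul_single]
  simp

theorem psl_coeff (f : PowerSeries κ) (n : ℕ) : (psl κ f).coeff (n : ℤ) = PowerSeries.coeff n f := by
  rw [psl]
  exact HahnSeries.ofPowerSeries_apply_coeff f n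

theorem psl_X : psl κ (PowerSeries.X : PowerSeries κ) = HahnSeries.single (1 : ℤ) 1 := by
  rw [psl]
  exact HahnSeries.ofPowerSeries_X

/-- a monic Laurent series is `τ^(-d)` times a power series with constant coefficient 1 -/
theorem mon_form {d : ℕ} {z : LaurentSeries κ} (h0 : ∀ m < -(d : ℤ), z.coeff m = 0)
    (h1 : z.coeff (-(d : ℤ)) = 1) : ∃ v : PowerSeries κ, PowerSeries.constantCoeff v = 1 ∧
      z * HahnSeries.single (d : ℤ) 1 = psl κ v := by
  refine ⟨PowerSeries.mk fun k => z.coeff ((k : ℤ) - d), ?_, ?_⟩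
  · rw [← PowerSeries.coeff_zero_eq_constantCoeff_apply, PowerSeries.coeff_mk]
    simpa using h1
  · ext m
    rw [mul_comm, single_mul_coeff]
    by_cases hm : 0 ≤ m
    · obtain ⟨n, rfl⟩ := Int.eq_ofNat_of_zero_le hm
      rw [psl_coeff, PowerSeries.coeff_mk]
    · rw [h0 (m - d) (by omega), psl]
      have : (HahnSeries.ofPowerSeries ℤ κ (PowerSeries.mk fun k => z.coeff ((k : ℤ) - d))).coeff m
          = 0 := by
        rw [PowerSeries.coeff_coe]
        rw [if_pos (by omega)]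
      rw [this]

/-- the coordinate -/
theorem exists_coord (hROO : Stmt_ROO) [CharZero κ] {d : ℕ} (hd : 1 ≤ d) {z : LaurentSeries κ}
    (h0 : ∀ m < -(d : ℤ), z.coeff m = 0) (h1 : z.coeff (-(d : ℤ)) = 1) :
    ∃ u : PowerSeries κ, PowerSeries.constantCoeff u = 0 ∧ PowerSeries.coeff 1 u = 1 ∧
      z * psl κ u ^ d = 1 := by
  obtain ⟨v, hv1, hv2⟩ := mon_form h0 h1
  have hunit : IsUnit v := by
    rw [PowerSeries.isUnit_iff_constantCoeff, hv1]
    exact isUnit_one
  obtain ⟨w, hw⟩ := hunit.exists_right_inv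
  have hw1 : PowerSeries.constantCoeff w = 1 := by
    have := congrArg PowerSeries.constantCoeff hw
    rw [map_mul, hv1, one_mul, map_one] at this
    exact this
  have hdu : IsUnit (d : κ) := by
    rw [isUnit_iff_ne_zero]
    exact Nat.cast_ne_zero.2 (by omega)
  obtain ⟨⟨r, ⟨hr1, hr2⟩, _⟩, _⟩ := hROO d hdu w hw1
  refine ⟨PowerSeries.X * r, ?_, ?_, ?_⟩
  · rw [map_mul, PowerSeries.constantCoeff_X, zero_mul]
  · have : (1 : ℕ) = 0 + 1 := rfl
    rw [this, PowerSeries.coeff_succ_X_mul, PowerSeries.coeff_zero_eq_constantCoeff_apply, hr1]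
  · rw [map_mul, mul_pow, psl_X, single_pow, ← map_pow, hr2, ← mul_assoc, hv2, ← map_mul, hw,
      map_one]

/-- the substitution maps `τ^(-d)` to `z` -/
theorem map_zz {d : ℕ} {z : LaurentSeries κ} {u : PowerSeries κ}
    (hz : z * psl κ u ^ d = 1) (Φ : LaurentSeries κ →ₐ[κ] LaurentSeries κ)
    (hΦ : Φ (HahnSeries.single 1 1) = psl κ u) : Φ (zz κ d) = z := by
  have h1 : Φ (zz κ d) * psl κ u ^ d = 1 := by
    rw [← hΦ, ← map_pow, ← map_mul, single_pow, zz_mul_single, map_one]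
  have h2 : Φ (zz κ d) = Φ (zz κ d) * (z * psl κ u ^ d) := by rw [hz, mul_one]
  rw [h2]
  calc Φ (zz κ d) * (z * psl κ u ^ d) = z * (Φ (zz κ d) * psl κ u ^ d) := by ring
    _ = z := by rw [h1, mul_one]

/-- the algebra and its transform -/
noncomputable def eqv (Φ : LaurentSeries κ ≃ₐ[κ] LaurentSeries κ)
    (R : Subalgebra κ (KK Unit κ)) :
    uno ((duo R).comap (Φ : LaurentSeries κ →ₐ[κ] LaurentSeries κ)) ≃ₐ[κ] R where
  toFun f := ⟨fun _ => Φ ((f : KK Unit κ) ()), f.2⟩
  invFun g := ⟨fun _ => Φ.symm ((g : KK Unit κ) ()), by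
    change (fun _ => Φ (Φ.symm ((g : KK Unit κ) ()))) ∈ R
    have : (fun _ : Unit => Φ (Φ.symm ((g : KK Unit κ) ()))) = (g : KK Unit κ) := by
      funext i
      rw [AlgEquiv.apply_symm_apply]
    rw [this]
    exact g.2⟩
  left_inv f := Subtype.ext (funext fun i => by
    change Φ.symm (Φ ((f : KK Unit κ) ())) = _
    rw [AlgEquiv.symm_apply_apply])
  right_inv g := Subtype.ext (funext fun i => by
    change Φ (Φ.symm ((g : KK Unit κ) ())) = _
    rw [AlgEquiv.apply_symm_apply])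
  map_mul' f g := Subtype.ext (funext fun _ =>
    map_mul Φ ((f : KK Unit κ) ()) ((g : KK Unit κ) ()))
  map_add' f g := Subtype.ext (funext fun _ =>
    map_add Φ ((f : KK Unit κ) ()) ((g : KK Unit κ) ()))
  commutes' a := Subtype.ext (funext fun _ => Φ.commutes a)

end TCY

theorem t_TCY (hSMO : Stmt_SMO) (hROO : Stmt_ROO) (hSUB : Stmt_SUB) (hGTR : Stmt_GTR)
    (hSBC : Stmt_SBC) (hKNZ : Stmt_KNZ) : Stmt_TCY := by
  intro κ _ _ _ h R hR hPO
  obtain ⟨⟨N, hN⟩, hK⟩ := hKNZ hR
  obtain ⟨z, hz, hzM⟩ := (hK N hN).2.2 ((N + 1 : ℕ) : ℤ) (by push_cast; omega)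
  set d := N + 1 with hd
  obtain ⟨u, hu0, hu1, hzu⟩ := TCY.exists_coord hROO (d := d) (by omega) (z := z ())
    (fun m hm => hzM.1 () m hm) (hzM.2 ())
  have huu : IsUnit (PowerSeries.coeff 1 u) := by rw [hu1]; exact isUnit_one
  obtain ⟨Φ, hΦ⟩ := hSUB.1 u hu0 huu
  obtain ⟨_, _, _, _, hld, hres, _⟩ := hSUB.2.1 u hu0 huu _ hΦ
  have hzz : Φ (zz κ d) = z () := TCY.map_zz hzu (Φ : LaurentSeries κ →ₐ[κ] LaurentSeries κ) hΦ.tau
  set R' := (duo R).comap (Φ : LaurentSeries κ →ₐ[κ] LaurentSeries κ) with hR'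
  have hmem : ∀ f, f ∈ R' ↔ (fun _ : Unit => Φ f) ∈ R := fun f => Iff.rfl
  have hKr : Kr h (duo R) := by
    unfold Kr
    rw [uno_duo]
    exact hR
  have hKr' : Kr h R' := (hGTR u hu0 huu Φ hΦ (duo R) R' hR').1 h hKr
  have hzR' : zz κ d ∈ R' := by
    rw [hmem, hzz]
    exact hz
  -- the factor
  set U := ld (psl κ u) with hU
  have hU0 : U ≠ 0 := by
    intro h0
    have h1 : U.coeff 0 = 0 := by rw [h0, HahnSeries.coeff_zero]
    rw [hU, ld_coeff] at h1
    have h2 : (psl κ u).coeff (0 + 1) = 1 := by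
      have := TCY.psl_coeff u 1
      rw [hu1] at this
      exact this
    rw [h2] at h1
    simp at h1
  have hsub : Perp (uno R') ≤ Om (uno R') := by
    intro η' hη'
    have h1 : (fun _ : Unit => Φ (η' ()) * U) ∈ Perp R := by
      intro p hp
      rw [res_unit, Pi.mul_apply]
      have e : Φ (η' ()) * U * p () = Φ (η' () * Φ.symm (p ())) * U := by
        rw [map_mul, AlgEquiv.apply_symm_apply]
        ring
      rw [e]
      have h2 := hres (η' () * Φ.symm (p ()))
      have h3 : (η' () * Φ.symm (p ())).coeff (-1) = 0 := by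
        have h4 := hη' (fun _ => Φ.symm (p ())) (by
          rw [mem_uno, hmem]
          have : (fun _ : Unit => Φ (Φ.symm (p ()))) = p := by
            funext i
            rw [AlgEquiv.apply_symm_apply]
          rw [this]
          exact hp)
        rw [res_unit] at h4
        exact h4
      rw [h3] at h2
      exact h2
    have h2 := hPO h1
    have h3 : ∀ η ∈ Om R, ∃ ξ ∈ Om (uno R'), η () = Φ (ξ ()) * U := by
      intro η hη
      refine Submodule.span_induction (p := fun η _ => ∃ ξ ∈ Om (uno R'), η () = Φ (ξ ()) * U)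
        ?_ ?_ ?_ ?_ hη
      · rintro _ ⟨p, hp, f, hf, rfl⟩
        have hp' : (fun _ : Unit => Φ.symm (p ())) ∈ uno R' := by
          rw [mem_uno, hmem]
          have : (fun _ : Unit => Φ (Φ.symm (p ()))) = p := by
            funext i
            rw [AlgEquiv.apply_symm_apply]
          rw [this]
          exact hp
        have hf' : (fun _ : Unit => Φ.symm (f ())) ∈ uno R' := by
          rw [mem_uno, hmem]
          have : (fun _ : Unit => Φ (Φ.symm (f ()))) = f := by
            funext i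
            rw [AlgEquiv.apply_symm_apply]
          rw [this]
          exact hf
        refine ⟨(fun _ : Unit => Φ.symm (p ())) * dd (fun _ : Unit => Φ.symm (f ())),
          Submodule.subset_span ⟨_, hp', _, hf', rfl⟩, ?_⟩
        have h4 := hld (Φ.symm (f ()))
        change ld (Φ (Φ.symm (f ()))) = Φ (ld (Φ.symm (f ()))) * U at h4
        rw [AlgEquiv.apply_symm_apply] at h4
        change p () * ld (f ()) = Φ (Φ.symm (p ()) * ld (Φ.symm (f ()))) * U
        rw [map_mul, AlgEquiv.apply_symm_apply, h4]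
        ring
      · exact ⟨0, zero_mem _, by simp⟩
      · rintro x y _ _ ⟨ξ, hξ, h5⟩ ⟨ζ, hζ, h6⟩
        refine ⟨ξ + ζ, add_mem hξ hζ, ?_⟩
        rw [Pi.add_apply, h5, h6, Pi.add_apply, map_add]
        ring
      · rintro a x _ ⟨ξ, hξ, h5⟩
        refine ⟨a • ξ, Submodule.smul_mem _ a hξ, ?_⟩
        rw [Pi.smul_apply, h5, Pi.smul_apply, map_smul, smul_mul_assoc]
    obtain ⟨ξ, hξ, h5⟩ := h3 _ h2
    have h6 : η' = ξ := by
      funext i
      have h7 : Φ (η' ()) = Φ (ξ ()) := mul_right_cancel₀ hU0 h5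
      exact Φ.injective h7
    rw [h6]
    exact hξ
  obtain ⟨hfs, hsm⟩ := hSMO (by omega) hKr' hzR' hsub
  refine ⟨?_, hSBC.2.1 (TCY.eqv Φ R) hsm⟩
  exact Algebra.FormallySmooth.of_equiv (TCY.eqv Φ R)

end Pool.Agent.MG.G0
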