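import Pool.Agent.MG.G0.StmtsTC

/-!
# TCZ: existence of the two charts (PAPER_TG.md)
-/

open TensorProduct

namespace Pool.Agent.MG.G0

namespace TCZ

section

variable {I A κ : Type} [CommRing A] [Field κ] [Algebra κ A]

/-- Monic functions of large pole order. -/
theorem exists_mon [Fintype I] (hKNZ : Stmt_KNZ) {h : ℕ} {S : Subalgebra A (KK I A)}
    (hS : IsKr h S) {m : ℕ} (y : Fin m → S) :
    ∃ (z : S) (d : ℤ), 1 ≤ d ∧ ∀ c : Fin m → κ,
      Mon d ((z + ∑ k, algebraMap κ A (c k) • y k : S) : KK I A) := by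
  obtain ⟨⟨N, hN⟩, h2⟩ := hKNZ hS
  choose n hn using fun k => exists_Pol (y k : KK I A)
  obtain ⟨z, hz, hz'⟩ := (h2 N hN).2.2 ((N + Finset.univ.sup n + 1 : ℕ) : ℤ) (by omega)
  refine ⟨⟨z, hz⟩, ((N + Finset.univ.sup n + 1 : ℕ) : ℤ), by omega, fun c => ?_⟩
  have h3 : ((∑ k, algebraMap κ A (c k) • y k : S) : KK I A) ∈
      Pol I A (((N + Finset.univ.sup n + 1 : ℕ) : ℤ) - 1) := by
    rw [AddSubmonoidClass.coe_finsetSum]
    refine Submodule.sum_mem _ fun k _ => ?_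
    refine Submodule.smul_mem _ _ (Pol_mono ?_ (hn k))
    have : n k ≤ Finset.univ.sup n := Finset.le_sup (Finset.mem_univ k)
    omega
  refine ⟨?_, fun i => ?_⟩
  · exact (Pol I A _).add_mem hz'.1 (Pol_mono (by omega) h3)
  · change (z i + ((∑ k, algebraMap κ A (c k) • y k : S) : KK I A) i).coeff _ = 1
    rw [HahnSeries.coeff_add, hz'.2 i, h3 i _ (by omega), add_zero]

/-- A function which does not vanish at some point does not vanish at the puncture. -/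
theorem ne_zero (hTZU : Stmt_TZU) (r : A →ₐ[κ] κ) (hn : ∃ n : ℕ, RingHom.ker r ^ n = ⊥)
    {S : Subalgebra A (KK Unit A)} (e : S →+* κ) (he : ∀ a, e (algebraMap A S a) = r a)
    (b : S) (hb : e b ≠ 0) : lmap (r : A →+* κ) ((b : KK Unit A) ()) ≠ 0 := by
  intro h0
  have h1 : kmap (r : A →+* κ) (b : KK Unit A) = 0 := by
    funext i
    exact h0
  have h2 : kmap (r : A →+* κ)
      ((1 + algebraMap A S (algebraMap κ A (-(e b)⁻¹)) * b : S) : KK Unit A) = 1 := by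
    change kmap (r : A →+* κ) (1 +
      ((algebraMap A S (algebraMap κ A (-(e b)⁻¹)) : S) : KK Unit A) * (b : KK Unit A)) = 1
    rw [map_add, map_one, map_mul, h1, mul_zero, add_zero]
  have h3 := (hTZU r hn).2.2.2 S _ h2
  have h4 : e (1 + algebraMap A S (algebraMap κ A (-(e b)⁻¹)) * b) = 0 := by
    rw [map_add, map_one, map_mul, he, AlgHom.commutes]
    change 1 + (-(e b)⁻¹) * e b = 0
    rw [neg_mul, inv_mul_cancel₀ hb]
    ring
  exact (h3.map e).ne_zero h4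

/-- Elements of the fibre of `P` lift to `P`. -/
theorem lift (hKBC : Stmt_KBC) (r : A →ₐ[κ] κ) (P : Subalgebra A (KK I A))
    (u : bc (r : A →+* κ) P) : ∃ v : P, bcMap (r : A →+* κ) P v = u := by
  have h1 : (u : KK I κ) ∈ Submodule.span κ (kmap (r : A →+* κ) '' (P : Set (KK I A))) := by
    rw [← hKBC.1]
    exact u.2
  have h2 : ∀ f ∈ Submodule.span κ (kmap (r : A →+* κ) '' (P : Set (KK I A))),
      ∃ v : P, kmap (r : A →+* κ) (v : KK I A) = f := by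
    intro f hf
    induction hf using Submodule.span_induction with
    | mem x hx =>
      obtain ⟨y, hy, rfl⟩ := hx
      exact ⟨⟨y, hy⟩, rfl⟩
    | zero => exact ⟨0, map_zero _⟩
    | add x y _ _ hx hy =>
      obtain ⟨v, rfl⟩ := hx
      obtain ⟨w, rfl⟩ := hy
      exact ⟨v + w, map_add (kmap (r : A →+* κ)) (v : KK I A) (w : KK I A)⟩
    | smul a x _ hx =>
      obtain ⟨v, rfl⟩ := hx
      refine ⟨algebraMap κ A a • v, ?_⟩
      change kmap (r : A →+* κ) (algebraMap κ A a • (v : KK I A)) = _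
      rw [kmap_smul]
      congr 1
      exact r.commutes a
  obtain ⟨v, hv⟩ := h2 _ h1
  exact ⟨v, Subtype.ext hv⟩

/-- The value of functions without poles. -/
noncomputable def ev0 {S : Type} [CommRing S] (r : A →ₐ[κ] κ) (F : S →+* LaurentSeries A)
    (hF : ∀ s, ∀ m < 0, (F s).coeff m = 0) : S →+* κ where
  toFun s := r ((F s).coeff 0)
  map_one' := by rw [map_one, HahnSeries.coeff_one, if_pos rfl, map_one]
  map_zero' := by rw [map_zero, HahnSeries.coeff_zero, map_zero]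
  map_add' s t := by rw [map_add, HahnSeries.coeff_add, map_add]
  map_mul' s t := by
    have h := mul_lead (hF s) (hF t)
    rw [add_zero] at h
    rw [map_mul, h, map_mul]

/-- The value at a formal point, modulo the kernel of `r`. -/
noncomputable def pte {R : Subalgebra A (KK I A)} (r : A →ₐ[κ] κ) (p : FPt R) : R →+* κ :=
  (r : A →+* κ).comp ((PowerSeries.constantCoeff (R := A)).comp (p.h : R →+* PowerSeries A))

theorem pte_apply {R : Subalgebra A (KK I A)} (r : A →ₐ[κ] κ) (p : FPt R) (f : R) :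
    pte r p f = r (p.ev f) := rfl

theorem pte_alg {R : Subalgebra A (KK I A)} (r : A →ₐ[κ] κ) (p : FPt R) (a : A) :
    pte r p (algebraMap A R a) = r a := by
  change r (PowerSeries.constantCoeff (p.h (algebraMap A R a))) = r a
  rw [AlgHom.commutes]
  exact congrArg r (PowerSeries.constantCoeff_C a)

/-- The component at `i`. -/
noncomputable def cmp {J : Type} {S : Subalgebra A (KK J A)} {P : Subalgebra A (KK I A)}
    (f : S →ₐ[A] P) (i : I) : S →+* LaurentSeries A :=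
  (Pi.evalRingHom (fun _ : I => LaurentSeries A) i).comp
    ((P.val : P →+* KK I A).comp (f : S →+* P))

theorem cmp_apply {J : Type} {S : Subalgebra A (KK J A)} {P : Subalgebra A (KK I A)}
    (f : S →ₐ[A] P) (i : I) (s : S) : cmp f i s = (f s : KK I A) i := rfl

theorem psl_low (f : PowerSeries A) (m : ℤ) (hm : m < 0) : (psl A f).coeff m = 0 := by
  change ((f : LaurentSeries A)).coeff m = 0
  rw [PowerSeries.coeff_coe, if_pos hm]

theorem psl_zero (f : PowerSeries A) : (psl A f).coeff 0 = PowerSeries.constantCoeff f := by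
  change ((f : LaurentSeries A)).coeff 0 = _
  rw [PowerSeries.coeff_coe, if_neg (by omega), Int.natAbs_zero,
    PowerSeries.coeff_zero_eq_constantCoeff]

end

end TCZ

theorem t_TCZ (hTCN : Stmt_TCN) (hTCR : Stmt_TCR) (hTEP : Stmt_TEP) (hTCQ : Stmt_TCQ)
    (hTCF : Stmt_TCF) (hTZU : Stmt_TZU) (hTZF : Stmt_TZF) (hKNZ : Stmt_KNZ) (hKBC : Stmt_KBC)
    (hKAU : Stmt_KAU) : Stmt_TCZ := by
  intro A κ _ _ _ _ _ r hn hfg h hh R hR pt
  obtain ⟨P, ι₁, p, hP, hRP, hD, hι₁⟩ := hTCN r hn hfg hR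
  obtain ⟨R₂, hC⟩ := hTCR r hn hfg hR hP hRP hD
  obtain ⟨ι', -, h1, h2, -, -⟩ :=
    hTEP (hKAU.2 P (Equiv.sumComm Unit Unit) hP.kr) hC.d2 hC.f2
  let ρ : reix (Equiv.sumComm Unit Unit) P →ₐ[A] P :=
    { toFun := fun w => ⟨fun i => (w : KK (Unit ⊕ Unit) A) ((Equiv.sumComm Unit Unit).symm i), w.2⟩
      map_one' := rfl
      map_mul' := fun _ _ => rfl
      map_zero' := rfl
      map_add' := fun _ _ => rfl
      commutes' := fun _ => rfl }
  have hI : Inc ι₁ (ρ.comp ι') := by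
    refine ⟨fun f i => (hι₁ f).1, fun f i => h1 f i, fun f i m hm => ?_, fun f i m hm => h2 f m hm⟩
    change ((ι₁ f : KK (Unit ⊕ Unit) A) (Sum.inr ())).coeff m = 0
    rw [(hι₁ f).2]
    exact TCZ.psl_low _ m hm
  generalize ρ.comp ι' = ι₂ at hI
  -- the first chart
  obtain ⟨m₁, y₁, hy₁⟩ := hTCQ r hR.smc
  obtain ⟨z₁, d₁, hd₁, hz₁⟩ := TCZ.exists_mon (κ := κ) hKNZ hR.kr y₁
  obtain ⟨D₁, μ₁, hμ₁⟩ := hy₁ 3 ![TCZ.pte r (pt true), TCZ.pte r (pt false), TCZ.pte r p] (by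
    intro l a
    fin_cases l
    · exact TCZ.pte_alg r (pt true) a
    · exact TCZ.pte_alg r (pt false) a
    · exact TCZ.pte_alg r p a) z₁
  have hg₁ := hz₁ μ₁
  generalize (z₁ + ∑ k, algebraMap κ A (μ₁ k) • y₁ k) = g₁ at hμ₁ hg₁
  have ht : r ((pt true).ev (D₁ g₁)) ≠ 0 := hμ₁ 0
  have hf : r ((pt false).ev (D₁ g₁)) ≠ 0 := hμ₁ 1
  have hp : r (p.ev (D₁ g₁)) ≠ 0 := hμ₁ 2
  have e1 : ((ι₁ (D₁ g₁) : KK (Unit ⊕ Unit) A) (Sum.inr ())).coeff 0 = p.ev (D₁ g₁) := by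
    rw [(hι₁ (D₁ g₁)).2]
    exact TCZ.psl_zero _
  have hv1 : r (((ι₁ (D₁ g₁) : KK (Unit ⊕ Unit) A) (Sum.inr ())).coeff 0) ≠ 0 := by
    rw [e1]
    exact hp
  have hu1 : IsUnit (ι₁ (D₁ g₁) : KK (Unit ⊕ Unit) A) := by
    refine (hTZU r hn).2.1 _ ?_
    rintro (i | i)
    · rw [kmap_apply, hI.e1]
      exact TCZ.ne_zero hTZU r hn (TCZ.pte r p) (TCZ.pte_alg r p) (D₁ g₁) hp
    · intro h0
      rw [kmap_apply] at h0
      apply hv1
      have h3 := congrArg (fun s : LaurentSeries κ => s.coeff 0) h0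
      exact h3
  -- the points where the first coordinate is not etale
  have hK : IsKr h (bc (r : A →+* κ) P) := (hKBC.2.2.2 hP.kr (r : A →+* κ)).1
  obtain ⟨hE, hcov⟩ := hTCF hK (bcMap (r : A →+* κ) P (ι₁ (D₁ g₁))) (hu1.map (kmap (r : A →+* κ)))
  -- the second chart
  obtain ⟨m₂, y₂, hy₂⟩ := hTCQ r hC.s2.smc
  obtain ⟨z₂, d₂, hd₂, hz₂⟩ := TCZ.exists_mon (κ := κ) hKNZ hC.s2.kr y₂
  have hr2 : ∀ s, ∀ m < 0, (TCZ.cmp ι₂ (Sum.inl ()) s).coeff m = 0 := fun s m hm =>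
    hI.r2 s () m hm
  have hal : ∀ a, TCZ.ev0 r (TCZ.cmp ι₂ (Sum.inl ())) hr2 (algebraMap A R₂ a) = r a := by
    intro a
    change r ((((ι₂ (algebraMap A R₂ a)) : KK (Unit ⊕ Unit) A) (Sum.inl ())).coeff 0) = r a
    rw [AlgHom.commutes]
    change r ((algebraMap A (LaurentSeries A) a).coeff 0) = r a
    rw [coeff_algebraMap, if_pos rfl]
  obtain ⟨D₂, μ₂, hμ₂⟩ := hy₂ (hE.toFinset.card + 1)
    (Fin.cons (TCZ.ev0 r (TCZ.cmp ι₂ (Sum.inl ())) hr2) (fun l =>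
      (((hE.toFinset.equivFin.symm l).1 : bc (r : A →+* κ) P →ₐ[κ] κ) :
        bc (r : A →+* κ) P →+* κ).comp ((bcMap (r : A →+* κ) P).comp (ι₂ : R₂ →+* P)))) (by
    intro l a
    refine Fin.cases ?_ (fun l => ?_) l
    · rw [Fin.cons_zero]
      exact hal a
    · rw [Fin.cons_succ]
      change (hE.toFinset.equivFin.symm l).1 (bcMap (r : A →+* κ) P (ι₂ (algebraMap A R₂ a))) = _
      rw [AlgHom.commutes]
      have h3 : bcMap (r : A →+* κ) P (algebraMap A P a) =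
          algebraMap κ (bc (r : A →+* κ) P) (r a) :=
        Subtype.ext (kmap_algebraMap (r : A →+* κ) a)
      rw [h3, AlgHom.commutes]
      rfl) z₂
  have hg₂ := hz₂ μ₂
  generalize (z₂ + ∑ k, algebraMap κ A (μ₂ k) • y₂ k) = g₂ at hμ₂ hg₂
  have hv2 : r (((ι₂ (D₂ g₂) : KK (Unit ⊕ Unit) A) (Sum.inl ())).coeff 0) ≠ 0 := by
    have h3 := hμ₂ 0
    rw [Fin.cons_zero] at h3
    exact h3
  have hu2 : IsUnit (ι₂ (D₂ g₂) : KK (Unit ⊕ Unit) A) := by
    refine (hTZU r hn).2.1 _ ?_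
    rintro (i | i)
    · intro h0
      rw [kmap_apply] at h0
      apply hv2
      have h3 := congrArg (fun s : LaurentSeries κ => s.coeff 0) h0
      exact h3
    · rw [kmap_apply, hI.e2]
      exact TCZ.ne_zero hTZU r hn _ hal (D₂ g₂) hv2
  have hE2 : ∀ e : bc (r : A →+* κ) P →ₐ[κ] κ, e (bcMap (r : A →+* κ) P (ι₁ (D₁ g₁))) = 0 →
      e (bcMap (r : A →+* κ) P (ι₂ (D₂ g₂))) ≠ 0 := by
    intro e he
    have h3 := hμ₂ (hE.toFinset.equivFin ⟨e, hE.mem_toFinset.2 he⟩).succ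
    rw [Fin.cons_succ, Equiv.symm_apply_apply] at h3
    exact h3
  obtain ⟨u, v, huv⟩ := hcov _ hE2
  obtain ⟨u', rfl⟩ := TCZ.lift hKBC r P u
  obtain ⟨v', rfl⟩ := TCZ.lift hKBC r P v
  have h4 : IsUnit (u' * ι₁ (D₁ g₁) + v' * ι₂ (D₂ g₂)) := by
    refine (hTZU r hn).2.2.2 P _ ?_
    rw [← map_mul, ← map_mul, ← map_add] at huv
    exact congrArg Subtype.val huv
  refine ⟨R₂, P, ι₁, ι₂, D₁, g₁, D₂, g₂, ⟨hC, hI, fun n hn0 => ?_, ⟨d₁, hd₁, hg₁⟩,
    ⟨d₂, hd₂, hg₂⟩, hu1, hu2, (hTZU r hn).1 _ hv1, (hTZU r hn).1 _ hv2, ?_,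
    hTZF r hn hh hC⟩, fun b => ?_⟩
  · rw [← map_natCast (algebraMap κ A) n]
    exact (IsUnit.mk0 (n : κ) (Nat.cast_ne_zero.2 hn0)).map (algebraMap κ A)
  · obtain ⟨w, hw⟩ := h4
    refine ⟨↑w⁻¹ * u', ↑w⁻¹ * v', ?_⟩
    rw [mul_assoc, mul_assoc, ← mul_add, ← hw, Units.inv_mul]
  · refine (hTZU r hn).1 _ ?_
    cases b
    · exact hf
    · exact ht

end Pool.Agent.MG.G0
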