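import Pool.Agent.MG.G0.StmtsTC

/-!
# Density at the first puncture (PAPER_TG.md, TDN)
-/

namespace Pool.Agent.MG.G0

namespace TDN

section field

variable {κ : Type} [Field κ]

/-- `f` has exact order `a`. -/
def XO (f : LaurentSeries κ) (a : ℤ) : Prop := (∀ m < a, f.coeff m = 0) ∧ f.coeff a ≠ 0

theorem XO.mul {f g : LaurentSeries κ} {a b : ℤ} (hf : XO f a) (hg : XO g b) :
    XO (f * g) (a + b) :=
  ⟨fun m hm => mul_low hf.1 hg.1 m hm, by
    rw [mul_lead hf.1 hg.1]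
    exact mul_ne_zero hf.2 hg.2⟩

theorem XO.one : XO (1 : LaurentSeries κ) 0 :=
  ⟨fun m hm => by rw [HahnSeries.coeff_one, if_neg (by omega)], by
    rw [HahnSeries.coeff_one, if_pos rfl]
    exact one_ne_zero⟩

theorem XO.pow {f : LaurentSeries κ} {a : ℤ} (hf : XO f a) (n : ℕ) : XO (f ^ n) (n * a) := by
  induction n with
  | zero =>
    rw [pow_zero, Nat.cast_zero, zero_mul]
    exact XO.one
  | succ n ih =>
    have h := ih.mul hf
    rw [← pow_succ] at h
    have e : (n : ℤ) * a + a = ((n + 1 : ℕ) : ℤ) * a := by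
      push_cast
      ring
    rw [e] at h
    exact h

theorem XO.ne {f : LaurentSeries κ} {a : ℤ} (hf : XO f a) : f ≠ 0 := fun h0 => by
  apply hf.2
  rw [h0, HahnSeries.coeff_zero]

/-- The exact order of a series without constant term. -/
theorem exists_XO {f : LaurentSeries κ} (hf : ∀ m < 1, f.coeff m = 0) (h0 : f ≠ 0) :
    ∃ k : ℕ, XO f ((k : ℤ) + 1) := by
  have h1 : f.coeff f.order ≠ 0 := fun h => h0 (HahnSeries.coeff_order_eq_zero.1 h)
  have h2 : 1 ≤ f.order := by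
    by_contra hc
    exact h1 (hf _ (by omega))
  refine ⟨(f.order - 1).toNat, fun m hm => HahnSeries.coeff_eq_zero_of_lt_order (by omega), ?_⟩
  have e : (((f.order - 1).toNat : ℕ) : ℤ) + 1 = f.order := by omega
  rw [e]
  exact h1

theorem reix_swap {P : Subalgebra κ (KK (Unit ⊕ Unit) κ)} {w : KK (Unit ⊕ Unit) κ} :
    w ∈ reix (Equiv.sumComm Unit Unit) P ↔
      (fun i => w ((Equiv.sumComm Unit Unit).symm i)) ∈ P := Iff.rfl

/-- Density over a field. -/
theorem field_dn (hMCB : Stmt_MCB) (hREM : Stmt_REM) (hKAU : Stmt_KAU) (hKNZ : Stmt_KNZ)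
    (hKBC : Stmt_KBC) {h : ℕ} {P : Subalgebra κ (KK (Unit ⊕ Unit) κ)} (hP : IsKr h P)
    (hD : Dn P) (f : LaurentSeries κ) (M : ℤ) :
    ∃ w ∈ P, ∀ m < M, (w (Sum.inl ())).coeff m = f.coeff m := by
  have hinj : ∀ w ∈ P, w (Sum.inl ()) = 0 → w = 0 := by
    intro w hw h0
    have h1 := (hMCB.1 hP hD).2 (RingHom.id κ)
    rw [hKBC.2.2.1 P] at h1
    exact h1.2.2 w hw fun _ => h0
  obtain ⟨W, hWd⟩ : ∃ W, W = reix (Equiv.sumComm Unit Unit) P := ⟨_, rfl⟩
  have hW : IsKr h W := by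
    rw [hWd]
    exact hKAU.2 P (Equiv.sumComm Unit Unit) hP
  have hWinj : ∀ w ∈ W, w (Sum.inr ()) = 0 → w = 0 := by
    intro w hw h0
    rw [hWd, reix_swap] at hw
    have h2 := hinj _ hw h0
    funext i
    have h3 := congrFun h2 (Equiv.sumComm Unit Unit i)
    rw [Equiv.symm_apply_apply] at h3
    exact h3
  have hDns : Dns W := hREM.2.1 hW hWinj
  have hR : IsKr h (Rem W) := (hREM.1 hW hDns).1
  obtain ⟨⟨N, hN⟩, hz⟩ := hKNZ hR
  obtain ⟨z, ⟨w, hw, hreg, hinl⟩, hzM⟩ := (hz N hN).2.2 (N + 1) (by omega)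
  -- an element with a zero at `inr`
  obtain ⟨w', hw'd⟩ : ∃ w', w' = w - algebraMap κ (KK (Unit ⊕ Unit) κ)
    ((w (Sum.inr ())).coeff 0) := ⟨_, rfl⟩
  have hw' : w' ∈ W := by
    rw [hw'd]
    exact sub_mem hw (W.algebraMap_mem _)
  have hlow : ∀ m < 1, (w' (Sum.inr ())).coeff m = 0 := by
    intro m hm
    rw [hw'd, Pi.sub_apply, HahnSeries.coeff_sub, Pi.algebraMap_apply, coeff_algebraMap]
    by_cases h0 : m = 0
    · rw [if_pos h0, h0, sub_self]
    · rw [if_neg h0, sub_zero]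
      exact hreg () m (by omega)
  have hne : w' (Sum.inr ()) ≠ 0 := by
    intro h0
    have h1 := hWinj w' hw' h0
    have h2 : (w' (Sum.inl ())).coeff (-((N : ℤ) + 1)) = 1 := by
      rw [hw'd, Pi.sub_apply, HahnSeries.coeff_sub, Pi.algebraMap_apply, coeff_algebraMap,
        if_neg (by omega), sub_zero, hinl ()]
      exact hzM.2 ()
    rw [h1, Pi.zero_apply, HahnSeries.coeff_zero] at h2
    exact zero_ne_one h2
  obtain ⟨k, hk⟩ := exists_XO hlow hne
  -- an element with a simple pole at `inr`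
  obtain ⟨v, hv, hv1⟩ := hDns (HahnSeries.single (-1) 1)
  have hvX : XO (v (Sum.inr ())) (-1) := by
    refine ⟨fun m hm => ?_, ?_⟩
    · rw [hv1 m (by omega), HahnSeries.coeff_single_of_ne (by omega)]
    · rw [hv1 (-1) (by omega), HahnSeries.coeff_single_same]
      exact one_ne_zero
  -- an element with a zero of order `K`
  obtain ⟨K, hK⟩ : ∃ K : ℕ, M ≤ (K : ℤ) := ⟨M.toNat, by omega⟩
  obtain ⟨s, hsd⟩ : ∃ s, s = w' ^ K * v ^ (k * K) := ⟨_, rfl⟩
  have hs : s ∈ W := by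
    rw [hsd]
    exact mul_mem (pow_mem hw' K) (pow_mem hv _)
  have hsX : XO (s (Sum.inr ())) (K : ℤ) := by
    have h1 := (hk.pow K).mul (hvX.pow (k * K))
    have e : (K : ℤ) * ((k : ℤ) + 1) + ((k * K : ℕ) : ℤ) * (-1) = K := by
      push_cast
      ring
    rw [e] at h1
    rw [hsd]
    exact h1
  obtain ⟨u, hu, hu1⟩ := hDns ((s (Sum.inr ()))⁻¹ * f)
  have hsu : s * u ∈ W := mul_mem hs hu
  rw [hWd, reix_swap] at hsu
  refine ⟨_, hsu, fun m hm => ?_⟩
  change ((s * u) (Sum.inr ())).coeff m = f.coeff m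
  have e : (s * u) (Sum.inr ()) = f + s (Sum.inr ()) * (u (Sum.inr ()) -
      (s (Sum.inr ()))⁻¹ * f) := by
    rw [Pi.mul_apply, mul_sub, ← mul_assoc, mul_inv_cancel₀ hsX.ne, one_mul]
    ring
  have h3 : (s (Sum.inr ()) * (u (Sum.inr ()) - (s (Sum.inr ()))⁻¹ * f)).coeff m = 0 := by
    refine mul_low (a := K) (b := 0) hsX.1 (fun l hl => ?_) m (by omega)
    rw [HahnSeries.coeff_sub, hu1 l hl, sub_self]
  rw [e, HahnSeries.coeff_add, h3, add_zero]

end field

section nil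

variable {A κ : Type} [CommRing A] [Field κ] [Algebra κ A]

/-- The elements of the base change are images of elements of `P`. -/
theorem lift_bc (hKBC : Stmt_KBC) {I : Type} (r : A →ₐ[κ] κ) {P : Subalgebra A (KK I A)}
    {x : KK I κ} (hx : x ∈ bc (r : A →+* κ) P) : ∃ p ∈ P, kmap (r : A →+* κ) p = x := by
  have h1 : x ∈ Subalgebra.toSubmodule (bc (r : A →+* κ) P) := hx
  rw [hKBC.1] at h1
  clear hx
  induction h1 using Submodule.span_induction with
  | mem x hx => exact hx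
  | zero => exact ⟨0, zero_mem P, map_zero _⟩
  | add x y _ _ hx hy =>
    obtain ⟨p, hp, rfl⟩ := hx
    obtain ⟨q, hq, rfl⟩ := hy
    exact ⟨p + q, add_mem hp hq, map_add _ _ _⟩
  | smul c x _ hx =>
    obtain ⟨p, hp, rfl⟩ := hx
    refine ⟨algebraMap κ A c • p, P.smul_mem hp _, ?_⟩
    rw [kmap_smul]
    congr 1
    exact r.commutes c

theorem coeff_comb {I : Type} (i : I) (s : Finset ℤ) (c : ℤ → A) (w : ℤ → KK I A) (l : ℤ) :
    ((∑ m ∈ s, c m • w m) i).coeff l = ∑ m ∈ s, c m * ((w m) i).coeff l := by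
  rw [Finset.sum_apply, HahnSeries.coeff_sum]
  refine Finset.sum_congr rfl fun m _ => ?_
  rw [Pi.smul_apply, HahnSeries.coeff_smul, smul_eq_mul]

/-- Density modulo powers of an ideal. -/
theorem pow_dn {I : Type} (i : I) (J : Ideal A) {P : Subalgebra A (KK I A)}
    (h1 : ∀ (f : LaurentSeries A) (M : ℤ), ∃ w ∈ P, ∀ m < M,
      (w i).coeff m - f.coeff m ∈ J) (k : ℕ) (f : LaurentSeries A) (M : ℤ) :
    ∃ w ∈ P, ∀ m < M, (w i).coeff m - f.coeff m ∈ J ^ k := by
  induction k with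
  | zero => exact ⟨0, zero_mem P, fun m _ => by rw [pow_zero, Ideal.one_eq_top]; trivial⟩
  | succ k ih =>
    obtain ⟨w, hw, hw1⟩ := ih
    choose u hu hu1 using fun m : ℤ => h1 (HahnSeries.single m 1) M
    obtain ⟨a, ha⟩ := exists_low (w i - f)
    refine ⟨w - ∑ m ∈ Finset.Ico (-(a : ℤ)) M, ((w i).coeff m - f.coeff m) • u m,
      sub_mem hw (sum_mem fun m _ => P.smul_mem (hu m) _), fun l hl => ?_⟩
    rw [Pi.sub_apply, HahnSeries.coeff_sub, coeff_comb]
    have e : (w i).coeff l - f.coeff l = ∑ m ∈ Finset.Ico (-(a : ℤ)) M,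
        ((w i).coeff m - f.coeff m) * (HahnSeries.single m (1 : A)).coeff l := by
      by_cases hla : -(a : ℤ) ≤ l
      · rw [Finset.sum_eq_single l]
        · rw [HahnSeries.coeff_single_same, mul_one]
        · intro m _ hm
          rw [HahnSeries.coeff_single_of_ne (Ne.symm hm), mul_zero]
        · intro h
          exact absurd (Finset.mem_Ico.2 ⟨hla, hl⟩) h
      · rw [Finset.sum_eq_zero]
        · rw [← HahnSeries.coeff_sub]
          exact ha l (by omega)
        · intro m hm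
          rw [Finset.mem_Ico] at hm
          rw [HahnSeries.coeff_single_of_ne (by omega), mul_zero]
    have e2 : (w i).coeff l - ∑ m ∈ Finset.Ico (-(a : ℤ)) M,
        ((w i).coeff m - f.coeff m) * ((u m) i).coeff l - f.coeff l =
        - ∑ m ∈ Finset.Ico (-(a : ℤ)) M, ((w i).coeff m - f.coeff m) *
          (((u m) i).coeff l - (HahnSeries.single m (1 : A)).coeff l) := by
      simp only [mul_sub, Finset.sum_sub_distrib]
      rw [← e]
      ring
    rw [e2]
    refine neg_mem (sum_mem fun m hm => ?_)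
    rw [Finset.mem_Ico] at hm
    rw [pow_succ]
    exact Ideal.mul_mem_mul (hw1 m hm.2) (hu1 m l hl)

end nil

end TDN

theorem t_TDN (hMCB : Stmt_MCB) (hREM : Stmt_REM) (hKAU : Stmt_KAU) (hKNZ : Stmt_KNZ)
    (hKBC : Stmt_KBC) : Stmt_TDN := by
  intro A κ _ _ _ r hn h P hP hD
  obtain ⟨n, hn⟩ := hn
  have hP' : IsKr h (bc (r : A →+* κ) P) := (hKBC.2.2.2 hP (r : A →+* κ)).1
  have hD' : Dn (bc (r : A →+* κ) P) := ((hMCB.1 hP hD).2 (r : A →+* κ)).1
  have h1 : ∀ (f : LaurentSeries A) (M : ℤ), ∃ w ∈ P, ∀ m < M,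
      (w (Sum.inl ())).coeff m - f.coeff m ∈ RingHom.ker r := by
    intro f M
    obtain ⟨x, hx, hx1⟩ := TDN.field_dn hMCB hREM hKAU hKNZ hKBC hP' hD'
      (lmap (r : A →+* κ) f) M
    obtain ⟨p, hp, rfl⟩ := TDN.lift_bc hKBC r hx
    refine ⟨p, hp, fun m hm => ?_⟩
    have h2 := hx1 m hm
    rw [kmap_apply, lmap_coeff, lmap_coeff] at h2
    rw [RingHom.mem_ker, map_sub, sub_eq_zero]
    exact h2
  intro f M
  obtain ⟨w, hw, hw1⟩ := TDN.pow_dn (Sum.inl ()) (RingHom.ker r) h1 n (f ()) M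
  refine ⟨fun i => w (Equiv.sumComm Unit Unit i), ?_, fun j m hm => ?_⟩
  · change (fun i => w (Equiv.sumComm Unit Unit ((Equiv.sumComm Unit Unit).symm i))) ∈ P
    simpa only [Equiv.apply_symm_apply] using hw
  · have h2 := hw1 m hm
    rw [hn] at h2
    have h3 : (w (Sum.inl ())).coeff m - (f ()).coeff m = 0 := h2
    exact sub_eq_zero.1 h3

end Pool.Agent.MG.G0
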