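import Pool.Agent.MG.G0.StmtsTC

/-!
# TEP: functions without poles at a puncture
-/

namespace Pool.Agent.MG.G0

namespace TEP

section

variable {I A : Type} [CommRing A]

/-- The condition on the lift. -/
def Lift (W : Subalgebra A (KK (I ⊕ Unit) A)) (f : KK I A) (w : KK (I ⊕ Unit) A) : Prop :=
  w ∈ W ∧ (∀ m < 0, (w (Sum.inr ())).coeff m = 0) ∧ ∀ i, w (Sum.inl i) = f i

theorem Lift.uniq {W : Subalgebra A (KK (I ⊕ Unit) A)}
    (hinj : ∀ w ∈ W, (∀ i, w (Sum.inl i) = 0) → w = 0) {f : KK I A} {w w' : KK (I ⊕ Unit) A}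
    (h : Lift W f w) (h' : Lift W f w') : w = w' := by
  have h1 := hinj (w - w') (sub_mem h.1 h'.1) fun i => by
    rw [Pi.sub_apply, h.2.2, h'.2.2, sub_self]
  exact sub_eq_zero.1 h1

theorem Lift.mul {W : Subalgebra A (KK (I ⊕ Unit) A)} {f g : KK I A} {w v : KK (I ⊕ Unit) A}
    (h : Lift W f w) (h' : Lift W g v) : Lift W (f * g) (w * v) :=
  ⟨mul_mem h.1 h'.1, fun m hm => by
    rw [Pi.mul_apply]
    exact mul_low h.2.1 h'.2.1 m (by omega), fun i => by
    rw [Pi.mul_apply, h.2.2, h'.2.2, Pi.mul_apply]⟩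

theorem Lift.add {W : Subalgebra A (KK (I ⊕ Unit) A)} {f g : KK I A} {w v : KK (I ⊕ Unit) A}
    (h : Lift W f w) (h' : Lift W g v) : Lift W (f + g) (w + v) :=
  ⟨add_mem h.1 h'.1, fun m hm => by
    rw [Pi.add_apply, HahnSeries.coeff_add, h.2.1 m hm, h'.2.1 m hm, add_zero], fun i => by
    rw [Pi.add_apply, h.2.2, h'.2.2, Pi.add_apply]⟩

theorem Lift.alg (W : Subalgebra A (KK (I ⊕ Unit) A)) (a : A) :
    Lift W (algebraMap A (KK I A) a) (algebraMap A (KK (I ⊕ Unit) A) a) :=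
  ⟨W.algebraMap_mem a, fun m hm => by
    rw [Pi.algebraMap_apply, coeff_algebraMap, if_neg (by omega)], fun _ => rfl⟩

theorem exists_lift {W : Subalgebra A (KK (I ⊕ Unit) A)} (f : Rem W) :
    ∃ w, Lift W (f : KK I A) w := by
  obtain ⟨w, hw, h1, h2⟩ := f.2
  exact ⟨w, hw, h1 (), h2⟩

/-- The lift. -/
noncomputable def iot (W : Subalgebra A (KK (I ⊕ Unit) A))
    (hinj : ∀ w ∈ W, (∀ i, w (Sum.inl i) = 0) → w = 0) : Rem W →ₐ[A] W where
  toFun f := ⟨(exists_lift f).choose, (exists_lift f).choose_spec.1⟩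
  map_one' := by
    apply Subtype.ext
    have h1 := Lift.alg W (1 : A)
    rw [map_one, map_one] at h1
    exact Lift.uniq hinj (exists_lift (1 : Rem W)).choose_spec h1
  map_zero' := by
    apply Subtype.ext
    have h1 := Lift.alg W (0 : A)
    rw [map_zero, map_zero] at h1
    exact Lift.uniq hinj (exists_lift (0 : Rem W)).choose_spec h1
  map_mul' f g := Subtype.ext (Lift.uniq hinj (exists_lift (f * g)).choose_spec
    ((exists_lift f).choose_spec.mul (exists_lift g).choose_spec))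
  map_add' f g := Subtype.ext (Lift.uniq hinj (exists_lift (f + g)).choose_spec
    ((exists_lift f).choose_spec.add (exists_lift g).choose_spec))
  commutes' a := Subtype.ext (Lift.uniq hinj
    (exists_lift (algebraMap A (Rem W) a)).choose_spec (Lift.alg W a))

theorem iot_spec (W : Subalgebra A (KK (I ⊕ Unit) A))
    (hinj : ∀ w ∈ W, (∀ i, w (Sum.inl i) = 0) → w = 0) (f : Rem W) :
    Lift W (f : KK I A) (iot W hinj f : KK (I ⊕ Unit) A) := (exists_lift f).choose_spec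

theorem approx {a b : LaurentSeries A} {M : ℕ}
    (ha : ∀ m < 2 * (M : ℤ), a.coeff m = (HahnSeries.single (M : ℤ) (1 : A)).coeff m)
    (hb : ∀ m < (0 : ℤ), b.coeff m = (HahnSeries.single (-(M : ℤ)) (1 : A)).coeff m) (m : ℤ)
    (hm : m < (M : ℤ)) : (1 - b * a).coeff m = 0 := by
  obtain ⟨c, hc⟩ : ∃ c, c = a - HahnSeries.single (M : ℤ) (1 : A) := ⟨_, rfl⟩
  obtain ⟨d, hd⟩ : ∃ d, d = b - HahnSeries.single (-(M : ℤ)) (1 : A) := ⟨_, rfl⟩
  have h1 : HahnSeries.single (M : ℤ) (1 : A) * HahnSeries.single (-(M : ℤ)) (1 : A) = 1 := by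
    rw [HahnSeries.single_mul_single, add_neg_cancel, mul_one]
    rfl
  have h2 : 1 - b * a = -(HahnSeries.single (M : ℤ) (1 : A) * d +
      c * HahnSeries.single (-(M : ℤ)) (1 : A) + c * d) := by
    have ea : a = HahnSeries.single (M : ℤ) (1 : A) + c := by rw [hc]; ring
    have eb : b = HahnSeries.single (-(M : ℤ)) (1 : A) + d := by rw [hd]; ring
    rw [ea, eb]
    linear_combination (-1 : LaurentSeries A) * h1
  have hc' : ∀ n < 2 * (M : ℤ), c.coeff n = 0 := fun n hn => by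
    rw [hc, HahnSeries.coeff_sub, ha n hn, sub_self]
  have hd' : ∀ n < (0 : ℤ), d.coeff n = 0 := fun n hn => by
    rw [hd, HahnSeries.coeff_sub, hb n hn, sub_self]
  have hs : ∀ k : ℤ, ∀ n < k, (HahnSeries.single k (1 : A)).coeff n = 0 := fun k n hn => by
    rw [HahnSeries.coeff_single, if_neg (by omega)]
  rw [h2, HahnSeries.coeff_neg, HahnSeries.coeff_add, HahnSeries.coeff_add,
    mul_low (hs _) hd' m (by omega), mul_low hc' (hs _) m (by omega),
    mul_low hc' hd' m (by omega), add_zero, add_zero, neg_zero]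

end

end TEP

open TEP in
theorem t_TEP (hMCB : Stmt_MCB) (hKBC : Stmt_KBC) : Stmt_TEP := by
  intro I A _ _ _ h W R hW hD hR
  subst hR
  have hinj : ∀ w ∈ W, (∀ i, w (Sum.inl i) = 0) → w = 0 := by
    have h1 := ((hMCB.1 hW hD).2 (RingHom.id A)).2.2
    rw [hKBC.2.2.1 W] at h1
    exact h1
  have key : ∀ w : W, (∀ m < 0, ((w : KK (I ⊕ Unit) A) (Sum.inr ())).coeff m = 0) →
      ∃ f, iot W hinj f = w := by
    intro w hw
    refine ⟨⟨fun i => (w : KK (I ⊕ Unit) A) (Sum.inl i), w, w.2, fun _ => hw, fun _ => rfl⟩, ?_⟩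
    exact Subtype.ext (Lift.uniq hinj (iot_spec W hinj _) ⟨w.2, hw, fun _ => rfl⟩)
  refine ⟨iot W hinj, ?_, fun f i => (iot_spec W hinj f).2.2 i,
    fun f m hm => (iot_spec W hinj f).2.1 m hm, key, ?_⟩
  · intro f g hfg
    apply Subtype.ext
    funext i
    rw [← (iot_spec W hinj f).2.2 i, ← (iot_spec W hinj g).2.2 i, hfg]
  · intro M
    obtain ⟨y, hy, hyc⟩ := hD (fun _ => HahnSeries.single (-(M : ℤ)) (1 : A)) 0
    obtain ⟨s, hs, hsc⟩ := hD (fun _ => HahnSeries.single (M : ℤ) (1 : A)) (2 * (M : ℤ))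
    have h1 := approx (hsc ()) (hyc ())
    have h2 : ∀ m < (M : ℤ), (s (Sum.inr ())).coeff m = 0 := by
      intro m hm
      rw [hsc () m (by omega), HahnSeries.coeff_single, if_neg (by omega)]
    have h3 : ∀ m < (M : ℤ), ((1 - y * s : KK (I ⊕ Unit) A) (Sum.inr ())).coeff m = 0 := by
      intro m hm
      exact h1 m hm
    obtain ⟨f, hf⟩ := key ⟨s, hs⟩ fun m hm => h2 m (by omega)
    obtain ⟨g, hg⟩ := key ⟨1 - y * s, sub_mem (one_mem W) (mul_mem hy hs)⟩
      fun m hm => h3 m (by omega)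
    refine ⟨2, ![f, g], ![⟨y, hy⟩, 1], ?_, ?_⟩
    · rw [Fin.sum_univ_two]
      change ⟨y, hy⟩ * iot W hinj f + 1 * iot W hinj g = 1
      rw [hf, hg]
      apply Subtype.ext
      change y * s + 1 * (1 - y * s) = 1
      ring
    · intro k m hm
      fin_cases k
      · change ((iot W hinj f : KK (I ⊕ Unit) A) (Sum.inr ())).coeff m = 0
        rw [hf]
        exact h2 m hm
      · change ((iot W hinj g : KK (I ⊕ Unit) A) (Sum.inr ())).coeff m = 0
        rw [hg]
        exact h3 m hm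

end Pool.Agent.MG.G0
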