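import Pool.Agent.MG.G0.StmtsTG

/-!
# TFP: formal points in a chart
-/

open TensorProduct

namespace Pool.Agent.MG.G0

namespace TFP

variable {B S A : Type} [CommRing B] [CommRing S] [CommRing A] [Algebra B S] [Algebra B A]
  {x : S} {Δ : Derivation B S S}

/-- A derivation over `p` is determined by its value at the coordinate. -/
theorem con (hc : IsChart B S x Δ) (p : S →ₐ[B] A) (E : S →ₗ[B] A)
    (hE : ∀ f g, E (f * g) = p f * E g + p g * E f) (f : S) : E f = p (Δ f) * E x := by
  let _ : Algebra S A := p.toRingHom.toAlgebra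
  have _ : IsScalarTower B S A := IsScalarTower.of_algebraMap_eq fun b => (p.commutes b).symm
  let D : Derivation B S A := Derivation.mk' E fun a b => hE a b
  have h1 : ∀ f : S, D f = D.liftKaehlerDifferential (KaehlerDifferential.D B S f) := fun f =>
    (D.liftKaehlerDifferential_comp_D f).symm
  have h2 : D f = Δ f • D x := by
    rw [h1 f, h1 x, hc.gen f, map_smul]
  exact h2

/-- The coefficient of `u^n` as a linear map. -/
noncomputable def cf (h : S →ₐ[B] PowerSeries A) (n : ℕ) : S →ₗ[B] A where
  toFun f := PowerSeries.coeff n (h f)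
  map_add' f g := by rw [map_add, map_add]
  map_smul' b f := by
    rw [Algebra.smul_def, map_mul, AlgHom.commutes, PowerSeries.algebraMap_apply,
      PowerSeries.coeff_C_mul, RingHom.id_apply, Algebra.smul_def]

theorem cf_apply (h : S →ₐ[B] PowerSeries A) (n : ℕ) (f : S) :
    cf h n f = PowerSeries.coeff n (h f) := rfl

/-- The constant part. -/
noncomputable def cp (h : S →ₐ[B] PowerSeries A) : S →ₐ[B] A where
  toFun f := PowerSeries.constantCoeff (h f)
  map_one' := by rw [map_one, map_one]
  map_mul' f g := by rw [map_mul, map_mul]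
  map_zero' := by rw [map_zero, map_zero]
  map_add' f g := by rw [map_add, map_add]
  commutes' b := by
    rw [AlgHom.commutes, PowerSeries.algebraMap_apply, PowerSeries.constantCoeff_C]

theorem coeff_mul_low {u v : PowerSeries A} {n : ℕ} (hu : ∀ m < n, PowerSeries.coeff m u = 0) :
    PowerSeries.coeff n (u * v) = PowerSeries.coeff n u * PowerSeries.constantCoeff v := by
  rw [PowerSeries.coeff_mul, Finset.sum_eq_single (n, 0)]
  · rw [PowerSeries.coeff_zero_eq_constantCoeff_apply]
  · rintro ⟨i, j⟩ hij hne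
    have h1 : i + j = n := Finset.HasAntidiagonal.mem_antidiagonal.1 hij
    have h2 : i < n := by
      rcases Nat.lt_or_ge i n with h | h
      · exact h
      · exfalso
        apply hne
        rw [Prod.mk.injEq]
        omega
    change PowerSeries.coeff i u * _ = 0
    rw [hu i h2, zero_mul]
  · intro h
    exact absurd (Finset.HasAntidiagonal.mem_antidiagonal.2 (add_zero n)) h

/-- Uniqueness. -/
theorem uniq (hc : IsChart B S x Δ) (h h' : S →ₐ[B] PowerSeries A)
    (h0 : ∀ f, PowerSeries.constantCoeff (h f) = PowerSeries.constantCoeff (h' f))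
    (hx : h x = h' x) : h = h' := by
  have key : ∀ n : ℕ, ∀ f : S, PowerSeries.coeff n (h f) = PowerSeries.coeff n (h' f) := by
    intro n
    induction n using Nat.strong_induction_on with
    | _ n ih =>
      intro f
      have hlow : ∀ f : S, ∀ m < n, PowerSeries.coeff m (h f - h' f) = 0 := by
        intro f m hm
        rw [map_sub, ih m hm f, sub_self]
      have e := con hc (cp h') (cf h n - cf h' n) (by
        intro f g
        rw [LinearMap.sub_apply, LinearMap.sub_apply, LinearMap.sub_apply, cf_apply, cf_apply,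
          cf_apply, cf_apply, cf_apply, cf_apply, ← map_sub, ← map_sub, ← map_sub, map_mul,
          map_mul]
        have e1 : h f * h g - h' f * h' g = (h f - h' f) * h g + (h g - h' g) * h' f := by ring
        rw [e1, map_add, coeff_mul_low (hlow f), coeff_mul_low (hlow g), h0 g]
        change _ = PowerSeries.constantCoeff (h' f) * _ + PowerSeries.constantCoeff (h' g) * _
        ring) f
      rw [LinearMap.sub_apply, LinearMap.sub_apply, cf_apply, cf_apply, cf_apply, cf_apply, hx,
        sub_self, mul_zero] at e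
      exact sub_eq_zero.1 e
  apply AlgHom.ext
  intro f
  apply PowerSeries.ext
  intro n
  exact key n f

/-- The linear coefficient. -/
theorem lin (hc : IsChart B S x Δ) (h : S →ₐ[B] PowerSeries A) (f : S) :
    PowerSeries.coeff 1 (h f) =
      PowerSeries.constantCoeff (h (Δ f)) * PowerSeries.coeff 1 (h x) := by
  refine con hc (cp h) (cf h 1) ?_ f
  intro f g
  rw [cf_apply, map_mul, PowerSeries.coeff_one_mul]
  change _ = PowerSeries.constantCoeff (h f) * PowerSeries.coeff 1 (h g) +
    PowerSeries.constantCoeff (h g) * PowerSeries.coeff 1 (h f)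
  ring

/-- The Taylor series. -/
noncomputable def tay (Δ : Derivation B S S) (p : S →ₐ[B] A) (f : S) : PowerSeries A :=
  PowerSeries.mk fun k => Ring.inverse ((k.factorial : ℕ) : A) * p ((⇑Δ)^[k] f)

theorem coeff_tay (Δ : Derivation B S S) (p : S →ₐ[B] A) (f : S) (k : ℕ) :
    PowerSeries.coeff k (tay Δ p f) =
      Ring.inverse ((k.factorial : ℕ) : A) * p ((⇑Δ)^[k] f) :=
  PowerSeries.coeff_mk _ _

theorem isu (hn : ∀ n : ℕ, n ≠ 0 → IsUnit (n : B)) (n : ℕ) (h : n ≠ 0) : IsUnit (n : A) := by
  have h1 := (hn n h).map (algebraMap B A)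
  rwa [map_natCast] at h1

theorem iter_add (Δ : Derivation B S S) (k : ℕ) (f g : S) :
    (⇑Δ)^[k] (f + g) = (⇑Δ)^[k] f + (⇑Δ)^[k] g := by
  induction k generalizing f g with
  | zero => rfl
  | succ k ih => rw [Function.iterate_succ_apply, Function.iterate_succ_apply,
      Function.iterate_succ_apply, map_add, ih]

theorem iter_zero (Δ : Derivation B S S) (k : ℕ) : (⇑Δ)^[k] (0 : S) = 0 := by
  induction k with
  | zero => rfl
  | succ k ih => rw [Function.iterate_succ_apply, map_zero, ih]

theorem tay_add (Δ : Derivation B S S) (p : S →ₐ[B] A) (f g : S) :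
    tay Δ p (f + g) = tay Δ p f + tay Δ p g := by
  apply PowerSeries.ext
  intro k
  rw [map_add, coeff_tay, coeff_tay, coeff_tay, iter_add, map_add, mul_add]

theorem tay_der (hn : ∀ n : ℕ, n ≠ 0 → IsUnit (n : B)) (Δ : Derivation B S S) (p : S →ₐ[B] A)
    (f : S) : PowerSeries.derivative A (tay Δ p f) = tay Δ p (Δ f) := by
  apply PowerSeries.ext
  intro k
  rw [PowerSeries.coeff_derivative, coeff_tay, coeff_tay, Function.iterate_succ_apply]
  have u1 : IsUnit ((k.factorial : ℕ) : A) := isu hn _ (Nat.factorial_ne_zero k)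
  have u2 : IsUnit (((k + 1).factorial : ℕ) : A) := isu hn _ (Nat.factorial_ne_zero (k + 1))
  have e : Ring.inverse (((k + 1).factorial : ℕ) : A) * ((k : A) + 1) =
      Ring.inverse ((k.factorial : ℕ) : A) := by
    have e1 : (((k + 1).factorial : ℕ) : A) = ((k : A) + 1) * ((k.factorial : ℕ) : A) := by
      rw [Nat.factorial_succ, Nat.cast_mul, Nat.cast_succ]
    apply u1.mul_right_cancel
    rw [Ring.inverse_mul_cancel _ u1, mul_assoc, ← e1, Ring.inverse_mul_cancel _ u2]
  rw [← e]
  ring

theorem tay_mul (hn : ∀ n : ℕ, n ≠ 0 → IsUnit (n : B)) (Δ : Derivation B S S) (p : S →ₐ[B] A)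
    (f g : S) : tay Δ p (f * g) = tay Δ p f * tay Δ p g := by
  have key : ∀ n : ℕ, ∀ f g : S, PowerSeries.coeff n (tay Δ p (f * g)) =
      PowerSeries.coeff n (tay Δ p f * tay Δ p g) := by
    intro n
    induction n with
    | zero =>
      intro f g
      rw [PowerSeries.coeff_zero_eq_constantCoeff_apply, PowerSeries.coeff_zero_eq_constantCoeff_apply,
        map_mul, ← PowerSeries.coeff_zero_eq_constantCoeff_apply,
        ← PowerSeries.coeff_zero_eq_constantCoeff_apply,
        ← PowerSeries.coeff_zero_eq_constantCoeff_apply, coeff_tay, coeff_tay, coeff_tay]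
      simp
    | succ n ih =>
      intro f g
      have u1 : IsUnit (((n + 1 : ℕ)) : A) := isu hn _ (Nat.succ_ne_zero n)
      apply u1.mul_right_cancel
      rw [Nat.cast_succ, ← PowerSeries.coeff_derivative, ← PowerSeries.coeff_derivative,
        tay_der hn, Derivation.leibniz, smul_eq_mul, smul_eq_mul, tay_add, map_add, ih, ih,
        Derivation.leibniz, smul_eq_mul, smul_eq_mul, map_add, tay_der hn, tay_der hn]
  apply PowerSeries.ext
  intro n
  exact key n f g

theorem tay_alg (Δ : Derivation B S S) (p : S →ₐ[B] A) (b : B) :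
    tay Δ p (algebraMap B S b) = algebraMap B (PowerSeries A) b := by
  apply PowerSeries.ext
  intro k
  rw [coeff_tay, PowerSeries.algebraMap_apply, PowerSeries.coeff_C]
  cases k with
  | zero => simp
  | succ k =>
    rw [Function.iterate_succ_apply, Derivation.map_algebraMap, iter_zero, map_zero, mul_zero,
      if_neg (Nat.succ_ne_zero k)]

/-- The Taylor series as a homomorphism. -/
noncomputable def tayH (hn : ∀ n : ℕ, n ≠ 0 → IsUnit (n : B)) (Δ : Derivation B S S)
    (p : S →ₐ[B] A) : S →ₐ[B] PowerSeries A where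
  toFun := tay Δ p
  map_one' := by
    have h := tay_alg Δ p (1 : B)
    rwa [map_one, map_one] at h
  map_mul' := tay_mul hn Δ p
  map_zero' := by
    have h := tay_alg Δ p (0 : B)
    rwa [map_zero, map_zero] at h
  map_add' := tay_add Δ p
  commutes' := tay_alg Δ p

theorem coeff_pow_low {s : PowerSeries A} (hs : PowerSeries.constantCoeff s = 0) {n k : ℕ}
    (h : n < k) : PowerSeries.coeff n (s ^ k) = 0 := by
  have h1 : (PowerSeries.X : PowerSeries A) ∣ s := PowerSeries.X_dvd_iff.2 hs
  exact PowerSeries.X_pow_dvd_iff.1 (pow_dvd_pow_of_dvd h1 k) n h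

/-- Substitution in the Taylor series. -/
noncomputable def sub (hn : ∀ n : ℕ, n ≠ 0 → IsUnit (n : B)) (Δ : Derivation B S S)
    (p : S →ₐ[B] A) {s : PowerSeries A} (hs : PowerSeries.constantCoeff s = 0) :
    S →ₐ[B] PowerSeries A :=
  ((PowerSeries.substAlgHom (R := A)
    (PowerSeries.HasSubst.of_constantCoeff_zero' hs)).restrictScalars B).comp (tayH hn Δ p)

theorem coeff_sub (hn : ∀ n : ℕ, n ≠ 0 → IsUnit (n : B)) (Δ : Derivation B S S)
    (p : S →ₐ[B] A) {s : PowerSeries A} (hs : PowerSeries.constantCoeff s = 0) (f : S) (n : ℕ) :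
    PowerSeries.coeff n (sub hn Δ p hs f) = ∑ k ∈ Finset.range (n + 1),
      Ring.inverse ((k.factorial : ℕ) : A) * p ((⇑Δ)^[k] f) * PowerSeries.coeff n (s ^ k) := by
  have h1 : sub hn Δ p hs f = PowerSeries.subst s (tay Δ p f) :=
    congrFun (PowerSeries.coe_substAlgHom (R := A)
      (PowerSeries.HasSubst.of_constantCoeff_zero' hs)) (tay Δ p f)
  rw [h1, PowerSeries.coeff_subst' (PowerSeries.HasSubst.of_constantCoeff_zero' hs),
    finsum_eq_sum_of_support_subset (s := Finset.range (n + 1))]
  · refine Finset.sum_congr rfl fun k _ => ?_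
    rw [coeff_tay, smul_eq_mul]
  · intro k hk
    rw [Finset.coe_range, Set.mem_Iio]
    by_contra hlt
    apply hk
    change _ • _ = _
    rw [coeff_pow_low hs (by omega), smul_zero]

theorem exi (hn : ∀ n : ℕ, n ≠ 0 → IsUnit (n : B)) (hc : IsChart B S x Δ) (p : S →ₐ[B] A)
    (s : PowerSeries A) (hs : PowerSeries.constantCoeff s = 0) :
    ∃ h : S →ₐ[B] PowerSeries A, (∀ f, PowerSeries.constantCoeff (h f) = p f) ∧
      h x = PowerSeries.C (p x) + s ∧
      ∀ (f : S) (n : ℕ), PowerSeries.coeff n (h f) = ∑ k ∈ Finset.range (n + 1),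
        Ring.inverse ((k.factorial : ℕ) : A) * p ((⇑Δ)^[k] f) * PowerSeries.coeff n (s ^ k) := by
  refine ⟨sub hn Δ p hs, ?_, ?_, coeff_sub hn Δ p hs⟩
  · intro f
    rw [← PowerSeries.coeff_zero_eq_constantCoeff_apply, coeff_sub]
    simp
  · apply PowerSeries.ext
    intro n
    have hz : ∀ k, 2 ≤ k → (⇑Δ)^[k] x = 0 := by
      intro k hk
      obtain ⟨m, rfl⟩ : ∃ m, k = m + 2 := ⟨k - 2, by omega⟩
      rw [Function.iterate_add_apply]
      have e : (⇑Δ)^[2] x = 0 := by
        change Δ (Δ x) = 0
        rw [hc.one, Derivation.map_one_eq_zero]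
      rw [e, iter_zero]
    rw [coeff_sub, map_add, PowerSeries.coeff_C]
    cases n with
    | zero =>
      rw [PowerSeries.coeff_zero_eq_constantCoeff_apply, hs]
      simp
    | succ n =>
      rw [Finset.sum_eq_single 1]
      · have e : (⇑Δ)^[1] x = 1 := hc.one
        rw [e, map_one, pow_one, if_neg (Nat.succ_ne_zero n)]
        simp
      · intro k _ hk
        rcases Nat.lt_or_ge k 2 with h | h
        · have hk0 : k = 0 := by omega
          subst hk0
          rw [pow_zero, PowerSeries.coeff_one, if_neg (Nat.succ_ne_zero n), mul_zero]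
        · rw [hz k h, map_zero, mul_zero, zero_mul]
      · intro h
        exfalso
        apply h
        rw [Finset.mem_range]
        omega

end TFP

/-- TFP: formal points in a chart. -/
theorem t_TFP : Stmt_TFP := by
  intro B S _ _ _ x Δ hn hc A _ _
  exact ⟨fun h h' h0 hx => TFP.uniq hc h h' h0 hx, fun p s hs => TFP.exi hn hc p s hs,
    fun h f => TFP.lin hc h f⟩

end Pool.Agent.MG.G0
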