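import Pool.Agent.MG.G0.StmtsTG

/-!
# TGB: vanishing if one of the points is in the intersection of the charts
-/

open TensorProduct

namespace Pool.Agent.MG.G0

namespace TGB

/-! ## Localisations -/

/-- A localisation of `R` at `ρ`, as a `B`-algebra. -/
structure LocA (B R : Type) [CommRing B] [CommRing R] [Algebra B R] (ρ : R) where
  /-- the ring -/
  U : Type
  [cr : CommRing U]
  [al : Algebra B U]
  /-- the map -/
  u : R →ₐ[B] U
  un : IsUnit (u ρ)
  den : ∀ z : U, ∃ (n : ℕ) (r : R), z * u ρ ^ n = u r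
  ker : ∀ r : R, u r = 0 → ∃ n : ℕ, ρ ^ n * r = 0
  lift : ∀ {U' : Type} [CommRing U'] [Algebra B U'] (u' : R →ₐ[B] U'), IsUnit (u' ρ) →
    ∃ φ : U →ₐ[B] U', φ.comp u = u'

attribute [instance] LocA.cr LocA.al

/-- The localisation exists. -/
noncomputable def locA (B : Type) {R : Type} [CommRing B] [CommRing R] [Algebra B R] (ρ : R) :
    LocA B R ρ where
  U := Localization.Away ρ
  u := IsScalarTower.toAlgHom B R (Localization.Away ρ)
  un := IsLocalization.Away.algebraMap_isUnit ρ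
  den z := by
    obtain ⟨⟨r, ⟨_, n, rfl⟩⟩, h⟩ := IsLocalization.surj (Submonoid.powers ρ) z
    refine ⟨n, r, ?_⟩
    rw [← map_pow]
    exact h
  ker r h := by
    obtain ⟨⟨_, n, rfl⟩, h⟩ := (IsLocalization.map_eq_zero_iff (Submonoid.powers ρ)
      (Localization.Away ρ) r).1 h
    exact ⟨n, h⟩
  lift u' hu' := by
    have h : ∀ y : Submonoid.powers ρ, IsUnit (u' y) := by
      rintro ⟨_, n, rfl⟩
      change IsUnit (u' (ρ ^ n))
      rw [map_pow]
      exact hu'.pow n
    refine ⟨IsLocalization.liftAlgHom (M := Submonoid.powers ρ) (S := Localization.Away ρ)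
      (f := u') h, AlgHom.ext fun r => ?_⟩
    exact IsLocalization.lift_eq h r

section

variable {B : Type} [CommRing B] {S : Bool → Type} [∀ j, CommRing (S j)]
  [∀ j, Algebra B (S j)] {T : Type} [CommRing T] [Algebra B T] {G : TGD B S T} {a b : ℕ}
  (F : PFun G a b) {A : Type} [CommRing A] [Algebra B A]

/-- The first of the two points of an algebra over `A ⊗ S`. -/
noncomputable def pu {j : Bool} {U : Type} [CommRing U] [Algebra B U] (u : A ⊗[B] S j →ₐ[B] U) :
    S j →ₐ[B] U := u.comp Algebra.TensorProduct.includeRight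

/-- The second point. -/
noncomputable def qu {j : Bool} (q : S j →ₐ[B] A) {U : Type} [CommRing U] [Algebra B U]
    (u : A ⊗[B] S j →ₐ[B] U) : S j →ₐ[B] U :=
  (u.comp (Algebra.TensorProduct.includeLeft : A →ₐ[B] A ⊗[B] S j)).comp q

theorem pu_apply {j : Bool} {U : Type} [CommRing U] [Algebra B U] (u : A ⊗[B] S j →ₐ[B] U)
    (f : S j) : pu u f = u (1 ⊗ₜ f) := rfl

theorem qu_apply {j : Bool} (q : S j →ₐ[B] A) {U : Type} [CommRing U] [Algebra B U]
    (u : A ⊗[B] S j →ₐ[B] U) (f : S j) : qu q u f = u (q f ⊗ₜ 1) := rfl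

theorem exq_tmul {j : Bool} (q : S j →ₐ[B] A) (c : A) (f : S j) : exq q (c ⊗ₜ f) = c * q f := by
  rw [exq, Algebra.TensorProduct.lift_tmul]
  rfl

theorem mem_span {j : Bool} (q : S j →ₐ[B] A) {U : Type} [CommRing U] [Algebra B U]
    (u : A ⊗[B] S j →ₐ[B] U) (r : A ⊗[B] S j) : u r - u (exq q r ⊗ₜ 1) ∈
      Ideal.span (Set.range fun f : S j => pu u f - qu q u f) := by
  induction r using TensorProduct.induction_on with
  | zero =>
    rw [map_zero, map_zero, TensorProduct.zero_tmul, map_zero, sub_zero]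
    exact zero_mem _
  | tmul c f =>
    have h : u (c ⊗ₜ f) - u (exq q (c ⊗ₜ f) ⊗ₜ 1) = u (c ⊗ₜ 1) * (pu u f - qu q u f) := by
      rw [exq_tmul, pu_apply, qu_apply, mul_sub, ← map_mul, ← map_mul,
        Algebra.TensorProduct.tmul_mul_tmul, Algebra.TensorProduct.tmul_mul_tmul, one_mul, mul_one,
        mul_one]
    rw [h]
    exact Ideal.mul_mem_left _ _ (Ideal.subset_span ⟨f, rfl⟩)
  | add r r' h h' =>
    have e : u (r + r') - u (exq q (r + r') ⊗ₜ 1) = (u r - u (exq q r ⊗ₜ 1)) +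
        (u r' - u (exq q r' ⊗ₜ 1)) := by
      rw [map_add, map_add, TensorProduct.add_tmul, map_add]
      ring
    rw [e]
    exact add_mem h h'

theorem disj {j : Bool} {q : S j →ₐ[B] A} {U : Type} [CommRing U] [Algebra B U]
    {u : A ⊗[B] S j →ₐ[B] U} {ρ : A ⊗[B] S j} (hρ : exq q ρ = 0) (hu : IsUnit (u ρ)) :
    DisjP (pu u) (qu q u) := by
  refine Ideal.eq_top_of_isUnit_mem _ ?_ hu
  have h := mem_span q u ρ
  rwa [hρ, TensorProduct.zero_tmul, map_zero, sub_zero] at h

/-- The value of `F` at the pair of points given by `u`. -/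
noncomputable def ev {j : Bool} (q : S j →ₐ[B] A) {U : Type} [CommRing U] [Algebra B U]
    (u : A ⊗[B] S j →ₐ[B] U) : U := F.e j U (pu u) (qu q u)

theorem ev_nat {j : Bool} {q : S j →ₐ[B] A} {U U' : Type} [CommRing U] [Algebra B U]
    [CommRing U'] [Algebra B U'] {u : A ⊗[B] S j →ₐ[B] U} {ρ : A ⊗[B] S j} (hρ : exq q ρ = 0)
    (hu : IsUnit (u ρ)) (φ : U →ₐ[B] U') : ev F q (φ.comp u) = φ (ev F q u) :=
  F.nat j φ (pu u) (qu q u) (disj hρ hu)

/-- Power series as Laurent series. -/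
noncomputable def pslB (B S : Type) [CommRing B] [CommRing S] [Algebra B S] :
    PowerSeries S →ₐ[B] LaurentSeries S :=
  { toRingHom := psl S
    commutes' := fun c => by
      change psl S (algebraMap B (PowerSeries S) c) = _
      rw [lsB_algebraMap, PowerSeries.algebraMap_apply]
      exact HahnSeries.ofPowerSeries_C _ }

theorem pslB_apply (B S : Type) [CommRing B] [CommRing S] [Algebra B S] (f : PowerSeries S) :
    pslB B S f = psl S f := rfl

theorem psl_X (A : Type) [CommRing A] : psl A PowerSeries.X = HahnSeries.single 1 1 :=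
  HahnSeries.ofPowerSeries_X

theorem psl_X_unit (A : Type) [CommRing A] : IsUnit (psl A PowerSeries.X) := by
  refine IsUnit.of_mul_eq_one (HahnSeries.single (-1) 1) ?_
  rw [psl_X, HahnSeries.single_mul_single]
  simp

theorem psl_C (A : Type) [CommRing A] (c : A) : psl A (PowerSeries.C c) = HahnSeries.C c :=
  HahnSeries.ofPowerSeries_C _

theorem psl_coeff {A : Type} [CommRing A] (f : PowerSeries A) (n : ℕ) :
    (psl A f).coeff (n : ℤ) = PowerSeries.coeff n f := by
  rw [psl, HahnSeries.ofPowerSeries_apply_coeff]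

theorem psl_map {A A' : Type} [CommRing A] [CommRing A'] (φ : A →+* A') (f : PowerSeries A) :
    psl A' (PowerSeries.map φ f) = lmap φ (psl A f) := by
  ext n
  rw [lmap_coeff]
  have h1 := PowerSeries.coeff_coe (PowerSeries.map φ f) n
  have h2 := PowerSeries.coeff_coe f n
  unfold psl
  rw [h1, h2]
  split_ifs
  · rw [map_zero]
  · rw [PowerSeries.coeff_map]

theorem mul_X_pow_coeff {A : Type} [CommRing A] (f : LaurentSeries A) (N : ℕ) (m : ℤ) :
    (f * psl A PowerSeries.X ^ N).coeff m = f.coeff (m - N) := by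
  have h : psl A PowerSeries.X ^ N = HahnSeries.single (N : ℤ) (1 : A) := by
    rw [psl_X, HahnSeries.single_pow]
    simp
  have e : m = (m - N) + N := by ring
  rw [h]
  nth_rewrite 1 [e]
  rw [HahnSeries.coeff_mul_single_add, mul_one]

/-- The function at the formal neighbourhood of the diagonal has zeros of order `a + b`. -/
theorem diag (hTFP : Stmt_TFP) (hTGA : Stmt_TGA) (ha : 1 ≤ a) (hb : 1 ≤ b) (j : Bool)
    (q : S j →ₐ[B] A) (h0 : S j →ₐ[B] PowerSeries A)
    (hc : ∀ f, PowerSeries.constantCoeff (h0 f) = q f)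
    (hx : h0 (G.x j) = PowerSeries.C (q (G.x j)) + PowerSeries.X)
    (P Q : S j →ₐ[B] LaurentSeries A) (hP : ∀ f, P f = psl A (h0 f))
    (hQ : ∀ f, Q f = HahnSeries.C (q f)) (n : ℤ) (hn : n < a + b) :
    (F.e j (LaurentSeries A) P Q).coeff n = 0 := by
  obtain ⟨h1, h1c, h1x, -⟩ := (hTFP G.inv (G.ch j) (A := S j)).2.1 (AlgHom.id B (S j))
    PowerSeries.X PowerSeries.constantCoeff_X
  have h2 := hTGA G F ha hb j ((pslB B (S j)).comp h1)
    { (HahnSeries.C : S j →+* LaurentSeries (S j)) with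
      commutes' := fun c => (lsB_algebraMap c).symm } h1 h1c h1x (fun f => rfl) (fun f => rfl) n hn
  set P1 := (pslB B (S j)).comp h1 with hP1
  set Q1 : S j →ₐ[B] LaurentSeries (S j) := { (HahnSeries.C : S j →+* LaurentSeries (S j)) with
      commutes' := fun c => (lsB_algebraMap c).symm } with hQ1
  have hd : DisjP P1 Q1 := by
    refine Ideal.eq_top_of_isUnit_mem _ (Ideal.subset_span ⟨G.x j, rfl⟩) ?_
    have e : P1 (G.x j) - Q1 (G.x j) = psl (S j) PowerSeries.X := by
      change psl (S j) (h1 (G.x j)) - HahnSeries.C (G.x j) = _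
      rw [h1x, map_add, psl_C]
      change HahnSeries.C (G.x j) + _ - HahnSeries.C (G.x j) = _
      ring
    change IsUnit (P1 (G.x j) - Q1 (G.x j))
    rw [e]
    exact psl_X_unit _
  have h3 := F.nat j (lmapB q) P1 Q1 hd
  have e1 : h0 = (PowerSeries.mapAlgHom q).comp h1 := by
    refine (hTFP G.inv (G.ch j) (A := A)).1 _ _ (fun f => ?_) ?_
    · rw [hc]
      change q f = PowerSeries.constantCoeff (PowerSeries.map (q : S j →+* A) (h1 f))
      rw [← PowerSeries.coeff_zero_eq_constantCoeff_apply, PowerSeries.coeff_map,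
        PowerSeries.coeff_zero_eq_constantCoeff_apply, h1c]
      rfl
    · rw [hx]
      change _ = PowerSeries.map (q : S j →+* A) (h1 (G.x j))
      rw [h1x, map_add, PowerSeries.map_C, PowerSeries.map_X]
      rfl
  have e2 : (lmapB q).comp P1 = P := by
    refine AlgHom.ext fun f => ?_
    rw [hP, e1]
    exact (psl_map (q : S j →+* A) (h1 f)).symm
  have e3 : (lmapB q).comp Q1 = Q := by
    refine AlgHom.ext fun f => ?_
    rw [hQ]
    change lmap (q : S j →+* A) (HahnSeries.C f) = _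
    rw [← psl_C, ← psl_map, PowerSeries.map_C, psl_C]
    rfl
  rw [e2, e3] at h3
  rw [h3, lmapB_coeff, h2, map_zero]

/-- The value at all pairs with second point `q` is given by an element of `A ⊗ S`. -/
theorem exists_F (hTFP : Stmt_TFP) (hTGA : Stmt_TGA) (hTGR : Stmt_TGR) (ha : 1 ≤ a) (hb : 1 ≤ b)
    (j : Bool) (q : S j →ₐ[B] A)
    (hy : ((1 : A) ⊗ₜ[B] G.x j - q (G.x j) ⊗ₜ[B] (1 : S j)) ∈ nonZeroDivisors (A ⊗[B] S j)) :
    ∃ Fj : A ⊗[B] S j, ∀ {U : Type} [CommRing U] [Algebra B U] (u : A ⊗[B] S j →ₐ[B] U)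
      (ρ : A ⊗[B] S j), exq q ρ = 0 → IsUnit (u ρ) → ev F q u = u Fj := by
  set y : A ⊗[B] S j := (1 : A) ⊗ₜ[B] G.x j - q (G.x j) ⊗ₜ[B] (1 : S j) with hyd
  have hyI : exq q y = 0 := by
    rw [hyd, map_sub, exq_tmul, exq_tmul, map_one, one_mul, mul_one, sub_self]
  have hyn : ∀ (n : ℕ) (z : A ⊗[B] S j), y ^ n * z = 0 → z = 0 := fun n z hz => by
    have h1 := pow_mem hy n
    exact (mem_nonZeroDivisors_iff.1 h1).1 z hz
  let Ly := locA B y
  obtain ⟨N, r, hr⟩ := Ly.den (ev F q Ly.u)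
  -- comparison with the other localisations
  have cmp : ∀ ρ, exq q ρ = 0 → ∀ (k : ℕ) (r1 : A ⊗[B] S j),
      ev F q (locA B ρ).u * (locA B ρ).u ρ ^ k = (locA B ρ).u r1 →
      ∃ m : ℕ, ρ ^ m * (ρ ^ k * r - y ^ N * r1) = 0 := by
    intro ρ hρ k r1 h1
    let Lr := locA B (ρ * y)
    have hun := Lr.un
    rw [map_mul] at hun
    have u1 : IsUnit (Lr.u ρ) := isUnit_of_mul_isUnit_left hun
    have u2 : IsUnit (Lr.u y) := isUnit_of_mul_isUnit_right hun
    obtain ⟨φ1, hφ1⟩ := Ly.lift Lr.u u2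
    obtain ⟨φ2, hφ2⟩ := (locA B ρ).lift Lr.u u1
    have a1 : ev F q Lr.u = φ1 (ev F q Ly.u) := by
      rw [← ev_nat F hyI Ly.un φ1, hφ1]
    have a2 : ev F q Lr.u = φ2 (ev F q (locA B ρ).u) := by
      rw [← ev_nat F hρ (locA B ρ).un φ2, hφ2]
    have a3 : ev F q Lr.u * Lr.u y ^ N = Lr.u r := by
      have := congrArg φ1 hr
      rw [map_mul, map_pow, ← a1] at this
      have e1 : φ1 (Ly.u y) = Lr.u y := by rw [← hφ1]; rfl
      have e2 : φ1 (Ly.u r) = Lr.u r := by rw [← hφ1]; rfl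
      rwa [e1, e2] at this
    have a4 : ev F q Lr.u * Lr.u ρ ^ k = Lr.u r1 := by
      have := congrArg φ2 h1
      rw [map_mul, map_pow, ← a2] at this
      have e1 : φ2 ((locA B ρ).u ρ) = Lr.u ρ := by rw [← hφ2]; rfl
      have e2 : φ2 ((locA B ρ).u r1) = Lr.u r1 := by rw [← hφ2]; rfl
      rwa [e1, e2] at this
    have a5 : Lr.u (ρ ^ k * r - y ^ N * r1) = 0 := by
      rw [map_sub, map_mul, map_mul, map_pow, map_pow, ← a3, ← a4]
      ring
    obtain ⟨m, hm⟩ := Lr.ker _ a5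
    refine ⟨m, hyn m _ ?_⟩
    rw [← hm]
    ring
  -- the formal point
  obtain ⟨h0, h0c, h0x, -⟩ := (hTFP G.inv (G.ch j) (A := A)).2.1 q
    PowerSeries.X PowerSeries.constantCoeff_X
  let h : A ⊗[B] S j →ₐ[A] PowerSeries A :=
    Algebra.TensorProduct.lift (Algebra.ofId A (PowerSeries A)) h0 fun _ _ => Commute.all _ _
  have ht : ∀ (c : A) (f : S j), h (c ⊗ₜ f) = PowerSeries.C c * h0 f := fun c f => by
    change (Algebra.TensorProduct.lift _ _ _) (c ⊗ₜ f) = _
    rw [Algebra.TensorProduct.lift_tmul]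
    rfl
  have hhc : ∀ z, PowerSeries.constantCoeff (h z) = exq q z := by
    intro z
    induction z using TensorProduct.induction_on with
    | zero => simp
    | tmul c f => rw [ht, map_mul, PowerSeries.constantCoeff_C, h0c, exq_tmul]
    | add z z' h1 h2 => rw [map_add, map_add, map_add, h1, h2]
  have hhx : h (1 ⊗ₜ[B] G.x j) = PowerSeries.C (q (G.x j)) + PowerSeries.X := by
    rw [ht, map_one, one_mul, h0x]
  have hhy : h y = PowerSeries.X := by
    rw [hyd, map_sub, hhx, ht, map_one, mul_one]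
    ring
  obtain ⟨-, -, reg⟩ := hTGR G.inv (G.ch j) (G.ft j) q h hhc hhx
  obtain ⟨r', hr'⟩ := reg N r (fun ρ hρ => by
      obtain ⟨k, r1, h1⟩ := (locA B ρ).den (ev F q (locA B ρ).u)
      obtain ⟨m, hm⟩ := cmp ρ hρ k r1 h1
      refine ⟨m + k, ρ ^ m * r1, ?_⟩
      have : ρ ^ (m + k) * r - y ^ N * (ρ ^ m * r1) = 0 := by
        rw [← hm]
        ring
      exact sub_eq_zero.1 this) (fun m hm => by
      let hB : A ⊗[B] S j →ₐ[B] PowerSeries A := h.restrictScalars B
      let w : A ⊗[B] S j →ₐ[B] LaurentSeries A := (pslB B A).comp hB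
      have hw : ∀ z, w z = psl A (h z) := fun z => rfl
      have hwy : IsUnit (w y) := by
        rw [hw, hhy]
        exact psl_X_unit A
      obtain ⟨Θ, hΘ⟩ := Ly.lift w hwy
      have b1 := ev_nat F hyI Ly.un Θ
      rw [hΘ] at b1
      have b2 : ∀ n : ℤ, n < a + b → (Θ (ev F q Ly.u)).coeff n = 0 := by
        intro n hn
        rw [← b1]
        refine diag F hTFP hTGA ha hb j q h0 h0c h0x (pu w) (qu q w) (fun f => ?_) (fun f => ?_)
          n hn
        · rw [pu_apply, hw, ht, map_one, one_mul]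
        · rw [qu_apply, hw, ht, map_one, mul_one, psl_C]
      have b3 := congrArg Θ hr
      rw [map_mul, map_pow] at b3
      have e1 : Θ (Ly.u y) = psl A PowerSeries.X := by
        have : Θ (Ly.u y) = w y := by rw [← hΘ]; rfl
        rw [this, hw, hhy]
      have e2 : Θ (Ly.u r) = psl A (h r) := by
        have : Θ (Ly.u r) = w r := by rw [← hΘ]; rfl
        rw [this, hw]
      rw [e1, e2] at b3
      rw [← psl_coeff, ← b3, mul_X_pow_coeff]
      exact b2 _ (by omega))
  change r = y ^ N * r' at hr'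
  refine ⟨r', fun {U} _ _ u ρ hρ hu => ?_⟩
  obtain ⟨k, r1, h1⟩ := (locA B ρ).den (ev F q (locA B ρ).u)
  obtain ⟨m, hm⟩ := cmp ρ hρ k r1 h1
  have c1 : ρ ^ m * (ρ ^ k * r' - r1) = 0 := by
    refine hyn N _ ?_
    rw [← hm, hr']
    ring
  have c2 : (locA B ρ).u (ρ ^ k * r' - r1) = 0 := by
    have := congrArg (locA B ρ).u c1
    rw [map_mul, map_pow, map_zero] at this
    exact ((locA B ρ).un.pow m).mul_left_cancel (by rw [this, mul_zero])
  have c3 : ev F q (locA B ρ).u = (locA B ρ).u r' := by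
    rw [map_sub, map_mul, map_pow] at c2
    refine ((locA B ρ).un.pow k).mul_right_cancel ?_
    rw [h1]
    linear_combination -c2
  obtain ⟨φ, hφ⟩ := (locA B ρ).lift u hu
  have c4 := ev_nat F hρ (locA B ρ).un φ
  rw [hφ, c3] at c4
  rw [c4, ← hφ]
  rfl

theorem tmp_tmul {j : Bool} (i : S j →ₐ[B] T) (c : A) (f : S j) :
    tmp A i (c ⊗ₜ f) = c ⊗ₜ i f := rfl

end

end TGB

theorem t_TGB (hTFP : Stmt_TFP) (hTGA : Stmt_TGA) (hTGR : Stmt_TGR) : Stmt_TGB := by
  intro B _ S _ _ T _ _ G a b F ha hb j A _ _ p q hd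
  let qj : ∀ j, S j →ₐ[B] A := fun j => q.comp (G.i j)
  let y : ∀ j, A ⊗[B] S j := fun j => (1 : A) ⊗ₜ[B] G.x j - qj j (G.x j) ⊗ₜ[B] (1 : S j)
  have hyT : ∀ j, tmp A (G.i j) (y j) = (1 : A) ⊗ₜ[B] G.i j (G.x j) -
      qj j (G.x j) ⊗ₜ[B] (1 : T) := fun j => by
    rw [map_sub, TGB.tmp_tmul, TGB.tmp_tmul, map_one]
  have hynT : ∀ j, tmp A (G.i j) (y j) ∈ nonZeroDivisors (A ⊗[B] T) := fun j => by
    rw [hyT]
    exact G.nz j A _
  have hyn : ∀ j, y j ∈ nonZeroDivisors (A ⊗[B] S j) := fun j => by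
    refine mem_nonZeroDivisors_iff.2 ⟨fun z hz => ?_, fun z hz => ?_⟩
    · refine G.inj j A ?_
      rw [map_zero]
      refine (mem_nonZeroDivisors_iff.1 (hynT j)).1 _ ?_
      rw [← map_mul, hz, map_zero]
    · refine G.inj j A ?_
      rw [map_zero]
      refine (mem_nonZeroDivisors_iff.1 (hynT j)).2 _ ?_
      rw [← map_mul, hz, map_zero]
  have hyI : ∀ j, exq (qj j) (y j) = 0 := fun j => by
    change exq (qj j) ((1 : A) ⊗ₜ[B] G.x j - qj j (G.x j) ⊗ₜ[B] (1 : S j)) = 0
    rw [map_sub, TGB.exq_tmul, TGB.exq_tmul, map_one, one_mul, mul_one, sub_self]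
  choose Fj hF using fun j => TGB.exists_F F hTFP hTGA hTGR ha hb j (qj j) (hyn j)
  -- comparison of the two charts
  obtain ⟨dd, hdd⟩ : ∃ dd, dd = tmp A (G.i true) (y true) * tmp A (G.i false) (y false) :=
    ⟨_, rfl⟩
  let L := TGB.locA B dd
  let P : T →ₐ[B] L.U := L.u.comp Algebra.TensorProduct.includeRight
  let Q : T →ₐ[B] L.U :=
    (L.u.comp (Algebra.TensorProduct.includeLeft : A →ₐ[B] A ⊗[B] T)).comp q
  have hPt : ∀ t, P t = L.u (1 ⊗ₜ t) := fun _ => rfl
  have hQt : ∀ t, Q t = L.u (q t ⊗ₜ 1) := fun _ => rfl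
  have hun : ∀ j, IsUnit (L.u (tmp A (G.i j) (y j))) := by
    have h : IsUnit (L.u (tmp A (G.i true) (y true) * tmp A (G.i false) (y false))) := by
      rw [← hdd]
      exact L.un
    rw [map_mul] at h
    rintro (_ | _)
    · exact isUnit_of_mul_isUnit_right h
    · exact isUnit_of_mul_isUnit_left h
  have hPQ : ∀ j, IsUnit (P (G.i j (G.x j)) - Q (G.i j (G.x j))) := fun j => by
    have h := hun j
    rwa [hyT, map_sub] at h
  have htr := F.trans P Q hPQ
  have hev : ∀ j, F.e j L.U (P.comp (G.i j)) (Q.comp (G.i j)) =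
      L.u (tmp A (G.i j) (Fj j)) := fun j => by
    have h := hF j (L.u.comp ((tmp A (G.i j)).restrictScalars B)) (y j) (hyI j) (hun j)
    have e1 : TGB.pu (L.u.comp ((tmp A (G.i j)).restrictScalars B)) = P.comp (G.i j) :=
      AlgHom.ext fun f => rfl
    have e2 : TGB.qu (qj j) (L.u.comp ((tmp A (G.i j)).restrictScalars B)) =
        Q.comp (G.i j) := by
      refine AlgHom.ext fun f => ?_
      change L.u (tmp A (G.i j) (qj j f ⊗ₜ 1)) = L.u (q (G.i j f) ⊗ₜ 1)
      rw [TGB.tmp_tmul, map_one]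
      rfl
    rw [TGB.ev, e1, e2] at h
    exact h
  rw [hev, hev] at htr
  have hinj : ∀ z, L.u z = 0 → z = 0 := fun z hz => by
    obtain ⟨n, hn⟩ := L.ker z hz
    have h1 := pow_mem (mul_mem (hynT true) (hynT false)) n
    rw [← hdd] at h1
    exact (mem_nonZeroDivisors_iff.1 h1).1 z hn
  have hgT : tmp A (G.i false) (Fj false) =
      ((q G.g ^ b) ⊗ₜ[B] (G.ΔT (G.i false (G.x false)) ^ a)) * tmp A (G.i true) (Fj true) := by
    refine sub_eq_zero.1 (hinj _ ?_)
    rw [map_sub, htr, map_mul, sub_eq_zero]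
    congr 1
    rw [hPt, hQt, ← map_pow, ← map_pow, ← map_mul]
    congr 1
    rw [Algebra.TensorProduct.tmul_pow, Algebra.TensorProduct.tmul_pow,
      Algebra.TensorProduct.tmul_mul_tmul, one_pow, one_pow, one_mul, mul_one]
    rfl
  have h1 : Fj true = 0 := G.ns A a (q G.g ^ b) (Fj true) (Fj false) ha
    ((G.gu.map q).pow b) hgT
  have h2 : Fj false = 0 := by
    refine G.inj false A ?_
    rw [hgT, h1, map_zero, map_zero, mul_zero]
  have h3 : ∀ j, Fj j = 0 := by
    rintro (_ | _)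
    · exact h2
    · exact h1
  -- a general pair
  let u : A ⊗[B] S j →ₐ[B] A := (exq p).restrictScalars B
  have hut : ∀ (c : A) (f : S j), u (c ⊗ₜ f) = c * p f := fun c f => TGB.exq_tmul p c f
  set E := F.e j A p (q.comp (G.i j)) with hE
  have hrad : ∀ f : S j, p f - qj j f ∈ (Ideal.span {E}).annihilator.radical := by
    intro f
    let ρ : A ⊗[B] S j := (1 : A) ⊗ₜ[B] f - qj j f ⊗ₜ[B] (1 : S j)
    have hρ : exq (qj j) ρ = 0 := by
      change exq (qj j) ((1 : A) ⊗ₜ[B] f - qj j f ⊗ₜ[B] (1 : S j)) = 0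
      rw [map_sub, TGB.exq_tmul, TGB.exq_tmul, map_one, one_mul, mul_one, sub_self]
    have huρ : u ρ = p f - qj j f := by
      change u ((1 : A) ⊗ₜ[B] f - qj j f ⊗ₜ[B] (1 : S j)) = _
      rw [map_sub, hut, hut, one_mul, map_one, mul_one]
    let M := TGB.locA B (u ρ)
    have k1 := hF j (M.u.comp u) ρ hρ M.un
    rw [h3, map_zero] at k1
    have k2 := F.nat j M.u p (q.comp (G.i j)) hd
    have k3 : TGB.pu (M.u.comp u) = M.u.comp p := by
      refine AlgHom.ext fun f => ?_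
      rw [TGB.pu_apply]
      change M.u (u (1 ⊗ₜ f)) = M.u (p f)
      rw [hut, one_mul]
    have k4 : TGB.qu (qj j) (M.u.comp u) = M.u.comp (q.comp (G.i j)) := by
      refine AlgHom.ext fun f => ?_
      rw [TGB.qu_apply]
      change M.u (u (qj j f ⊗ₜ 1)) = M.u (qj j f)
      rw [hut, map_one, mul_one]
    have k5 : M.u E = 0 := by
      rw [← k2, ← k3, ← k4]
      exact k1
    obtain ⟨n, hn⟩ := M.ker E k5
    refine ⟨n, ?_⟩
    rw [Submodule.mem_annihilator_span_singleton, smul_eq_mul, ← huρ]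
    exact hn
  have htop : (Ideal.span {E}).annihilator.radical = ⊤ := by
    rw [eq_top_iff, ← hd]
    refine Ideal.span_le.2 ?_
    rintro _ ⟨f, rfl⟩
    exact hrad f
  rw [Ideal.radical_eq_top] at htop
  have h4 : (1 : A) ∈ (Ideal.span {E}).annihilator := by
    rw [htop]
    trivial
  rw [Submodule.mem_annihilator_span_singleton, one_smul] at h4
  exact h4

end Pool.Agent.MG.G0
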