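import Pool.Agent.MG.G0.StmtsTG

/-!
# TGC (TG5): functions of pairs of points vanish (PAPER_TG.md, TGC)
-/

open TensorProduct

namespace Pool.Agent.MG.G0

namespace TGC

section

variable {B : Type} [CommRing B]

/-- Maps from a localization of a `B`-algebra. -/
theorem lift_away {R A : Type} [CommRing R] [CommRing A] [Algebra B R] [Algebra B A]
    (π : R →ₐ[B] A) (ρ : R) (h : IsUnit (π ρ)) :
    ∃ ψ : Localization.Away ρ →ₐ[B] A, ∀ r, ψ (algebraMap R _ r) = π r := by
  have h1 : ∀ y : Submonoid.powers ρ, IsUnit (π y) := by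
    rintro ⟨_, n, rfl⟩
    simpa using h.pow n
  exact ⟨IsLocalization.liftAlgHom h1, fun r => IsLocalization.lift_eq _ r⟩

/-- The localization at `ρ`, as a homomorphism of `B`-algebras. -/
noncomputable def loc {R : Type} [CommRing R] [Algebra B R] (ρ : R) :
    R →ₐ[B] Localization.Away ρ :=
  IsScalarTower.toAlgHom B R (Localization.Away ρ)

theorem loc_apply {R : Type} [CommRing R] [Algebra B R] (ρ r : R) :
    loc (B := B) ρ r = algebraMap R (Localization.Away ρ) r := rfl

theorem isUnit_loc {R : Type} [CommRing R] [Algebra B R] (ρ : R) :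
    IsUnit (loc (B := B) ρ ρ) :=
  IsLocalization.Away.algebraMap_isUnit ρ

/-- If `p f - q f` is a unit then `p`, `q` are disjoint. -/
theorem disj_of_isUnit {S A : Type} [CommRing S] [CommRing A] [Algebra B S] [Algebra B A]
    {p q : S →ₐ[B] A} (f : S) (h : IsUnit (p f - q f)) : DisjP p q :=
  Ideal.eq_top_of_isUnit_mem _ (Ideal.subset_span ⟨f, rfl⟩) h

/-- The localization of an injective homomorphism is injective. -/
theorem inj_away {R R' : Type} [CommRing R] [CommRing R'] [Algebra B R] [Algebra B R']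
    (θ : R →ₐ[B] R') (hθ : Function.Injective θ) (ρ : R)
    (ψ : Localization.Away ρ →ₐ[B] Localization.Away (θ ρ))
    (hψ : ∀ r, ψ (algebraMap R _ r) = algebraMap R' _ (θ r)) : Function.Injective ψ := by
  rw [injective_iff_map_eq_zero]
  intro z hz
  obtain ⟨⟨r, s⟩, hs⟩ := IsLocalization.surj (Submonoid.powers ρ) z
  dsimp only at hs
  have h1 : algebraMap R' (Localization.Away (θ ρ)) (θ r) = 0 := by
    rw [← hψ, ← hs, map_mul, hz, zero_mul]
  obtain ⟨⟨_, n, rfl⟩, hm⟩ := (IsLocalization.map_eq_zero_iff (Submonoid.powers (θ ρ)) _ _).1 h1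
  dsimp only at hm
  have h2 : ρ ^ n * r = 0 := by
    apply hθ
    rw [map_mul, map_pow, map_zero]
    exact hm
  have h3 : algebraMap R (Localization.Away ρ) r = 0 :=
    (IsLocalization.map_eq_zero_iff (Submonoid.powers ρ) _ _).2 ⟨⟨ρ ^ n, n, rfl⟩, h2⟩
  rw [h3] at hs
  exact (IsLocalization.map_units (Localization.Away ρ) s).mul_left_eq_zero.1 hs

end

section

variable {B : Type} [CommRing B] {S : Bool → Type} [∀ j, CommRing (S j)]
  [∀ j, Algebra B (S j)] {T : Type} [CommRing T] [Algebra B T]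

/-- The first universal point. -/
noncomputable def up (j : Bool) : S j →ₐ[B] S j ⊗[B] S j := Algebra.TensorProduct.includeLeft

/-- The second universal point. -/
noncomputable def uq (j : Bool) : S j →ₐ[B] S j ⊗[B] S j := Algebra.TensorProduct.includeRight

/-- The functions vanish at the universal pairs. -/
theorem univ_zero (h1 : Stmt_TGB) (G : TGD B S T) {a b : ℕ} (F : PFun G a b) (ha : 1 ≤ a)
    (hb : 1 ≤ b) (j : Bool) (f : S j) :
    F.e j (Localization.Away (up (B := B) j f - uq (B := B) j f))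
      ((loc (up (B := B) j f - uq (B := B) j f)).comp (up j))
      ((loc (up (B := B) j f - uq (B := B) j f)).comp (uq j)) = 0 := by
  set ρ : S j ⊗[B] S j := up (B := B) j f - uq (B := B) j f with hρ
  set θ : S j ⊗[B] S j →ₐ[B] S j ⊗[B] T := (tmp (S j) (G.i j)).restrictScalars B with hθ
  have hinj : Function.Injective θ := G.inj j (S j)
  have hu : IsUnit (((loc (B := B) (θ ρ)).comp θ) ρ) := isUnit_loc (B := B) (θ ρ)
  obtain ⟨ψ, hψ⟩ := lift_away ((loc (B := B) (θ ρ)).comp θ) ρ hu
  have hψi : Function.Injective ψ := inj_away θ hinj ρ ψ hψ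
  apply hψi
  rw [map_zero]
  have hd : DisjP ((loc (B := B) ρ).comp (up j)) ((loc (B := B) ρ).comp (uq j)) := by
    refine disj_of_isUnit f ?_
    have h2 := isUnit_loc (B := B) ρ
    rw [hρ, map_sub] at h2
    exact h2
  rw [← F.nat j ψ _ _ hd]
  set q' : T →ₐ[B] Localization.Away (θ ρ) :=
    (loc (B := B) (θ ρ)).comp Algebra.TensorProduct.includeRight with hq'
  have hq : ψ.comp ((loc (B := B) ρ).comp (uq j)) = q'.comp (G.i j) := by
    refine AlgHom.ext fun g => ?_
    change ψ (algebraMap _ _ (uq (B := B) j g)) = _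
    rw [hψ]
    change loc (B := B) (θ ρ) (θ ((1 : S j) ⊗ₜ[B] g)) =
      loc (B := B) (θ ρ) ((1 : S j) ⊗ₜ[B] G.i j g)
    rfl
  rw [hq]
  refine h1 G F ha hb j _ q' ?_
  rw [← hq]
  refine disj_of_isUnit f ?_
  change IsUnit (ψ (algebraMap _ _ (up (B := B) j f)) - ψ (algebraMap _ _ (uq (B := B) j f)))
  rw [← map_sub, ← map_sub, ← hρ, hψ]
  exact hu

end

end TGC

/-- TGC (TG5): functions of pairs of points vanish. -/
theorem t_TGC (h1 : Stmt_TGB) : Stmt_TGC := by
  intro B _ S _ _ T _ _ G a b F ha hb j A _ _ p q hpq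
  set E := F.e j A p q with hE
  have key : ∀ f : S j, ∃ n : ℕ, (p f - q f) ^ n * E = 0 := by
    intro f
    set π : S j ⊗[B] S j →ₐ[B] A :=
      Algebra.TensorProduct.lift p q (fun _ _ => Commute.all _ _) with hπ
    have hp : ∀ g, π (TGC.up j g) = p g := by
      intro g
      change π (g ⊗ₜ[B] (1 : S j)) = p g
      rw [hπ, Algebra.TensorProduct.lift_tmul, map_one, mul_one]
    have hq : ∀ g, π (TGC.uq j g) = q g := by
      intro g
      change π ((1 : S j) ⊗ₜ[B] g) = q g
      rw [hπ, Algebra.TensorProduct.lift_tmul, map_one, one_mul]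
    set ρ : S j ⊗[B] S j := TGC.up (B := B) j f - TGC.uq (B := B) j f with hρ
    have hπρ : π ρ = p f - q f := by rw [hρ, map_sub, hp, hq]
    set al : A →ₐ[B] Localization.Away (p f - q f) := TGC.loc (B := B) (p f - q f) with hal
    have hu : IsUnit ((al.comp π) ρ) := by
      rw [AlgHom.comp_apply, hπρ]
      exact TGC.isUnit_loc (B := B) (p f - q f)
    obtain ⟨ψ, hψ⟩ := TGC.lift_away (al.comp π) ρ hu
    have hd : DisjP ((TGC.loc (B := B) ρ).comp (TGC.up j))
        ((TGC.loc (B := B) ρ).comp (TGC.uq j)) := by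
      refine TGC.disj_of_isUnit f ?_
      have h2 := TGC.isUnit_loc (B := B) ρ
      rw [hρ, map_sub] at h2
      exact h2
    have e1 : al.comp p = ψ.comp ((TGC.loc (B := B) ρ).comp (TGC.up j)) := by
      refine AlgHom.ext fun g => ?_
      change al (p g) = ψ (algebraMap _ _ (TGC.up (B := B) j g))
      rw [hψ, AlgHom.comp_apply, hp]
    have e2 : al.comp q = ψ.comp ((TGC.loc (B := B) ρ).comp (TGC.uq j)) := by
      refine AlgHom.ext fun g => ?_
      change al (q g) = ψ (algebraMap _ _ (TGC.uq (B := B) j g))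
      rw [hψ, AlgHom.comp_apply, hq]
    have h3 : al E = 0 := by
      rw [hE, ← F.nat j al p q hpq, e1, e2, F.nat j ψ _ _ hd, TGC.univ_zero h1 G F ha hb j f,
        map_zero]
    obtain ⟨⟨_, n, rfl⟩, hm⟩ :=
      (IsLocalization.map_eq_zero_iff (Submonoid.powers (p f - q f)) _ _).1 h3
    exact ⟨n, hm⟩
  have h4 : (Ideal.span {E}).annihilator.radical = ⊤ := by
    rw [eq_top_iff, ← hpq]
    refine Ideal.span_le.2 ?_
    rintro _ ⟨f, rfl⟩
    obtain ⟨n, hn⟩ := key f
    exact ⟨n, (Submodule.mem_annihilator_span_singleton E _).2 hn⟩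
  rw [Ideal.radical_eq_top] at h4
  have h5 : (1 : A) ∈ (Ideal.span {E}).annihilator := by
    rw [h4]
    exact Submodule.mem_top
  have h6 := (Submodule.mem_annihilator_span_singleton E (1 : A)).1 h5
  rwa [one_smul] at h6

end Pool.Agent.MG.G0
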