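import Pool.Agent.MG.G0.StmtsTG

/-!
# TGG: Theorem G
-/

open TensorProduct

namespace Pool.Agent.MG.G0

namespace TGG

section Basics

variable {B S A A' : Type} [CommRing B] [CommRing S] [CommRing A] [CommRing A'] [Algebra B S]
  [Algebra B A] [Algebra B A']

/-- The coefficientwise application of a homomorphism to a formal point. -/
noncomputable def mp (ψ : A →ₐ[B] A') (h : S →ₐ[B] PowerSeries A) : S →ₐ[B] PowerSeries A' where
  toRingHom := (PowerSeries.map (ψ : A →+* A')).comp (h : S →+* PowerSeries A)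
  commutes' b := by
    change PowerSeries.map (ψ : A →+* A') (h (algebraMap B S b)) = _
    rw [h.commutes, PowerSeries.algebraMap_apply, PowerSeries.algebraMap_apply,
      PowerSeries.map_C]
    congr 1
    exact ψ.commutes b

theorem mp_apply (ψ : A →ₐ[B] A') (h : S →ₐ[B] PowerSeries A) (f : S) :
    mp ψ h f = PowerSeries.map (ψ : A →+* A') (h f) := rfl

/-- The constant part of a formal point. -/
noncomputable def cp (h : S →ₐ[B] PowerSeries A) : S →ₐ[B] A where
  toRingHom := (PowerSeries.constantCoeff (R := A)).comp (h : S →+* PowerSeries A)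
  commutes' b := by
    change PowerSeries.constantCoeff (h (algebraMap B S b)) = _
    rw [h.commutes, PowerSeries.algebraMap_apply, PowerSeries.constantCoeff_C]

theorem cp_apply (h : S →ₐ[B] PowerSeries A) (f : S) :
    cp h f = PowerSeries.constantCoeff (h f) := rfl

/-- Rescaling of a formal point. -/
noncomputable def rs (l : A) (h : S →ₐ[B] PowerSeries A) : S →ₐ[B] PowerSeries A where
  toRingHom := (PowerSeries.rescale l).comp (h : S →+* PowerSeries A)
  commutes' b := by
    change PowerSeries.rescale l (h (algebraMap B S b)) = _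
    rw [h.commutes, PowerSeries.algebraMap_apply]
    ext n
    rw [PowerSeries.coeff_rescale, PowerSeries.coeff_C]
    split_ifs with hn
    · rw [hn, pow_zero, one_mul]
    · rw [mul_zero]

theorem rs_apply (l : A) (h : S →ₐ[B] PowerSeries A) (f : S) :
    rs l h f = PowerSeries.rescale l (h f) := rfl

/-- Constant polynomials. -/
noncomputable def cst (B A : Type) [CommRing B] [CommRing A] [Algebra B A] :
    A →ₐ[B] MvPolynomial (Bool × ℕ) A where
  toRingHom := MvPolynomial.C
  commutes' b := (MvPolynomial.algebraMap_apply b).symm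

theorem coeff_gs (b : Bool) (n : ℕ) : PowerSeries.coeff n (gs A b) =
    if n = 0 then 0 else if n = 1 then 1 else MvPolynomial.X (b, n - 2) := by
  rw [gs, PowerSeries.coeff_mk]

theorem const_gs (b : Bool) : PowerSeries.constantCoeff (gs A b) = 0 := by
  rw [← PowerSeries.coeff_zero_eq_constantCoeff_apply, coeff_gs, if_pos rfl]

theorem map_gs (ψ : MvPolynomial (Bool × ℕ) A →+* MvPolynomial (Bool × ℕ) A') (b : Bool)
    (h : ∀ n, ψ (MvPolynomial.X (b, n)) = MvPolynomial.X (b, n)) :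
    PowerSeries.map ψ (gs A b) = gs A' b := by
  ext1 n
  rw [PowerSeries.coeff_map, coeff_gs, coeff_gs]
  split_ifs
  · rw [map_zero]
  · rw [map_one]
  · rw [h]

variable {x : S} {Δ : Derivation B S S}

theorem exists_up (hTFP : Stmt_TFP) (hB : ∀ n : ℕ, n ≠ 0 → IsUnit (n : B))
    (hx : IsChart B S x Δ) (b : Bool) (p : S →ₐ[B] A) :
    ∃ h : S →ₐ[B] PowerSeries (MvPolynomial (Bool × ℕ) A), IsUP x b p h := by
  obtain ⟨h, h1, h2, -⟩ := (hTFP hB hx (A := MvPolynomial (Bool × ℕ) A)).2.1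
    ((cst B A).comp p) (gs A b) (const_gs b)
  exact ⟨h, h1, h2⟩

theorem up_unique (hTFP : Stmt_TFP) (hB : ∀ n : ℕ, n ≠ 0 → IsUnit (n : B))
    (hx : IsChart B S x Δ) {b : Bool} {p : S →ₐ[B] A}
    {h h' : S →ₐ[B] PowerSeries (MvPolynomial (Bool × ℕ) A)} (h1 : IsUP x b p h)
    (h2 : IsUP x b p h') : h = h' :=
  (hTFP hB hx (A := MvPolynomial (Bool × ℕ) A)).1 h h' (fun f => (h1.1 f).trans (h2.1 f).symm)
    (h1.2.trans h2.2.symm)

/-- Naturality of the universal formal points. -/
theorem up_map {b : Bool} {p : S →ₐ[B] A} {h : S →ₐ[B] PowerSeries (MvPolynomial (Bool × ℕ) A)}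
    (hh : IsUP x b p h) (φ : A →ₐ[B] A') :
    IsUP x b (φ.comp p) (mp (MvPolynomial.mapAlgHom φ) h) := by
  refine ⟨fun f => ?_, ?_⟩
  · rw [mp_apply, ← PowerSeries.coeff_zero_eq_constantCoeff_apply, PowerSeries.coeff_map,
      PowerSeries.coeff_zero_eq_constantCoeff_apply, hh.1]
    change MvPolynomial.map (φ : A →+* A') (MvPolynomial.C (p f)) = _
    rw [MvPolynomial.map_C]
    rfl
  · rw [mp_apply, hh.2, map_add, PowerSeries.map_C, map_gs _ b fun n => ?_]
    · change PowerSeries.C (MvPolynomial.map (φ : A →+* A') (MvPolynomial.C (p x))) + _ = _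
      rw [MvPolynomial.map_C]
      rfl
    · change MvPolynomial.map (φ : A →+* A') (MvPolynomial.X (b, n)) = _
      rw [MvPolynomial.map_X]

/-- The universal formal points of a disjoint pair. -/
theorem up_vpair {p q : S →ₐ[B] A} (hpq : DisjP p q) {b b' : Bool}
    {h k : S →ₐ[B] PowerSeries (MvPolynomial (Bool × ℕ) A)} (hh : IsUP x b p h)
    (hk : IsUP x b' q k) : VPair x h k := by
  have c1 : ∀ (b : Bool) (p : S →ₐ[B] A) (h : S →ₐ[B] PowerSeries (MvPolynomial (Bool × ℕ) A)),
      IsUP x b p h → PowerSeries.coeff 1 (h x) = 1 := by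
    intro b p h hh
    rw [hh.2, map_add, coeff_gs, PowerSeries.coeff_C, if_neg one_ne_zero, if_neg one_ne_zero,
      if_pos rfl, zero_add]
  refine ⟨by rw [c1 b p h hh]; exact isUnit_one, by rw [c1 b' q k hk]; exact isUnit_one, ?_⟩
  have e : (Set.range fun f : S =>
      PowerSeries.constantCoeff (h f) - PowerSeries.constantCoeff (k f)) =
      (MvPolynomial.C : A →+* MvPolynomial (Bool × ℕ) A) ''
        (Set.range fun f : S => p f - q f) := by
    rw [← Set.range_comp]
    congr 1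
    funext f
    rw [hh.1, hk.1, Function.comp_apply, map_sub]
  rw [e, ← Ideal.map_span]
  have h0 : Ideal.span (Set.range fun f : S => p f - q f) = ⊤ := hpq
  rw [h0, Ideal.map_top]

end Basics

section

variable {B : Type} [CommRing B] {S : Bool → Type} [∀ j, CommRing (S j)]
  [∀ j, Algebra B (S j)] {T : Type} [CommRing T] [Algebra B T]

/-- The universal formal point. -/
noncomputable def up (hTFP : Stmt_TFP) (G : TGD B S T) (j b : Bool) {A : Type} [CommRing A]
    [Algebra B A] (p : S j →ₐ[B] A) : S j →ₐ[B] PowerSeries (MvPolynomial (Bool × ℕ) A) :=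
  Classical.choose (exists_up hTFP G.inv (G.ch j) b p)

theorem up_spec (hTFP : Stmt_TFP) (G : TGD B S T) (j b : Bool) {A : Type} [CommRing A]
    [Algebra B A] (p : S j →ₐ[B] A) : IsUP (G.x j) b p (up hTFP G j b p) :=
  Classical.choose_spec (exists_up hTFP G.inv (G.ch j) b p)

/-- The universal value. -/
noncomputable def uv (hTFP : Stmt_TFP) (G : TGD B S T) {w : ℕ} (F : GFn G w) (j : Bool) (A : Type)
    [CommRing A] [Algebra B A] (p q : S j →ₐ[B] A) : MvPolynomial (Bool × ℕ) A :=
  F.c j (MvPolynomial (Bool × ℕ) A) (up hTFP G j true p) (up hTFP G j false q)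

theorem uv_nat (hTFP : Stmt_TFP) (G : TGD B S T) {w : ℕ} (F : GFn G w) (j : Bool) {A A' : Type}
    [CommRing A] [CommRing A'] [Algebra B A] [Algebra B A'] (φ : A →ₐ[B] A')
    (p q : S j →ₐ[B] A) (hpq : DisjP p q) :
    uv hTFP G F j A' (φ.comp p) (φ.comp q) =
      MvPolynomial.map (φ : A →+* A') (uv hTFP G F j A p q) := by
  have hh := up_spec hTFP G j true p
  have hk := up_spec hTFP G j false q
  refine F.nat j (MvPolynomial.mapAlgHom φ) _ _ _ _ (up_vpair hpq hh hk) (fun f => ?_)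
    (fun f => ?_)
  · rw [← mp_apply, ← up_unique hTFP G.inv (G.ch j) (up_map hh φ)
      (up_spec hTFP G j true (φ.comp p))]
  · rw [← mp_apply, ← up_unique hTFP G.inv (G.ch j) (up_map hk φ)
      (up_spec hTFP G j false (φ.comp q))]

/-- A unit difference makes the points disjoint. -/
theorem disj_of_unit {S' A : Type} [CommRing S'] [CommRing A] [Algebra B S'] [Algebra B A]
    {p q : S' →ₐ[B] A} {x : S'} (h : IsUnit (p x - q x)) : DisjP p q :=
  Ideal.eq_top_of_isUnit_mem _ (Ideal.subset_span ⟨x, rfl⟩) h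

/-- The coefficients of the monomial `m` of largest weight. -/
noncomputable def pfun (hTFP : Stmt_TFP) (hTGT : Stmt_TGT) (G : TGD B S T) {w : ℕ} (F : GFn G w)
    (m : (Bool × ℕ) →₀ ℕ)
    (hm : ∀ (j : Bool) {A : Type} [CommRing A] [Algebra B A] (p q : S j →ₐ[B] A), DisjP p q →
      ∀ m', wt m < wt m' → MvPolynomial.coeff m' (uv hTFP G F j A p q) = 0) :
    PFun G (w + wtb true m) (w + wtb false m) where
  e j A _ _ p q := MvPolynomial.coeff m (uv hTFP G F j A p q)
  nat j _ _ _ _ _ _ φ p q hpq := by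
    rw [uv_nat hTFP G F j φ p q hpq, MvPolynomial.coeff_map]
    rfl
  trans p q h := by
    refine hTGT G F p q h (fun j => up hTFP G j true (p.comp (G.i j)))
      (fun j => up hTFP G j false (q.comp (G.i j))) (fun j => up_spec hTFP G j true _)
      (fun j => up_spec hTFP G j false _) (wt m) (fun j m' hm' => ?_) m rfl
    exact hm j (p.comp (G.i j)) (q.comp (G.i j)) (disj_of_unit (h j)) m' hm'

/-- The universal values vanish. -/
theorem uv_zero (hTFP : Stmt_TFP) (hTGN : Stmt_TGN) (hTGT : Stmt_TGT) (hTGC : Stmt_TGC)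
    (G : TGD B S T) {w : ℕ} (F : GFn G w) (hw : 1 ≤ w) (j : Bool) {A : Type} [CommRing A]
    [Algebra B A] (p q : S j →ₐ[B] A) (hpq : DisjP p q) : uv hTFP G F j A p q = 0 := by
  have key : ∀ K : ℕ, (∀ (j : Bool) {A : Type} [CommRing A] [Algebra B A] (p q : S j →ₐ[B] A),
      DisjP p q → ∀ m, K ≤ wt m → MvPolynomial.coeff m (uv hTFP G F j A p q) = 0) →
      ∀ (j : Bool) {A : Type} [CommRing A] [Algebra B A] (p q : S j →ₐ[B] A),
      DisjP p q → ∀ m, MvPolynomial.coeff m (uv hTFP G F j A p q) = 0 := by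
    intro K
    induction K with
    | zero => exact fun h j {A} _ _ p q hpq m => h j p q hpq m (Nat.zero_le _)
    | succ K ih =>
      intro h
      refine ih ?_
      intro j A _ _ p q hpq m hm
      refine hTGC G (pfun hTFP hTGT G F m fun j {A} _ _ p q hpq m' hm' =>
        h j p q hpq m' (by omega)) (by omega) (by omega) j p q hpq
  obtain ⟨N, hN⟩ := hTGN G F
  ext m
  rw [MvPolynomial.coeff_zero]
  exact key (N + 1) (fun j {A} _ _ p q hpq m hm => hN j p q _ _ hpq (up_spec hTFP G j true p)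
    (up_spec hTFP G j false q) m hm) j p q hpq m

/-- The specialization of the universal formal points. -/
theorem spec {S' A : Type} [CommRing S'] [CommRing A] [Algebra B S'] [Algebra B A] {x : S'}
    {Δ : Derivation B S' S'} (hTFP : Stmt_TFP) (hB : ∀ n : ℕ, n ≠ 0 → IsUnit (n : B))
    (hx : IsChart B S' x Δ) {b : Bool} {h : S' →ₐ[B] PowerSeries (MvPolynomial (Bool × ℕ) A)}
    {h' : S' →ₐ[B] PowerSeries A} {p : S' →ₐ[B] A} (hh : IsUP x b p h)
    (h0 : ∀ f, PowerSeries.constantCoeff (h' f) = p f) (h1 : PowerSeries.coeff 1 (h' x) = 1)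
    (Ψ : MvPolynomial (Bool × ℕ) A →ₐ[B] A) (hC : ∀ a, Ψ (MvPolynomial.C a) = a)
    (hX : ∀ n, Ψ (MvPolynomial.X (b, n)) = PowerSeries.coeff (n + 2) (h' x)) (f : S') :
    h' f = PowerSeries.map (Ψ : MvPolynomial (Bool × ℕ) A →+* A) (h f) := by
  rw [← mp_apply]
  refine DFunLike.congr_fun ((hTFP hB hx (A := A)).1 h' (mp Ψ h) (fun f => ?_) ?_) f
  · rw [h0, mp_apply, ← PowerSeries.coeff_zero_eq_constantCoeff_apply, PowerSeries.coeff_map,
      PowerSeries.coeff_zero_eq_constantCoeff_apply, hh.1]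
    exact (hC _).symm
  · rw [mp_apply, hh.2]
    ext n
    rw [PowerSeries.coeff_map, map_add, PowerSeries.coeff_C, coeff_gs]
    rcases n with _ | _ | n
    · rw [if_pos rfl, if_pos rfl, add_zero, PowerSeries.coeff_zero_eq_constantCoeff_apply, h0]
      exact (hC _).symm
    · rw [Nat.zero_add, if_neg one_ne_zero, if_neg one_ne_zero, if_pos rfl, zero_add, h1,
        map_one]
    · rw [if_neg (by omega), if_neg (by omega), if_neg (by omega), zero_add]
      exact (hX n).symm

end

end TGG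

open TGG in
theorem t_TGG (hTFP : Stmt_TFP) (hTGN : Stmt_TGN) (hTGT : Stmt_TGT) (hTGC : Stmt_TGC) :
    Stmt_TGG := by
  intro B _ S _ _ T _ _ G w F hw j A _ _ h k hhk
  obtain ⟨u, hu⟩ := hhk.1
  obtain ⟨v, hv⟩ := hhk.2.1
  have hpq : DisjP (cp h) (cp k) := hhk.2.2
  rw [← F.hom j h k (rs ((u⁻¹ : Aˣ) : A) h) (rs ((v⁻¹ : Aˣ) : A) k) u⁻¹ v⁻¹ hhk
    (fun f => rfl) (fun f => rfl)]
  suffices H : F.c j A (rs ((u⁻¹ : Aˣ) : A) h) (rs ((v⁻¹ : Aˣ) : A) k) = 0 by
    rw [H, mul_zero]
  have hh := up_spec hTFP G j true (cp h)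
  have hk := up_spec hTFP G j false (cp k)
  let ψ : MvPolynomial (Bool × ℕ) A →ₐ[A] A := MvPolynomial.aeval fun v' =>
    if v'.1 = true then PowerSeries.coeff (v'.2 + 2) (rs ((u⁻¹ : Aˣ) : A) h (G.x j))
    else PowerSeries.coeff (v'.2 + 2) (rs ((v⁻¹ : Aˣ) : A) k (G.x j))
  have r0 : ∀ (l : A) (h : S j →ₐ[B] PowerSeries A) (f : S j),
      PowerSeries.constantCoeff (rs l h f) = cp h f := by
    intro l h f
    rw [rs_apply, cp_apply, ← PowerSeries.coeff_zero_eq_constantCoeff_apply,
      PowerSeries.coeff_rescale, pow_zero, one_mul,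
      PowerSeries.coeff_zero_eq_constantCoeff_apply]
  have r1 : ∀ (u : Aˣ) (h : S j →ₐ[B] PowerSeries A), (u : A) = PowerSeries.coeff 1 (h (G.x j)) →
      PowerSeries.coeff 1 (rs ((u⁻¹ : Aˣ) : A) h (G.x j)) = 1 := by
    intro u h hu
    rw [rs_apply, PowerSeries.coeff_rescale, pow_one, ← hu, Units.inv_mul]
  have e := F.nat j (ψ.restrictScalars B) (up hTFP G j true (cp h)) (up hTFP G j false (cp k))
    (rs ((u⁻¹ : Aˣ) : A) h) (rs ((v⁻¹ : Aˣ) : A) k) (up_vpair hpq hh hk)
    (spec hTFP G.inv (G.ch j) hh (r0 _ h) (r1 u h hu) _ (fun a => ?_) fun n => ?_)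
    (spec hTFP G.inv (G.ch j) hk (r0 _ k) (r1 v k hv) _ (fun a => ?_) fun n => ?_)
  · rw [e]
    have z : F.c j (MvPolynomial (Bool × ℕ) A) (up hTFP G j true (cp h))
        (up hTFP G j false (cp k)) = 0 := uv_zero hTFP hTGN hTGT hTGC G F hw j (cp h) (cp k) hpq
    rw [z, map_zero]
  · change ψ (MvPolynomial.C a) = a
    rw [MvPolynomial.aeval_C]
    rfl
  · change ψ (MvPolynomial.X (true, n)) = _
    rw [MvPolynomial.aeval_X, if_pos rfl]
  · change ψ (MvPolynomial.C a) = a
    rw [MvPolynomial.aeval_C]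
    rfl
  · change ψ (MvPolynomial.X (false, n)) = _
    rw [MvPolynomial.aeval_X, if_neg Bool.false_ne_true]

end Pool.Agent.MG.G0
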