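import Pool.Agent.MG.G0.StmtsTG

/-!
# TGN: the values at the formal points with indeterminate coefficients have bounded weight
-/

open TensorProduct

namespace Pool.Agent.MG.G0

namespace TGN

section

variable {B S A A' : Type} [CommRing B] [CommRing S] [CommRing A] [CommRing A'] [Algebra B S]
  [Algebra B A] [Algebra B A']

/-- The formal point with indeterminate coefficients. -/
theorem exists_up (h1 : Stmt_TFP) {x : S} {Δ : Derivation B S S}
    (hn : ∀ n : ℕ, n ≠ 0 → IsUnit (n : B)) (hc : IsChart B S x Δ) (b : Bool) (p : S →ₐ[B] A) :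
    ∃ h : S →ₐ[B] PowerSeries (MvPolynomial (Bool × ℕ) A), IsUP x b p h := by
  let c : A →ₐ[B] MvPolynomial (Bool × ℕ) A := IsScalarTower.toAlgHom B A _
  have hg : PowerSeries.constantCoeff (gs A b) = 0 := by
    rw [gs, ← PowerSeries.coeff_zero_eq_constantCoeff_apply, PowerSeries.coeff_mk]
    simp
  obtain ⟨h, ha, hb, -⟩ := (h1 hn hc (A := MvPolynomial (Bool × ℕ) A)).2.1 (c.comp p) (gs A b) hg
  exact ⟨h, ha, hb⟩

theorem gs_map (φ : A →+* A') (b : Bool) :
    PowerSeries.map (MvPolynomial.map φ : MvPolynomial (Bool × ℕ) A →+* _) (gs A b) = gs A' b := by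
  ext1 n
  rw [PowerSeries.coeff_map, gs, gs, PowerSeries.coeff_mk, PowerSeries.coeff_mk]
  split_ifs
  · rw [map_zero]
  · rw [map_one]
  · rw [MvPolynomial.map_X]

/-- The formal point is natural. -/
theorem up_map (h1 : Stmt_TFP) {x : S} {Δ : Derivation B S S}
    (hn : ∀ n : ℕ, n ≠ 0 → IsUnit (n : B)) (hc : IsChart B S x Δ) (b : Bool) (φ : A →ₐ[B] A')
    (p : S →ₐ[B] A) (h : S →ₐ[B] PowerSeries (MvPolynomial (Bool × ℕ) A))
    (h' : S →ₐ[B] PowerSeries (MvPolynomial (Bool × ℕ) A')) (hh : IsUP x b p h)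
    (hh' : IsUP x b (φ.comp p) h') (f : S) :
    h' f = PowerSeries.map
      ((MvPolynomial.mapAlgHom φ : MvPolynomial (Bool × ℕ) A →ₐ[B] MvPolynomial (Bool × ℕ) A') :
        MvPolynomial (Bool × ℕ) A →+* MvPolynomial (Bool × ℕ) A') (h f) := by
  let ψ : MvPolynomial (Bool × ℕ) A →ₐ[B] MvPolynomial (Bool × ℕ) A' := MvPolynomial.mapAlgHom φ
  have key : h' = (PowerSeries.mapAlgHom ψ).comp h := by
    refine (h1 hn hc (A := MvPolynomial (Bool × ℕ) A')).1 _ _ (fun f => ?_) ?_
    · rw [hh'.1]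
      change (MvPolynomial.C (φ (p f)) : MvPolynomial (Bool × ℕ) A') =
        PowerSeries.constantCoeff (PowerSeries.map
          (ψ : MvPolynomial (Bool × ℕ) A →+* MvPolynomial (Bool × ℕ) A') (h f))
      have h2 : PowerSeries.constantCoeff (PowerSeries.map
          (ψ : MvPolynomial (Bool × ℕ) A →+* MvPolynomial (Bool × ℕ) A') (h f)) =
          ψ (PowerSeries.constantCoeff (h f)) := by
        rw [← PowerSeries.coeff_zero_eq_constantCoeff_apply, PowerSeries.coeff_map,
          PowerSeries.coeff_zero_eq_constantCoeff_apply]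
        rfl
      rw [h2, hh.1]
      change _ = MvPolynomial.map _ _
      rw [MvPolynomial.map_C]
      rfl
    · rw [hh'.2]
      change PowerSeries.C (MvPolynomial.C (φ (p x))) + gs A' b =
        PowerSeries.map (ψ : MvPolynomial (Bool × ℕ) A →+* MvPolynomial (Bool × ℕ) A') (h x)
      rw [hh.2, map_add, PowerSeries.map_C]
      congr 1
      · change _ = PowerSeries.C (MvPolynomial.map _ _)
        rw [MvPolynomial.map_C]
        rfl
      · exact (gs_map (φ : A →+* A') b).symm
  rw [key]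
  rfl

end

section

variable {B : Type} [CommRing B] {S : Bool → Type} [∀ j, CommRing (S j)]
  [∀ j, Algebra B (S j)] {T : Type} [CommRing T] [Algebra B T]

theorem vpair (G : TGD B S T) (j : Bool) {A : Type} [CommRing A] [Algebra B A]
    {p q : S j →ₐ[B] A} {h k : S j →ₐ[B] PowerSeries (MvPolynomial (Bool × ℕ) A)}
    (hd : DisjP p q) (hh : IsUP (G.x j) true p h) (hk : IsUP (G.x j) false q k) :
    VPair (G.x j) h k := by
  have hc : ∀ (b : Bool) (a : A), PowerSeries.coeff 1
      (PowerSeries.C (MvPolynomial.C (σ := Bool × ℕ) a) + gs A b) = 1 := by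
    intro b a
    rw [map_add, PowerSeries.coeff_C, gs, PowerSeries.coeff_mk]
    simp
  refine ⟨?_, ?_, ?_⟩
  · rw [hh.2, hc]
    exact isUnit_one
  · rw [hk.2, hc]
    exact isUnit_one
  · have h2 : (Set.range fun f : S j =>
        PowerSeries.constantCoeff (h f) - PowerSeries.constantCoeff (k f)) =
        (MvPolynomial.C (R := A) (σ := Bool × ℕ)) '' (Set.range fun f : S j => p f - q f) := by
      rw [← Set.range_comp]
      congr 1
      funext f
      rw [hh.1, hk.1, Function.comp_apply, map_sub]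
    rw [h2, ← Ideal.map_span]
    have h3 : Ideal.span (Set.range fun f : S j => p f - q f) = ⊤ := hd
    rw [h3, Ideal.map_top]

/-- The values are natural. -/
theorem nat_val (h1 : Stmt_TFP) (G : TGD B S T) {w : ℕ} (F : GFn G w) (j : Bool) {A A' : Type}
    [CommRing A] [Algebra B A] [CommRing A'] [Algebra B A'] (φ : A →ₐ[B] A')
    {p q : S j →ₐ[B] A} {h k : S j →ₐ[B] PowerSeries (MvPolynomial (Bool × ℕ) A)}
    (hd : DisjP p q) (hh : IsUP (G.x j) true p h) (hk : IsUP (G.x j) false q k)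
    {h' k' : S j →ₐ[B] PowerSeries (MvPolynomial (Bool × ℕ) A')}
    (hh' : IsUP (G.x j) true (φ.comp p) h') (hk' : IsUP (G.x j) false (φ.comp q) k')
    (m : (Bool × ℕ) →₀ ℕ) :
    MvPolynomial.coeff m (F.c j (MvPolynomial (Bool × ℕ) A') h' k') =
      φ (MvPolynomial.coeff m (F.c j (MvPolynomial (Bool × ℕ) A) h k)) := by
  rw [F.nat j (MvPolynomial.mapAlgHom φ) h k h' k' (vpair G j hd hh hk)
    (fun f => up_map h1 G.inv (G.ch j) true φ p h h' hh hh' f)
    (fun f => up_map h1 G.inv (G.ch j) false φ q k k' hk hk' f)]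
  rw [MvPolynomial.mapAlgHom_apply, MvPolynomial.coeff_map]
  rfl

/-- The universal pair. -/
noncomputable def pu (S : Type) {B : Type} [CommRing B] [CommRing S] [Algebra B S]
    (ρ : S ⊗[B] S) : S →ₐ[B] Localization.Away ρ :=
  (IsScalarTower.toAlgHom B (S ⊗[B] S) (Localization.Away ρ)).comp
    Algebra.TensorProduct.includeRight

/-- The universal pair. -/
noncomputable def qu (S : Type) {B : Type} [CommRing B] [CommRing S] [Algebra B S]
    (ρ : S ⊗[B] S) : S →ₐ[B] Localization.Away ρ :=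
  (IsScalarTower.toAlgHom B (S ⊗[B] S) (Localization.Away ρ)).comp
    Algebra.TensorProduct.includeLeft

theorem disj_u (S : Type) {B : Type} [CommRing B] [CommRing S] [Algebra B S]
    {ρ : S ⊗[B] S} (hρ : ρ ∈ KaehlerDifferential.ideal B S) : DisjP (pu S ρ) (qu S ρ) := by
  rw [← KaehlerDifferential.span_range_eq_ideal] at hρ
  have h2 := Ideal.mem_map_of_mem (algebraMap (S ⊗[B] S) (Localization.Away ρ)) hρ
  rw [Ideal.map_span, ← Set.range_comp] at h2
  have h3 : (Set.range fun f : S => pu S ρ f - qu S ρ f) =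
      Set.range (⇑(algebraMap (S ⊗[B] S) (Localization.Away ρ)) ∘
        fun s : S => (1 : S) ⊗ₜ[B] s - s ⊗ₜ[B] (1 : S)) := by
    congr 1
    funext f
    rw [Function.comp_apply, map_sub]
    rfl
  change Ideal.span (Set.range fun f : S => pu S ρ f - qu S ρ f) = ⊤
  rw [h3]
  exact Ideal.eq_top_of_isUnit_mem _ h2 (IsLocalization.Away.algebraMap_isUnit ρ)

end

end TGN

theorem t_TGN (h1 : Stmt_TFP) : Stmt_TGN := by
  intro B _ S _ _ T _ _ G w F
  classical
  -- generators of the ideal of the diagonal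
  have hfg : ∀ j : Bool, ∃ s : Finset (S j ⊗[B] S j),
      Ideal.span (s : Set (S j ⊗[B] S j)) = KaehlerDifferential.ideal B (S j) := by
    intro j
    have := G.ft j
    exact KaehlerDifferential.ideal_fg B (S j)
  choose s hs using hfg
  have hup : ∀ (j : Bool) (ρ : S j ⊗[B] S j), ∃ h : S j →ₐ[B]
      PowerSeries (MvPolynomial (Bool × ℕ) (Localization.Away ρ)),
      IsUP (G.x j) true (TGN.pu (S j) ρ) h :=
    fun j ρ => TGN.exists_up h1 G.inv (G.ch j) true _
  have huq : ∀ (j : Bool) (ρ : S j ⊗[B] S j), ∃ h : S j →ₐ[B]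
      PowerSeries (MvPolynomial (Bool × ℕ) (Localization.Away ρ)),
      IsUP (G.x j) false (TGN.qu (S j) ρ) h :=
    fun j ρ => TGN.exists_up h1 G.inv (G.ch j) false _
  choose hu hhu using hup
  choose ku hku using huq
  -- the bound
  have hb : ∀ (j : Bool), ∃ N : ℕ, ∀ ρ ∈ s j, ∀ m, N < wt m → MvPolynomial.coeff m
      (F.c j (MvPolynomial (Bool × ℕ) (Localization.Away ρ)) (hu j ρ) (ku j ρ)) = 0 := by
    intro j
    refine ⟨(s j).sup fun ρ =>
      (F.c j (MvPolynomial (Bool × ℕ) (Localization.Away ρ)) (hu j ρ) (ku j ρ)).support.sup wt,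
      fun ρ hρ m hm => ?_⟩
    by_contra hne
    have h2 : wt m ≤ (F.c j (MvPolynomial (Bool × ℕ) (Localization.Away ρ)) (hu j ρ)
        (ku j ρ)).support.sup wt := Finset.le_sup (f := wt) (MvPolynomial.mem_support_iff.2 hne)
    have h3 := Finset.le_sup (f := fun ρ =>
      (F.c j (MvPolynomial (Bool × ℕ) (Localization.Away ρ)) (hu j ρ) (ku j ρ)).support.sup wt) hρ
    exact absurd (lt_of_lt_of_le hm (h2.trans h3)) (lt_irrefl _)
  choose N hN using hb
  refine ⟨N true + N false, ?_⟩
  intro j A _ _ p q h k hd hh hk m hm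
  have hNj : N j < wt m := lt_of_le_of_lt (by cases j <;> omega) hm
  set x := MvPolynomial.coeff m (F.c j (MvPolynomial (Bool × ℕ) A) h k) with hx
  -- the classifying map
  let π : S j ⊗[B] S j →ₐ[B] A := Algebra.TensorProduct.lift q p fun _ _ => Commute.all _ _
  have hloc : ∀ ρ ∈ s j, ∃ n : ℕ, (π ρ) ^ n * x = 0 := by
    intro ρ hρ
    have hρK : ρ ∈ KaehlerDifferential.ideal B (S j) := by
      rw [← hs j]
      exact Ideal.subset_span hρ
    let φ : A →ₐ[B] Localization.Away (π ρ) := IsScalarTower.toAlgHom B A _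
    have hunit : IsUnit ((φ.comp π) ρ) := IsLocalization.Away.algebraMap_isUnit (π ρ)
    let ψ₀ : Localization.Away ρ →+* Localization.Away (π ρ) :=
      IsLocalization.Away.lift ρ (g := ((φ.comp π : S j ⊗[B] S j →ₐ[B] _) :
        S j ⊗[B] S j →+* Localization.Away (π ρ))) hunit
    have hψ₀ : ∀ r : S j ⊗[B] S j, ψ₀ (algebraMap _ _ r) = φ (π r) := fun r =>
      IsLocalization.Away.lift_eq ρ hunit r
    let ψ : Localization.Away ρ →ₐ[B] Localization.Away (π ρ) :=
      { toRingHom := ψ₀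
        commutes' := fun b => by
          change ψ₀ _ = _
          rw [IsScalarTower.algebraMap_apply B (S j ⊗[B] S j) (Localization.Away ρ), hψ₀,
            AlgHom.commutes, AlgHom.commutes] }
    have hψ : ∀ r : S j ⊗[B] S j, ψ (algebraMap _ _ r) = φ (π r) := hψ₀
    have hp : ψ.comp (TGN.pu (S j) ρ) = φ.comp p := by
      ext f
      change ψ (algebraMap _ _ ((1 : S j) ⊗ₜ[B] f)) = φ (p f)
      rw [hψ]
      change φ (Algebra.TensorProduct.lift q p _ _) = _
      rw [Algebra.TensorProduct.lift_tmul, map_one, one_mul]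
    have hq : ψ.comp (TGN.qu (S j) ρ) = φ.comp q := by
      ext f
      change ψ (algebraMap _ _ (f ⊗ₜ[B] (1 : S j))) = φ (q f)
      rw [hψ]
      change φ (Algebra.TensorProduct.lift q p _ _) = _
      rw [Algebra.TensorProduct.lift_tmul, map_one, mul_one]
    obtain ⟨h', hh'⟩ := TGN.exists_up h1 G.inv (G.ch j) true (φ.comp p)
    obtain ⟨k', hk'⟩ := TGN.exists_up h1 G.inv (G.ch j) false (φ.comp q)
    have e1 := TGN.nat_val h1 G F j φ hd hh hk hh' hk' m
    have e2 := TGN.nat_val h1 G F j ψ (TGN.disj_u (S j) hρK) (hhu j ρ) (hku j ρ)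
      (h' := h') (k' := k') (by rw [hp]; exact hh') (by rw [hq]; exact hk') m
    rw [hN j ρ hρ m hNj, map_zero] at e2
    rw [e2] at e1
    have e3 : algebraMap A (Localization.Away (π ρ)) x = 0 := e1.symm
    obtain ⟨⟨_, n, rfl⟩, hc⟩ := (IsLocalization.map_eq_zero_iff (Submonoid.powers (π ρ))
      (Localization.Away (π ρ)) x).1 e3
    exact ⟨n, hc⟩
  -- the conclusion
  let I : Ideal A := Ideal.span {x} |>.annihilator
  have hI : ∀ a : A, a * x = 0 → a ∈ (Ideal.span {x} : Ideal A).annihilator := by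
    intro a ha
    rw [Submodule.mem_annihilator_span_singleton]
    exact ha
  have h2 : Ideal.span (Set.range fun f : S j => p f - q f) ≤
      (Ideal.span {x} : Ideal A).annihilator.radical := by
    rw [Ideal.span_le]
    rintro _ ⟨f, rfl⟩
    have h3 : (1 : S j) ⊗ₜ[B] f - f ⊗ₜ[B] (1 : S j) ∈ Ideal.span (s j : Set (S j ⊗[B] S j)) := by
      rw [hs j, ← KaehlerDifferential.span_range_eq_ideal]
      exact Ideal.subset_span ⟨f, rfl⟩
    have h4 := Ideal.mem_map_of_mem (π : S j ⊗[B] S j →+* A) h3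
    rw [Ideal.map_span] at h4
    have h5 : Ideal.span ((π : S j ⊗[B] S j →+* A) '' (s j : Set (S j ⊗[B] S j))) ≤
        (Ideal.span {x} : Ideal A).annihilator.radical := by
      rw [Ideal.span_le]
      rintro _ ⟨ρ, hρ, rfl⟩
      obtain ⟨n, hn⟩ := hloc ρ hρ
      exact ⟨n, hI _ hn⟩
    have h6 := h5 h4
    have h7 : (π : S j ⊗[B] S j →+* A) ((1 : S j) ⊗ₜ[B] f - f ⊗ₜ[B] (1 : S j)) = p f - q f := by
      change π _ = _
      rw [map_sub]
      change Algebra.TensorProduct.lift q p _ _ - Algebra.TensorProduct.lift q p _ _ = _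
      rw [Algebra.TensorProduct.lift_tmul, Algebra.TensorProduct.lift_tmul, map_one, map_one,
        one_mul, mul_one]
    rw [h7] at h6
    exact h6
  have h3 : Ideal.span (Set.range fun f : S j => p f - q f) = ⊤ := hd
  rw [h3, top_le_iff, Ideal.radical_eq_top] at h2
  have h4 : (1 : A) ∈ (Ideal.span {x} : Ideal A).annihilator := by rw [h2]; trivial
  rw [Submodule.mem_annihilator_span_singleton, one_smul] at h4
  exact h4

end Pool.Agent.MG.G0
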