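import Pool.Agent.MG.G0.StmtsTG

/-!
# TGR: a section which is regular outside a point and at the formal point is regular
-/

open TensorProduct

namespace Pool.Agent.MG.G0

namespace TGR

/-- Derivations of a chart. -/
theorem der_eq {B S M : Type} [CommRing B] [CommRing S] [Algebra B S] {x : S}
    {Δ : Derivation B S S} (h : IsChart B S x Δ) [AddCommGroup M] [Module B M] [Module S M]
    [IsScalarTower B S M] (E : Derivation B S M) (f : S) : E f = Δ f • E x := by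
  have h1 := congrArg E.liftKaehlerDifferential (h.gen f)
  rwa [map_smul, Derivation.liftKaehlerDifferential_comp_D,
    Derivation.liftKaehlerDifferential_comp_D] at h1

/-- Two homomorphisms which differ by a derivation. -/
theorem hom_sub {B S W : Type} [CommRing B] [CommRing S] [Algebra B S] {x : S}
    {Δ : Derivation B S S} (h : IsChart B S x Δ) [CommRing W] [Algebra B W] (σ τ : S →ₐ[B] W)
    (hst : ∀ f g, (σ f - τ f) * (σ g - τ g) = 0) (f : S) :
    σ f - τ f = σ (Δ f) * (σ x - τ x) := by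
  let _ : Algebra S W := σ.toRingHom.toAlgebra
  have : IsScalarTower B S W := IsScalarTower.of_algebraMap_eq fun b => (σ.commutes b).symm
  have hs : ∀ (f : S) (w : W), f • w = σ f * w := fun f w => rfl
  let E : Derivation B S W :=
    { toFun := fun f => σ f - τ f
      map_add' := fun f g => by rw [map_add, map_add]; ring
      map_smul' := fun b f => by
        rw [map_smul, map_smul, RingHom.id_apply, smul_sub]
      map_one_eq_zero' := by
        change σ 1 - τ 1 = 0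
        rw [map_one, map_one, sub_self]
      leibniz' := fun f g => by
        change σ (f * g) - τ (f * g) = f • (σ g - τ g) + g • (σ f - τ f)
        rw [hs, hs, map_mul, map_mul]
        linear_combination (-1 : W) * hst f g }
  exact der_eq h E f

section

variable {B S A : Type} [CommRing B] [CommRing S] [CommRing A] [Algebra B S] [Algebra B A]

theorem exq_tmul (q : S →ₐ[B] A) (a : A) (f : S) : exq q (a ⊗ₜ[B] f) = a * q f := by
  rw [exq, Algebra.TensorProduct.lift_tmul]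
  rfl

theorem exq_surj (q : S →ₐ[B] A) : Function.Surjective (exq q) := fun a =>
  ⟨a ⊗ₜ[B] 1, by rw [exq_tmul, map_one, mul_one]⟩

/-- The ideal of a point is finitely generated. -/
theorem fg [Algebra.FiniteType B S] (q : S →ₐ[B] A) : (RingHom.ker (exq q)).FG := by
  obtain ⟨n, f, hf⟩ := Algebra.FiniteType.iff_quotient_mvPolynomial''.1
    (Algebra.FiniteType.baseChange (R := B) (A := S) A)
  have h1 := Algebra.FinitePresentation.ker_fG_of_surjective ((exq q).comp f)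
    ((exq_surj q).comp hf)
  have h2 := h1.map (f : MvPolynomial (Fin n) A →+* A ⊗[B] S)
  have h3 : (RingHom.ker ((exq q).comp f).toRingHom).map
      (f : MvPolynomial (Fin n) A →+* A ⊗[B] S) = RingHom.ker (exq q) := by
    have h4 : RingHom.ker ((exq q).comp f).toRingHom =
        (RingHom.ker (exq q)).comap (f : MvPolynomial (Fin n) A →+* A ⊗[B] S) := by
      ext z
      rfl
    rw [h4]
    exact Ideal.map_comap_of_surjective (f : MvPolynomial (Fin n) A →+* A ⊗[B] S) hf _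
  rwa [h3] at h2

/-- The coordinate at the point. -/
noncomputable def yy (x : S) (q : S →ₐ[B] A) : A ⊗[B] S := 1 ⊗ₜ[B] x - q x ⊗ₜ[B] 1

theorem sub_mem_ker (q : S →ₐ[B] A) (f : S) :
    (1 ⊗ₜ[B] f - q f ⊗ₜ[B] 1 : A ⊗[B] S) ∈ RingHom.ker (exq q) := by
  change exq q _ = 0
  rw [map_sub, exq_tmul, exq_tmul, one_mul, map_one, mul_one, sub_self]

theorem yy_mem (x : S) (q : S →ₐ[B] A) : yy x q ∈ RingHom.ker (exq q) := sub_mem_ker q x

theorem sub_mem_sq {x : S} {Δ : Derivation B S S} (h : IsChart B S x Δ) (q : S →ₐ[B] A) (f : S) :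
    (1 ⊗ₜ[B] f - q f ⊗ₜ[B] 1 : A ⊗[B] S) - (q (Δ f) ⊗ₜ[B] 1) * yy x q ∈
      RingHom.ker (exq q) ^ 2 := by
  let I := RingHom.ker (exq q)
  let π : A ⊗[B] S →ₐ[B] (A ⊗[B] S) ⧸ I ^ 2 := Ideal.Quotient.mkₐ B (I ^ 2)
  let σ : S →ₐ[B] (A ⊗[B] S) ⧸ I ^ 2 := π.comp Algebra.TensorProduct.includeRight
  let τ : S →ₐ[B] (A ⊗[B] S) ⧸ I ^ 2 :=
    π.comp ((Algebra.TensorProduct.includeLeft : A →ₐ[B] A ⊗[B] S).comp q)
  have hπ : ∀ r, π r = 0 ↔ r ∈ I ^ 2 := fun r => Ideal.Quotient.eq_zero_iff_mem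
  have hst : ∀ f : S, σ f - τ f = π (1 ⊗ₜ[B] f - q f ⊗ₜ[B] 1) := fun f => (map_sub π _ _).symm
  have h1 := hom_sub h σ τ (fun f g => by
    rw [hst, hst, ← map_mul, hπ, pow_two]
    exact Ideal.mul_mem_mul (sub_mem_ker q f) (sub_mem_ker q g)) f
  rw [hst, hst, ← sub_eq_zero] at h1
  have h2 : σ (Δ f) = π (1 ⊗ₜ[B] Δ f) := rfl
  rw [h2, ← map_mul, ← map_sub, hπ] at h1
  have h3 : (1 ⊗ₜ[B] Δ f - q (Δ f) ⊗ₜ[B] 1 : A ⊗[B] S) * (1 ⊗ₜ[B] x - q x ⊗ₜ[B] 1) ∈ I ^ 2 := by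
    rw [pow_two]
    exact Ideal.mul_mem_mul (sub_mem_ker q _) (sub_mem_ker q _)
  have h4 := (I ^ 2).add_mem h1 h3
  have e : (1 ⊗ₜ[B] f - q f ⊗ₜ[B] 1 : A ⊗[B] S) - (q (Δ f) ⊗ₜ[B] 1) * yy x q =
      (1 ⊗ₜ[B] f - q f ⊗ₜ[B] 1 : A ⊗[B] S) - (1 ⊗ₜ[B] Δ f) * (1 ⊗ₜ[B] x - q x ⊗ₜ[B] 1) +
      (1 ⊗ₜ[B] Δ f - q (Δ f) ⊗ₜ[B] 1 : A ⊗[B] S) * (1 ⊗ₜ[B] x - q x ⊗ₜ[B] 1) := by
    rw [yy]
    ring
  rw [e]
  exact h4

theorem exists_lin {x : S} {Δ : Derivation B S S} (h : IsChart B S x Δ) (q : S →ₐ[B] A)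
    (r : A ⊗[B] S) : ∃ a : A, r - (exq q r) ⊗ₜ[B] 1 - (a ⊗ₜ[B] 1) * yy x q ∈
      RingHom.ker (exq q) ^ 2 := by
  induction r using TensorProduct.induction_on with
  | zero =>
    refine ⟨0, ?_⟩
    rw [map_zero, TensorProduct.zero_tmul, zero_mul, sub_zero, sub_zero]
    exact zero_mem _
  | tmul a f =>
    refine ⟨a * q (Δ f), ?_⟩
    have e : (a ⊗ₜ[B] f : A ⊗[B] S) - (exq q (a ⊗ₜ[B] f)) ⊗ₜ[B] 1 -
        ((a * q (Δ f)) ⊗ₜ[B] 1) * yy x q = (a ⊗ₜ[B] 1) *
          ((1 ⊗ₜ[B] f - q f ⊗ₜ[B] 1 : A ⊗[B] S) - (q (Δ f) ⊗ₜ[B] 1) * yy x q) := by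
      rw [exq_tmul, mul_sub, mul_sub, ← mul_assoc, Algebra.TensorProduct.tmul_mul_tmul,
        Algebra.TensorProduct.tmul_mul_tmul, Algebra.TensorProduct.tmul_mul_tmul, mul_one, one_mul,
        mul_one]
    rw [e]
    exact Ideal.mul_mem_left _ _ (sub_mem_sq h q f)
  | add r s hr hs =>
    obtain ⟨a, ha⟩ := hr
    obtain ⟨b, hb⟩ := hs
    refine ⟨a + b, ?_⟩
    have e : r + s - (exq q (r + s)) ⊗ₜ[B] 1 - ((a + b) ⊗ₜ[B] 1) * yy x q =
        (r - (exq q r) ⊗ₜ[B] 1 - (a ⊗ₜ[B] 1) * yy x q) +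
        (s - (exq q s) ⊗ₜ[B] 1 - (b ⊗ₜ[B] 1) * yy x q) := by
      rw [map_add, TensorProduct.add_tmul, TensorProduct.add_tmul]
      ring
    rw [e]
    exact add_mem ha hb

theorem exists_pow {x : S} {Δ : Derivation B S S} (h : IsChart B S x Δ) (q : S →ₐ[B] A) (n : ℕ) :
    ∀ r ∈ RingHom.ker (exq q) ^ n, ∃ a : A, r - (a ⊗ₜ[B] 1) * yy x q ^ n ∈
      RingHom.ker (exq q) ^ (n + 1) := by
  induction n with
  | zero =>
    intro r _
    refine ⟨exq q r, ?_⟩
    rw [pow_zero, mul_one, zero_add, pow_one]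
    change exq q _ = 0
    rw [map_sub, exq_tmul, map_one, mul_one, sub_self]
  | succ n ih =>
    intro r hr
    rw [pow_succ] at hr
    refine Submodule.mul_induction_on hr ?_ ?_
    · intro u hu v hv
      obtain ⟨a, ha⟩ := ih u hu
      obtain ⟨b, hb⟩ := exists_lin h q v
      have hv' : exq q v = 0 := hv
      rw [hv', TensorProduct.zero_tmul, sub_zero] at hb
      refine ⟨a * b, ?_⟩
      have e : u * v - ((a * b) ⊗ₜ[B] 1) * yy x q ^ (n + 1) =
          (u - (a ⊗ₜ[B] 1) * yy x q ^ n) * v +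
          ((a ⊗ₜ[B] 1) * yy x q ^ n) * (v - (b ⊗ₜ[B] 1) * yy x q) := by
        have e1 : ((a * b) ⊗ₜ[B] 1 : A ⊗[B] S) = (a ⊗ₜ[B] 1) * (b ⊗ₜ[B] 1) := by
          rw [Algebra.TensorProduct.tmul_mul_tmul, mul_one]
        rw [e1]
        ring
      rw [e]
      refine add_mem ?_ ?_
      · rw [pow_succ (RingHom.ker (exq q)) (n + 1)]
        exact Ideal.mul_mem_mul ha hv
      · rw [show n + 1 + 1 = n + 2 from rfl, pow_add]
        exact Ideal.mul_mem_mul (Ideal.mul_mem_left _ _ (Ideal.pow_mem_pow (yy_mem x q) n)) hb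
    · rintro r s ⟨a, ha⟩ ⟨b, hb⟩
      refine ⟨a + b, ?_⟩
      have e : r + s - ((a + b) ⊗ₜ[B] 1) * yy x q ^ (n + 1) =
          (r - (a ⊗ₜ[B] 1) * yy x q ^ (n + 1)) + (s - (b ⊗ₜ[B] 1) * yy x q ^ (n + 1)) := by
        rw [TensorProduct.add_tmul]
        ring
      rw [e]
      exact add_mem ha hb

variable {x : S} {q : S →ₐ[B] A} {h : A ⊗[B] S →ₐ[A] PowerSeries A}

theorem h_tmul (a : A) : h (a ⊗ₜ[B] 1) = PowerSeries.C a := h.commutes a

theorem h_yy (hx : h (1 ⊗ₜ[B] x) = PowerSeries.C (q x) + PowerSeries.X) :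
    h (yy x q) = PowerSeries.X := by
  rw [yy, map_sub, hx, h_tmul, add_sub_cancel_left]

theorem coeff_of_mem (h0 : ∀ r, PowerSeries.constantCoeff (h r) = exq q r) {n : ℕ}
    {r : A ⊗[B] S} (hr : r ∈ RingHom.ker (exq q) ^ n) {m : ℕ} (hm : m < n) :
    PowerSeries.coeff m (h r) = 0 := by
  have h1 : RingHom.ker (exq q) ≤ (Ideal.span {(PowerSeries.X : PowerSeries A)}).comap h := by
    intro s hs
    rw [Ideal.mem_comap, Ideal.mem_span_singleton, PowerSeries.X_dvd_iff, h0]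
    exact hs
  have h2 : r ∈ (Ideal.span {(PowerSeries.X : PowerSeries A)} ^ n).comap h :=
    Ideal.le_comap_pow h n (Ideal.pow_right_mono h1 n hr)
  rw [Ideal.mem_comap, Ideal.span_singleton_pow, Ideal.mem_span_singleton,
    PowerSeries.X_pow_dvd_iff] at h2
  exact h2 m hm

theorem mem_pow {Δ : Derivation B S S} (hc : IsChart B S x Δ)
    (h0 : ∀ r, PowerSeries.constantCoeff (h r) = exq q r)
    (hx : h (1 ⊗ₜ[B] x) = PowerSeries.C (q x) + PowerSeries.X) (n : ℕ) (r : A ⊗[B] S)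
    (hr : ∀ m < n, PowerSeries.coeff m (h r) = 0) : r ∈ RingHom.ker (exq q) ^ n := by
  induction n with
  | zero =>
    rw [pow_zero, Ideal.one_eq_top]
    exact Submodule.mem_top
  | succ n ih =>
    have h1 := ih fun m hm => hr m (by omega)
    obtain ⟨a, ha⟩ := exists_pow hc q n r h1
    have h2 := coeff_of_mem h0 ha (Nat.lt_succ_self n)
    rw [map_sub, map_mul, map_pow, h_tmul, h_yy hx, map_sub, hr n (Nat.lt_succ_self n),
      PowerSeries.coeff_C_mul, PowerSeries.coeff_X_pow_self, mul_one, zero_sub, neg_eq_zero] at h2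
    rwa [h2, TensorProduct.zero_tmul, zero_mul, sub_zero] at ha

end

end TGR

theorem t_TGR : Stmt_TGR := by
  intro B S _ _ _ x Δ _ hc hft A _ _ q h h0 hx
  refine ⟨TGR.fg q, fun n r hr => TGR.mem_pow hc h0 hx n r hr, fun N r hr hN => ?_⟩
  have hI := TGR.fg q
  change ∃ r', r = TGR.yy x q ^ N * r'
  have hr' : ∀ ρ ∈ RingHom.ker (exq q), ∃ (n : ℕ) (r' : A ⊗[B] S),
      ρ ^ n * r = TGR.yy x q ^ N * r' := hr
  clear hr
  generalize hy : TGR.yy x q = y at hr' ⊢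
  -- Nakayama
  have h1 : RingHom.ker (exq q) ≤ Ideal.span {y} ⊔ RingHom.ker (exq q) • RingHom.ker (exq q) := by
    intro s hs
    obtain ⟨a, ha⟩ := TGR.exists_lin hc q s
    have hs' : exq q s = 0 := hs
    rw [hs', TensorProduct.zero_tmul, sub_zero, hy] at ha
    rw [← sub_add_cancel s ((a ⊗ₜ[B] 1) * y), add_comm]
    refine Submodule.add_mem_sup (Ideal.mul_mem_left _ _ (Ideal.mem_span_singleton_self y)) ?_
    rwa [smul_eq_mul, ← pow_two]
  obtain ⟨e, he, he'⟩ := Submodule.exists_sub_one_mem_and_smul_le_of_fg_of_le_sup hI le_rfl h1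
  have h2 : ∀ s ∈ RingHom.ker (exq q), e * s ∈ Ideal.span {y} := fun s hs =>
    he' (Submodule.smul_mem_pointwise_smul s e _ hs)
  have h3 : ∀ (n : ℕ), ∀ s ∈ RingHom.ker (exq q) ^ n, e ^ n * s ∈ Ideal.span {y ^ n} := by
    intro n
    induction n with
    | zero =>
      intro s _
      rw [pow_zero, pow_zero, Ideal.span_singleton_one]
      exact Submodule.mem_top
    | succ n ih =>
      intro s hs
      rw [pow_succ] at hs
      refine Submodule.mul_induction_on hs ?_ ?_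
      · intro u hu v hv
        have e1 : e ^ (n + 1) * (u * v) = (e ^ n * u) * (e * v) := by ring
        rw [e1, pow_succ, ← Ideal.span_singleton_mul_span_singleton]
        exact Ideal.mul_mem_mul (ih u hu) (h2 v hv)
      · intro u v hu hv
        rw [mul_add]
        exact add_mem hu hv
  -- powers of the ideal
  let J : Ideal (A ⊗[B] S) := Submodule.comap
    (LinearMap.toSpanSingleton (A ⊗[B] S) (A ⊗[B] S) r) (Ideal.span {y ^ N})
  have hJ : ∀ s, s ∈ J ↔ s * r ∈ Ideal.span {y ^ N} := fun s => Iff.rfl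
  have h4 : RingHom.ker (exq q) ≤ J.radical := by
    intro s hs
    obtain ⟨n, r', hr''⟩ := hr' s hs
    refine ⟨n, (hJ _).2 ?_⟩
    rw [hr'', Ideal.mem_span_singleton]
    exact dvd_mul_right _ _
  obtain ⟨M, hM⟩ := Ideal.exists_pow_le_of_le_radical_of_fg h4 hI
  have h5 : (1 - e) ^ M * r ∈ Ideal.span {y ^ N} := by
    refine (hJ _).1 (hM (Ideal.pow_mem_pow ?_ M))
    rw [← neg_sub]
    exact neg_mem he
  have h6 : e ^ N * r ∈ Ideal.span {y ^ N} := h3 N r (TGR.mem_pow hc h0 hx N r hN)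
  have h7 : IsCoprime (e ^ N) ((1 - e) ^ M) := IsCoprime.pow ⟨1, 1, by ring⟩
  obtain ⟨a, b, hab⟩ := h7
  have h8 : r ∈ Ideal.span {y ^ N} := by
    have e1 : r = a * (e ^ N * r) + b * ((1 - e) ^ M * r) := by
      linear_combination (-r) * hab
    rw [e1]
    exact add_mem (Ideal.mul_mem_left _ _ h6) (Ideal.mul_mem_left _ _ h5)
  exact Ideal.mem_span_singleton.1 h8

end Pool.Agent.MG.G0
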