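import Pool.Agent.MG.G0.StmtsTG

/-!
# TGT: the transformation of the coefficients of largest weight (PAPER_TG.md)
-/

open TensorProduct

namespace Pool.Agent.MG.G0

namespace TGT

theorem gs_coeff_zero (A : Type) [CommRing A] (b : Bool) :
    PowerSeries.coeff 0 (gs A b) = 0 := by
  rw [gs, PowerSeries.coeff_mk, if_pos rfl]

theorem gs_const (A : Type) [CommRing A] (b : Bool) :
    PowerSeries.constantCoeff (gs A b) = 0 := by
  rw [← PowerSeries.coeff_zero_eq_constantCoeff_apply, gs_coeff_zero]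

theorem gs_coeff_one (A : Type) [CommRing A] (b : Bool) :
    PowerSeries.coeff 1 (gs A b) = 1 := by
  rw [gs, PowerSeries.coeff_mk, if_neg one_ne_zero, if_pos rfl]

theorem gs_coeff_add (A : Type) [CommRing A] (b : Bool) (n : ℕ) :
    PowerSeries.coeff (n + 2) (gs A b) = MvPolynomial.X (b, n) := by
  rw [gs, PowerSeries.coeff_mk, if_neg (by omega), if_neg (by omega)]
  rfl

theorem inverse_C {A σ : Type} [CommRing A] {a : A} (ha : IsUnit a) :
    Ring.inverse (MvPolynomial.C (σ := σ) a) = MvPolynomial.C (Ring.inverse a) := by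
  obtain ⟨u, rfl⟩ := ha
  have h : (MvPolynomial.C (u : A) : MvPolynomial σ A) =
      ((Units.map (MvPolynomial.C (R := A) (σ := σ) : A →* MvPolynomial σ A) u :
        (MvPolynomial σ A)ˣ) : MvPolynomial σ A) := rfl
  rw [h, Ring.inverse_unit, Ring.inverse_unit, ← map_inv]
  rfl

/-- The rescaling of a formal point. -/
noncomputable def rs {B S A : Type} [CommRing B] [CommRing S] [CommRing A] [Algebra B S]
    [Algebra B A] (l : A) (h : S →ₐ[B] PowerSeries A) : S →ₐ[B] PowerSeries A :=
  { toRingHom := (PowerSeries.rescale l).comp (h : S →+* PowerSeries A)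
    commutes' := fun b => by
      change PowerSeries.rescale l (h (algebraMap B S b)) = _
      rw [AlgHom.commutes]
      ext n
      rw [PowerSeries.coeff_rescale, PowerSeries.algebraMap_apply, PowerSeries.coeff_C]
      split_ifs with h
      · rw [h, pow_zero, one_mul]
      · rw [mul_zero] }

theorem rs_apply {B S A : Type} [CommRing B] [CommRing S] [CommRing A] [Algebra B S]
    [Algebra B A] (l : A) (h : S →ₐ[B] PowerSeries A) (f : S) :
    rs l h f = PowerSeries.rescale l (h f) := rfl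

section

variable {B : Type} [CommRing B] {S : Bool → Type} [∀ j, CommRing (S j)]
  [∀ j, Algebra B (S j)] {T : Type} [CommRing T] [Algebra B T]

/-- The universal formal point of the intersection. -/
structure IsH (G : TGD B S T) {A : Type} [CommRing A] [Algebra B A] (b : Bool) (p : T →ₐ[B] A)
    (H : T →ₐ[B] PowerSeries (MvPolynomial (Bool × ℕ) A)) : Prop where
  const : ∀ f, PowerSeries.constantCoeff (H f) = MvPolynomial.C (p f)
  val : H (G.i true (G.x true)) = PowerSeries.C (MvPolynomial.C (p (G.i true (G.x true)))) +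
    gs A b
  fml : ∀ (f : T) (n : ℕ), PowerSeries.coeff n (H f) = ∑ k ∈ Finset.range (n + 1),
    Ring.inverse ((k.factorial : ℕ) : MvPolynomial (Bool × ℕ) A) *
      MvPolynomial.C (p ((⇑G.ΔT)^[k] f)) * PowerSeries.coeff n (gs A b ^ k)
  lin : ∀ f, PowerSeries.coeff 1 (H f) = MvPolynomial.C (p (G.ΔT f))

variable {A : Type} [CommRing A] [Algebra B A]

theorem exH (hTFP : Stmt_TFP) (G : TGD B S T) (b : Bool) (p : T →ₐ[B] A) :
    ∃ H : T →ₐ[B] PowerSeries (MvPolynomial (Bool × ℕ) A), IsH G b p H := by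
  have hT := hTFP G.inv G.chT (A := MvPolynomial (Bool × ℕ) A)
  obtain ⟨H, h1, h2, h3⟩ := hT.2.1
    ((IsScalarTower.toAlgHom B A (MvPolynomial (Bool × ℕ) A)).comp p) (gs A b) (gs_const A b)
  refine ⟨H, h1, h2, h3, fun f => ?_⟩
  rw [hT.2.2 H f, h1, h2, map_add, PowerSeries.coeff_C, if_neg one_ne_zero, zero_add,
    gs_coeff_one, mul_one]
  rfl

/-- On the first chart the universal formal point is the given one. -/
theorem comp_true (hTFP : Stmt_TFP) (G : TGD B S T) {b : Bool} {p : T →ₐ[B] A}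
    {H : T →ₐ[B] PowerSeries (MvPolynomial (Bool × ℕ) A)} (hH : IsH G b p H)
    {h : S true →ₐ[B] PowerSeries (MvPolynomial (Bool × ℕ) A)}
    (hh : IsUP (G.x true) b (p.comp (G.i true)) h) : H.comp (G.i true) = h := by
  refine (hTFP G.inv (G.ch true) (A := MvPolynomial (Bool × ℕ) A)).1 _ _ (fun f => ?_) ?_
  · rw [hh.1]
    exact hH.const (G.i true f)
  · rw [hh.2]
    exact hH.val

/-- The coefficients of the transformed point. -/
noncomputable def co2 (G : TGD B S T) (H : T →ₐ[B] PowerSeries (MvPolynomial (Bool × ℕ) A))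
    (l : A) (n : ℕ) : MvPolynomial (Bool × ℕ) A :=
  PowerSeries.coeff (n + 2) (rs (MvPolynomial.C l) (H.comp (G.i false)) (G.x false))

theorem co2_eq (hTWT : Stmt_TWT) (G : TGD B S T) {b : Bool} {p : T →ₐ[B] A}
    {H : T →ₐ[B] PowerSeries (MvPolynomial (Bool × ℕ) A)} (hH : IsH G b p H) {l : A}
    (hl : l * p G.g = 1) (n : ℕ) (m : (Bool × ℕ) →₀ ℕ) (hm : n + 1 ≤ wt m) :
    MvPolynomial.coeff m (co2 G H l n - MvPolynomial.C (l ^ (n + 1)) * MvPolynomial.X (b, n)) =
      0 := by
  have e1 : co2 G H l n = MvPolynomial.C (l ^ (n + 2)) *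
      PowerSeries.coeff (n + 2) (H (G.i false (G.x false))) := by
    rw [co2, rs_apply, PowerSeries.coeff_rescale, ← map_pow]
    rfl
  have e2 : PowerSeries.coeff (n + 2) (H (G.i false (G.x false))) =
      MvPolynomial.C (p G.g) * MvPolynomial.X (b, n) +
      ∑ k ∈ Finset.range (n + 1), MvPolynomial.C (Ring.inverse (((k + 2).factorial : ℕ) : A) *
        p ((⇑G.ΔT)^[k + 2] (G.i false (G.x false)))) *
          PowerSeries.coeff (n + 2) (gs A b ^ (k + 2)) := by
    rw [hH.fml, Finset.sum_range_succ', Finset.sum_range_succ']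
    have t0 : Ring.inverse ((Nat.factorial 0 : ℕ) : MvPolynomial (Bool × ℕ) A) *
        MvPolynomial.C (p ((⇑G.ΔT)^[0] (G.i false (G.x false)))) *
        PowerSeries.coeff (n + 2) (gs A b ^ 0) = 0 := by
      rw [pow_zero, PowerSeries.coeff_one, if_neg (by omega), mul_zero]
    have t1 : Ring.inverse ((Nat.factorial (0 + 1) : ℕ) : MvPolynomial (Bool × ℕ) A) *
        MvPolynomial.C (p ((⇑G.ΔT)^[0 + 1] (G.i false (G.x false)))) *
        PowerSeries.coeff (n + 2) (gs A b ^ (0 + 1)) =
        MvPolynomial.C (p G.g) * MvPolynomial.X (b, n) := by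
      rw [zero_add, Nat.factorial_one, Nat.cast_one, Ring.inverse_one, one_mul, pow_one,
        gs_coeff_add]
      rfl
    rw [t0, t1, add_zero, add_comm]
    congr 1
    refine Finset.sum_congr rfl fun k _ => ?_
    rw [map_mul, ← inverse_C, map_natCast]
    have hu : IsUnit (((k + 2).factorial : ℕ) : B) := G.inv _ (Nat.factorial_ne_zero _)
    have := hu.map (algebraMap B A)
    rwa [map_natCast] at this
  have e3 : co2 G H l n - MvPolynomial.C (l ^ (n + 1)) * MvPolynomial.X (b, n) =
      ∑ k ∈ Finset.range (n + 1), MvPolynomial.C (l ^ (n + 2) *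
        (Ring.inverse (((k + 2).factorial : ℕ) : A) *
          p ((⇑G.ΔT)^[k + 2] (G.i false (G.x false))))) *
          PowerSeries.coeff (n + 2) (gs A b ^ (k + 2)) := by
    have e4 : l ^ (n + 1) = l ^ (n + 2) * p G.g := by
      rw [pow_succ l (n + 1), mul_assoc, hl, mul_one]
    rw [e1, e2, e4, mul_add, map_mul MvPolynomial.C (l ^ (n + 2)) (p G.g), mul_assoc,
      add_sub_cancel_left, Finset.mul_sum]
    refine Finset.sum_congr rfl fun k _ => ?_
    rw [map_mul MvPolynomial.C (l ^ (n + 2)), mul_assoc]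
  rw [e3, MvPolynomial.coeff_sum]
  refine Finset.sum_eq_zero fun k _ => ?_
  rw [MvPolynomial.coeff_C_mul, hTWT.2 b (k + 2) (n + 2) m (by omega), mul_zero]

/-- On the second chart the rescaled universal point is the image of the given one. -/
theorem comp_false (hTFP : Stmt_TFP) (G : TGD B S T) {b : Bool} {p : T →ₐ[B] A}
    {H : T →ₐ[B] PowerSeries (MvPolynomial (Bool × ℕ) A)} (hH : IsH G b p H)
    {h : S false →ₐ[B] PowerSeries (MvPolynomial (Bool × ℕ) A)}
    (hh : IsUP (G.x false) b (p.comp (G.i false)) h) {l : A} (hl : l * p G.g = 1)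
    (Ψ : MvPolynomial (Bool × ℕ) A →ₐ[A] MvPolynomial (Bool × ℕ) A)
    (hΨ : ∀ n, Ψ (MvPolynomial.X (b, n)) = co2 G H l n) (f : S false) :
    rs (MvPolynomial.C l) (H.comp (G.i false)) f =
      PowerSeries.map ((Ψ.restrictScalars B : MvPolynomial (Bool × ℕ) A →ₐ[B]
        MvPolynomial (Bool × ℕ) A) : MvPolynomial (Bool × ℕ) A →+* MvPolynomial (Bool × ℕ) A)
        (h f) := by
  have hC : ∀ a : A, Ψ (MvPolynomial.C a) = MvPolynomial.C a := fun a => Ψ.commutes a
  have key : rs (MvPolynomial.C l) (H.comp (G.i false)) =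
      (PowerSeries.mapAlgHom (Ψ.restrictScalars B)).comp h := by
    refine (hTFP G.inv (G.ch false) (A := MvPolynomial (Bool × ℕ) A)).1 _ _ (fun f => ?_) ?_
    · rw [AlgHom.comp_apply, PowerSeries.mapAlgHom_apply, rs_apply,
        ← PowerSeries.coeff_zero_eq_constantCoeff_apply,
        ← PowerSeries.coeff_zero_eq_constantCoeff_apply, PowerSeries.coeff_rescale,
        PowerSeries.coeff_map, pow_zero, one_mul, PowerSeries.coeff_zero_eq_constantCoeff_apply,
        PowerSeries.coeff_zero_eq_constantCoeff_apply, hh.1]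
      change PowerSeries.constantCoeff (H (G.i false f)) = Ψ (MvPolynomial.C _)
      rw [hH.const, hC]
      rfl
    · rw [AlgHom.comp_apply, PowerSeries.mapAlgHom_apply]
      ext1 n
      rw [PowerSeries.coeff_map, hh.2]
      rcases n with _ | _ | n
      · rw [rs_apply, PowerSeries.coeff_rescale, pow_zero, one_mul, map_add, gs_coeff_zero,
          add_zero, PowerSeries.coeff_zero_eq_constantCoeff_apply,
          PowerSeries.coeff_zero_eq_constantCoeff_apply]
        change PowerSeries.constantCoeff (H (G.i false (G.x false))) = Ψ _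
        rw [hH.const, PowerSeries.constantCoeff_C, hC]
        rfl
      · rw [zero_add, rs_apply, PowerSeries.coeff_rescale, pow_one, map_add, gs_coeff_one,
          PowerSeries.coeff_C, if_neg one_ne_zero, zero_add]
        change MvPolynomial.C l * PowerSeries.coeff 1 (H (G.i false (G.x false))) = Ψ 1
        rw [hH.lin, ← map_mul, map_one]
        change MvPolynomial.C (l * p G.g) = 1
        rw [hl, map_one]
      · rw [map_add, gs_coeff_add, PowerSeries.coeff_C, if_neg (by omega), zero_add]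
        change co2 G H l n = Ψ (MvPolynomial.X (b, n))
        rw [hΨ]
  rw [key, AlgHom.comp_apply, PowerSeries.mapAlgHom_apply]

end

end TGT

theorem t_TGT (hTFP : Stmt_TFP) (hTWT : Stmt_TWT) : Stmt_TGT := by
  intro B _ S _ _ T _ _ G w F A _ _ p q hu h k hh hk J hJ m hm
  obtain ⟨H, hH⟩ := TGT.exH hTFP G true p
  obtain ⟨K, hK⟩ := TGT.exH hTFP G false q
  -- the units
  obtain ⟨u₁, hu₁⟩ : IsUnit (p G.g) := G.gu.map p
  obtain ⟨u₂, hu₂⟩ : IsUnit (q G.g) := G.gu.map q
  set l₁ : A := ((u₁⁻¹ : Aˣ) : A) with hl₁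
  set l₂ : A := ((u₂⁻¹ : Aˣ) : A) with hl₂
  have h1 : l₁ * p G.g = 1 := by rw [← hu₁, hl₁, Units.inv_mul]
  have h2 : l₂ * q G.g = 1 := by rw [← hu₂, hl₂, Units.inv_mul]
  let Ψ : MvPolynomial (Bool × ℕ) A →ₐ[A] MvPolynomial (Bool × ℕ) A :=
    MvPolynomial.aeval fun v : Bool × ℕ =>
      if v.1 = true then TGT.co2 G H l₁ v.2 else TGT.co2 G K l₂ v.2
  have hΨ1 : ∀ n, Ψ (MvPolynomial.X (true, n)) = TGT.co2 G H l₁ n := fun n => by
    change MvPolynomial.aeval _ (MvPolynomial.X (true, n)) = _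
    rw [MvPolynomial.aeval_X, if_pos rfl]
  have hΨ2 : ∀ n, Ψ (MvPolynomial.X (false, n)) = TGT.co2 G K l₂ n := fun n => by
    change MvPolynomial.aeval _ (MvPolynomial.X (false, n)) = _
    rw [MvPolynomial.aeval_X, if_neg Bool.false_ne_true]
  -- disjointness
  have hd : ∀ j, IsUnit (PowerSeries.constantCoeff (H (G.i j (G.x j))) -
      PowerSeries.constantCoeff (K (G.i j (G.x j)))) := fun j => by
    rw [hH.const, hK.const, ← map_sub]
    exact (hu j).map (MvPolynomial.C (R := A) (σ := Bool × ℕ))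
  have hv : ∀ j, VPair (G.x j) (H.comp (G.i j)) (K.comp (G.i j)) := by
    intro j
    have hlin : IsUnit (G.ΔT (G.i j (G.x j))) := by
      rcases j
      · exact G.gu
      · rw [G.chT.one]
        exact isUnit_one
    refine ⟨?_, ?_, ?_⟩
    · change IsUnit (PowerSeries.coeff 1 (H (G.i j (G.x j))))
      rw [hH.lin]
      exact (hlin.map p).map (MvPolynomial.C (R := A) (σ := Bool × ℕ))
    · change IsUnit (PowerSeries.coeff 1 (K (G.i j (G.x j))))
      rw [hK.lin]
      exact (hlin.map q).map (MvPolynomial.C (R := A) (σ := Bool × ℕ))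
    · exact Ideal.eq_top_of_isUnit_mem _ (Ideal.subset_span ⟨G.x j, rfl⟩) (hd j)
  have hv' : VPair (G.x false) (h false) (k false) := by
    refine ⟨?_, ?_, ?_⟩
    · rw [(hh false).2, map_add, TGT.gs_coeff_one, PowerSeries.coeff_C, if_neg one_ne_zero,
        zero_add]
      exact isUnit_one
    · rw [(hk false).2, map_add, TGT.gs_coeff_one, PowerSeries.coeff_C, if_neg one_ne_zero,
        zero_add]
      exact isUnit_one
    · refine Ideal.eq_top_of_isUnit_mem _ (Ideal.subset_span ⟨G.x false, rfl⟩) ?_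
      change IsUnit (PowerSeries.constantCoeff (h false (G.x false)) -
        PowerSeries.constantCoeff (k false (G.x false)))
      rw [(hh false).1, (hk false).1, ← map_sub]
      exact (hu false).map (MvPolynomial.C (R := A) (σ := Bool × ℕ))
  -- agreement, homogeneity, naturality
  have a1 := F.agr H K hv hd
  rw [TGT.comp_true hTFP G hH (hh true), TGT.comp_true hTFP G hK (hk true)] at a1
  let U : Aˣ →* (MvPolynomial (Bool × ℕ) A)ˣ :=
    Units.map (MvPolynomial.C (R := A) (σ := Bool × ℕ) : A →* MvPolynomial (Bool × ℕ) A)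
  have a2 := F.hom false (H.comp (G.i false)) (K.comp (G.i false))
    (TGT.rs (MvPolynomial.C l₁) (H.comp (G.i false)))
    (TGT.rs (MvPolynomial.C l₂) (K.comp (G.i false))) (U u₁⁻¹) (U u₂⁻¹) (hv false)
    (fun f => rfl) (fun f => rfl)
  have a3 := F.nat false (Ψ.restrictScalars B) (h false) (k false)
    (TGT.rs (MvPolynomial.C l₁) (H.comp (G.i false)))
    (TGT.rs (MvPolynomial.C l₂) (K.comp (G.i false))) hv'
    (TGT.comp_false hTFP G hH (hh false) h1 Ψ hΨ1)
    (TGT.comp_false hTFP G hK (hk false) h2 Ψ hΨ2)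
  have e1 : ((U u₁⁻¹ : (MvPolynomial (Bool × ℕ) A)ˣ) : MvPolynomial (Bool × ℕ) A) =
      MvPolynomial.C l₁ := rfl
  have e2 : ((U u₂⁻¹ : (MvPolynomial (Bool × ℕ) A)ˣ) : MvPolynomial (Bool × ℕ) A) =
      MvPolynomial.C l₂ := rfl
  rw [e1, e2, a3] at a2
  set Fc := F.c false (MvPolynomial (Bool × ℕ) A) (h false) (k false) with hFc
  have a4 : F.c true (MvPolynomial (Bool × ℕ) A) (h true) (k true) =
      MvPolynomial.C ((l₁ * l₂) ^ w) * Ψ Fc := by
    rw [a1, ← a2, map_pow, map_mul]
    rfl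
  -- weights
  have a5 : MvPolynomial.coeff m (Ψ Fc) =
      l₁ ^ wtb true m * l₂ ^ wtb false m * MvPolynomial.coeff m Fc :=
    hTWT.1 Ψ (fun b => cond b l₁ l₂) (by
    rintro ⟨b, n⟩ m' hm'
    rcases b with _ | _
    · rw [hΨ2]
      exact TGT.co2_eq hTWT G hK h2 n m' hm'
    · rw [hΨ1]
      exact TGT.co2_eq hTWT G hH h1 n m' hm') Fc J (fun m' hm' => hJ false m' hm') m hm
  rw [a4, MvPolynomial.coeff_C_mul, a5]
  have e5 : p G.g ^ (w + wtb true m) * q G.g ^ (w + wtb false m) *
      ((l₁ * l₂) ^ w * (l₁ ^ wtb true m * l₂ ^ wtb false m * MvPolynomial.coeff m Fc)) =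
      (l₁ * p G.g) ^ (w + wtb true m) * (l₂ * q G.g) ^ (w + wtb false m) *
        MvPolynomial.coeff m Fc := by
    rw [mul_pow, mul_pow, mul_pow, pow_add, pow_add, pow_add, pow_add]
    ring
  rw [e5, h1, h2, one_pow, one_pow, one_mul, one_mul]

end Pool.Agent.MG.G0
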