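import Pool.Agent.MG.G0.StmtsTC

/-!
# TLC: the chart of a localization
-/

open TensorProduct

namespace Pool.Agent.MG.G0

namespace TLC

section

variable {B R S : Type} [CommRing B] [CommRing R] [CommRing S] [Algebra B R] [Algebra B S]
  [Algebra R S] [IsScalarTower B R S]

/-- The extension of a derivation to a localization. -/
theorem exists_ext (M : Submonoid R) [IsLocalization M S] (D : Derivation B R R) :
    ∃ E : Derivation B S S, ∀ f : R, E (algebraMap R S f) = algebraMap R S (D f) := by
  have : Algebra.FormallyEtale R S := Algebra.FormallyEtale.of_isLocalization M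
  let L : Ω[R⁄B] →ₗ[R] S := (Algebra.linearMap R S).comp D.liftKaehlerDifferential
  let L' : S ⊗[R] Ω[R⁄B] →ₗ[S] S := LinearMap.liftBaseChange S L
  let e := KaehlerDifferential.tensorKaehlerEquivOfFormallyEtale B R S
  refine ⟨(L'.comp e.symm.toLinearMap).compDer (KaehlerDifferential.D B S), fun f => ?_⟩
  show L' (e.symm (KaehlerDifferential.D B S (algebraMap R S f))) = _
  rw [KaehlerDifferential.tensorKaehlerEquivOfFormallyEtale_symm_D_algebraMap]
  show LinearMap.liftBaseChange S L ((1 : S) ⊗ₜ KaehlerDifferential.D B R f) = _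
  rw [LinearMap.liftBaseChange_tmul, one_smul]
  show Algebra.linearMap R S (D.liftKaehlerDifferential (KaehlerDifferential.D B R f)) = _
  rw [Derivation.liftKaehlerDifferential_comp_D, Algebra.linearMap_apply]

/-- Derivations of a localization that agree on the ring are equal. -/
theorem ext_der (M : Submonoid R) [IsLocalization M S] {N : Type} [AddCommGroup N] [Module B N]
    [Module S N] [IsScalarTower B S N] (d₁ d₂ : Derivation B S N)
    (h : ∀ f : R, d₁ (algebraMap R S f) = d₂ (algebraMap R S f)) (s : S) : d₁ s = d₂ s := by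
  obtain ⟨⟨r, m⟩, hs⟩ := IsLocalization.surj M s
  dsimp only at hs
  have h1 := congrArg d₁ hs
  have h2 := congrArg d₂ hs
  rw [Derivation.leibniz] at h1 h2
  rw [h (m : R), h r, ← h2] at h1
  have h3 : algebraMap R S (m : R) • d₁ s = algebraMap R S (m : R) • d₂ s :=
    add_left_cancel h1
  exact ((IsLocalization.map_units S m).smul_left_cancel).mp h3

end

end TLC

theorem t_TLC : Stmt_TLC := by
  intro B R S _ _ _ _ _ _ _ M _ D g hex hu
  obtain ⟨E, hE⟩ := TLC.exists_ext (B := B) (S := S) M D
  obtain ⟨v, hv⟩ := hu.exists_left_inv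
  have hform : ∀ f : R, algebraMap R S (D f) • KaehlerDifferential.D B S (algebraMap R S g) =
      algebraMap R S (D g) • KaehlerDifferential.D B S (algebraMap R S f) := by
    intro f
    have h := congrArg (KaehlerDifferential.map B B R S) (hex f g)
    rw [map_smul, map_smul, KaehlerDifferential.map_D, KaehlerDifferential.map_D] at h
    rw [algebraMap_smul, algebraMap_smul]
    exact h
  have hΔ : ∀ f : R, (v • E) (algebraMap R S f) = v * algebraMap R S (D f) := by
    intro f
    rw [Derivation.smul_apply, hE, smul_eq_mul]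
  refine ⟨v • E, fun f => ?_, ⟨?_, ?_⟩⟩
  · rw [hΔ, ← mul_assoc, mul_comm (algebraMap R S (D g)) v, hv, one_mul]
  · rw [hΔ, hv]
  · intro f
    let d₂ : Derivation B S (Ω[S⁄B]) :=
      (LinearMap.toSpanSingleton S (Ω[S⁄B])
        (KaehlerDifferential.D B S (algebraMap R S g))).compDer (v • E)
    have h := TLC.ext_der M (KaehlerDifferential.D B S) d₂ (fun f => ?_) f
    · exact h
    · show KaehlerDifferential.D B S (algebraMap R S f) =
        (v • E) (algebraMap R S f) • KaehlerDifferential.D B S (algebraMap R S g)
      rw [hΔ, mul_smul, hform, ← mul_smul, hv, one_smul]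

end Pool.Agent.MG.G0
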