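import Pool.Agent.MG.G0.StmtsTC
import Mathlib.RingTheory.Smooth.Locus

/-!
# TNS: formal smoothness with an additional puncture
-/

namespace Pool.Agent.MG.G0

namespace TNS

/-- A localization of a formally smooth subalgebra. -/
theorem loc {κ R W : Type} [CommRing κ] [CommRing R] [CommRing W] [Algebra κ R] [Algebra κ W]
    (ι : R →ₐ[κ] W) (hι : Function.Injective ι) (s : R)
    (hs : ∀ w : W, ∃ (n : ℕ) (r : R), ι r = ι s ^ n * w)
    (hR : Algebra.FormallySmooth κ R) : Algebra.FormallySmooth κ (Localization.Away (ι s)) := by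
  let : Algebra R (Localization.Away (ι s)) :=
    ((algebraMap W (Localization.Away (ι s))).comp (ι : R →+* W)).toAlgebra
  have hmap : ∀ x : R, algebraMap R (Localization.Away (ι s)) x =
      algebraMap W (Localization.Away (ι s)) (ι x) := fun x => rfl
  have : IsScalarTower κ R (Localization.Away (ι s)) := IsScalarTower.of_algebraMap_eq fun x => by
    rw [hmap, AlgHom.commutes, ← IsScalarTower.algebraMap_apply]
  have : IsLocalization.Away s (Localization.Away (ι s)) := by
    refine ⟨?_, ?_, ?_⟩
    · rintro ⟨x, n, rfl⟩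
      change IsUnit (algebraMap R (Localization.Away (ι s)) (s ^ n))
      rw [hmap, map_pow, map_pow]
      exact (IsLocalization.Away.algebraMap_isUnit (ι s)).pow n
    · intro z
      obtain ⟨⟨w, y⟩, hz⟩ := IsLocalization.surj (Submonoid.powers (ι s)) z
      obtain ⟨m, hm⟩ := y.2
      obtain ⟨n, r, hr⟩ := hs w
      refine ⟨(r, ⟨s ^ (m + n), m + n, rfl⟩), ?_⟩
      change z * algebraMap R (Localization.Away (ι s)) (s ^ (m + n)) =
        algebraMap R (Localization.Away (ι s)) r
      have hm' : ι s ^ m = (y : W) := hm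
      rw [hmap, hmap, hr, map_pow, pow_add, map_mul, map_mul, hm', ← mul_assoc]
      change z * algebraMap W (Localization.Away (ι s)) (y : W) =
        algebraMap W (Localization.Away (ι s)) w at hz
      rw [hz, mul_comm]
    · intro x y hxy
      rw [hmap, hmap] at hxy
      obtain ⟨⟨c, n, hn⟩, hc⟩ := IsLocalization.exists_of_eq (M := Submonoid.powers (ι s)) hxy
      refine ⟨⟨s ^ n, n, rfl⟩, ?_⟩
      change s ^ n * x = s ^ n * y
      apply hι
      have hn' : ι s ^ n = c := hn
      change c * ι x = c * ι y at hc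
      rw [map_mul, map_mul, map_pow, hn', hc]
  have : Algebra.FormallySmooth R (Localization.Away (ι s)) :=
    Algebra.FormallySmooth.of_isLocalization (Submonoid.powers s)
  exact Algebra.FormallySmooth.comp κ R (Localization.Away (ι s))

/-- Formal smoothness is local. -/
theorem glue {κ W : Type} [CommRing κ] [CommRing W] [Algebra κ W]
    [Algebra.FinitePresentation κ W] {n : ℕ} (s a : Fin n → W) (h : ∑ k, a k * s k = 1)
    (hs : ∀ k, Algebra.FormallySmooth κ (Localization.Away (s k))) :
    Algebra.FormallySmooth κ W := by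
  rw [← Algebra.smoothLocus_eq_univ_iff, Set.eq_univ_iff_forall]
  intro q
  obtain ⟨k, hk⟩ : ∃ k, s k ∉ q.asIdeal := by
    by_contra hc
    push Not at hc
    apply q.isPrime.ne_top
    rw [Ideal.eq_top_iff_one, ← h]
    exact sum_mem fun k _ => Ideal.mul_mem_left _ _ (hc k)
  exact (Algebra.basicOpen_subset_smoothLocus_iff (f := s k)).2 (hs k) hk

theorem pow_low {A : Type} [CommRing A] {f : LaurentSeries A} (hf : ∀ m < 1, f.coeff m = 0)
    (n : ℕ) : ∀ m < (n : ℤ), (f ^ n).coeff m = 0 := by
  induction n with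
  | zero =>
    intro m hm
    rw [pow_zero, HahnSeries.coeff_one, if_neg (by push_cast at hm; omega)]
  | succ n ih =>
    intro m hm
    rw [pow_succ]
    exact mul_low ih hf m (by push_cast at hm; omega)

end TNS

/-- Formal smoothness with an additional puncture. -/
theorem t_TNS (h1 : Stmt_TEP) (h2 : Stmt_KFG) : Stmt_TNS := by
  intro I κ _ _ _ h W hW hD hS
  have := (h2 hW).1
  obtain ⟨ι, hinj, -, -, hsur, hM⟩ := h1 hW hD rfl
  obtain ⟨n, s, a, hsum, hs⟩ := hM 1
  refine TNS.glue (fun k => ι (s k)) a hsum fun k => TNS.loc ι hinj (s k) (fun w => ?_) hS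
  obtain ⟨N, hN⟩ := exists_low ((w : KK (I ⊕ Unit) κ) (Sum.inr ()))
  obtain ⟨r, hr⟩ := hsur (ι (s k) ^ N * w) fun m hm => by
    change (((ι (s k) : KK (I ⊕ Unit) κ) (Sum.inr ())) ^ N *
      (w : KK (I ⊕ Unit) κ) (Sum.inr ())).coeff m = 0
    exact mul_low (TNS.pow_low (hs k) N) hN m (by omega)
  exact ⟨N, r, hr⟩

end Pool.Agent.MG.G0
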