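import Pool.Agent.MG.G0.StmtsTC

/-!
# TRX: base change and change of the index set of smooth Krichever rings (PAPER_TG.md)
-/

open TensorProduct

namespace Pool.Agent.MG.G0

namespace TRX

/-- A smoothness certificate is transported by an isomorphism. -/
theorem smC_equiv {A R R' : Type} [CommRing A] [CommRing R] [CommRing R'] [Algebra A R]
    [Algebra A R'] (e : R ≃ₐ[A] R') (h : SmC A R) : SmC A R' := by
  obtain ⟨n, D, g, h1, h2⟩ := h
  letI : Algebra R R' := (e : R →+* R').toAlgebra
  have hm : ∀ r, algebraMap R R' r = e r := fun r => rfl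
  have : IsScalarTower A R R' := IsScalarTower.of_algebraMap_eq fun a => by
    rw [hm]
    exact (e.commutes a).symm
  let D' : Fin n → Derivation A R' R' := fun i =>
    { toFun := fun f => e (D i (e.symm f))
      map_add' := fun f g => by rw [map_add, map_add, map_add]
      map_smul' := fun a f => by
        rw [map_smul, Derivation.map_smul, map_smul, RingHom.id_apply]
      map_one_eq_zero' := by
        change e (D i (e.symm 1)) = 0
        rw [map_one, Derivation.map_one_eq_zero, map_zero]
      leibniz' := fun f g => by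
        change e (D i (e.symm (f * g))) = f • e (D i (e.symm g)) + g • e (D i (e.symm f))
        rw [map_mul, Derivation.leibniz, smul_eq_mul, smul_eq_mul, smul_eq_mul, smul_eq_mul,
          map_add, map_mul, map_mul, e.apply_symm_apply, e.apply_symm_apply] }
  refine ⟨n, D', fun i => e (g i), ?_, ?_⟩
  · have h3 : ∀ i, D' i (e (g i)) = e (D i (g i)) := fun i => by
      change e (D i (e.symm (e (g i)))) = _
      rw [e.symm_apply_apply]
    simp only [h3]
    rw [← map_sum, h1, map_one]
  · intro E' f' k'
    let E : Derivation A R R :=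
      { toFun := fun f => e.symm (E' (e f))
        map_add' := fun f g => by rw [map_add, map_add, map_add]
        map_smul' := fun a f => by
          rw [map_smul, Derivation.map_smul, map_smul, RingHom.id_apply]
        map_one_eq_zero' := by
          change e.symm (E' (e 1)) = 0
          rw [map_one, Derivation.map_one_eq_zero, map_zero]
        leibniz' := fun f g => by
          change e.symm (E' (e (f * g))) = f • e.symm (E' (e g)) + g • e.symm (E' (e f))
          rw [map_mul, Derivation.leibniz, smul_eq_mul, smul_eq_mul, smul_eq_mul, smul_eq_mul,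
            map_add, map_mul, map_mul, e.symm_apply_apply, e.symm_apply_apply] }
    have key := congrArg (KaehlerDifferential.map A A R R') (h2 E (e.symm f') (e.symm k'))
    rw [map_smul, map_smul, KaehlerDifferential.map_D, KaehlerDifferential.map_D,
      ← algebraMap_smul R' (E (e.symm f')), ← algebraMap_smul R' (E (e.symm k')), hm, hm, hm,
      hm, e.apply_symm_apply, e.apply_symm_apply] at key
    have a1 : e (E (e.symm f')) = E' f' := by
      change e (e.symm (E' (e (e.symm f')))) = E' f'
      rw [e.apply_symm_apply, e.apply_symm_apply]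
    have a2 : e (E (e.symm k')) = E' k' := by
      change e (e.symm (E' (e (e.symm k')))) = E' k'
      rw [e.apply_symm_apply, e.apply_symm_apply]
    rw [a1, a2] at key
    exact key

variable {I I' : Type} {A B : Type} [CommRing A] [CommRing B]

theorem mem_reix (e : I' ≃ I) {P : Subalgebra A (KK I A)} {f : KK I' A} :
    f ∈ reix e P ↔ (fun i => f (e.symm i) : KK I A) ∈ P := Iff.rfl

theorem comp_mem (e : I' ≃ I) {P : Subalgebra A (KK I A)} {f : KK I A} (hf : f ∈ P) :
    (fun i => f (e i) : KK I' A) ∈ reix e P := by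
  rw [mem_reix]
  have h : (fun i => (fun i => f (e i) : KK I' A) (e.symm i) : KK I A) = f := by
    funext i
    change f (e (e.symm i)) = f i
    rw [e.apply_symm_apply]
  rw [h]
  exact hf

/-- The isomorphism of `P` and `reix e P`. -/
noncomputable def eqv (e : I' ≃ I) (P : Subalgebra A (KK I A)) : P ≃ₐ[A] reix e P where
  toFun f := ⟨fun i => (f : KK I A) (e i), comp_mem e f.2⟩
  invFun f := ⟨fun i => (f : KK I' A) (e.symm i), f.2⟩
  left_inv f := Subtype.ext (funext fun i => by
    change (f : KK I A) (e (e.symm i)) = _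
    rw [e.apply_symm_apply])
  right_inv f := Subtype.ext (funext fun i => by
    change (f : KK I' A) (e.symm (e i)) = _
    rw [e.symm_apply_apply])
  map_mul' _ _ := rfl
  map_add' _ _ := rfl
  commutes' _ := rfl

theorem eqv_apply (e : I' ≃ I) (P : Subalgebra A (KK I A)) (f : P) (i : I') :
    (eqv e P f : KK I' A) i = (f : KK I A) (e i) := rfl

theorem reix_symm (e : I' ≃ I) (P : Subalgebra A (KK I A)) : reix e.symm (reix e P) = P := by
  ext f
  rw [mem_reix, mem_reix]
  have h : (fun i => (fun i => f (e.symm.symm i) : KK I' A) (e.symm i) : KK I A) = f := by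
    funext i
    change f (e (e.symm i)) = f i
    rw [e.apply_symm_apply]
  rw [h]

theorem res_comp [Fintype I] [Fintype I'] (e : I' ≃ I) (f : KK I A) :
    res (fun i => f (e i) : KK I' A) = res f :=
  Fintype.sum_equiv e _ _ fun _ => rfl

theorem dual_reix [Fintype I] [Fintype I'] (e : I' ≃ I) {P : Subalgebra A (KK I A)}
    (hP : Dual P) : Dual (reix e P) := by
  intro θ hθ η hη
  rw [mem_reix]
  have h1 : (fun i => θ (e.symm i) : KK I A) ∈ TT P := by
    intro f hf
    have h2 := hθ _ (comp_mem e hf)
    rw [mem_reix] at h2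
    have h3 : (fun i => (θ * dd (fun i => f (e i) : KK I' A)) (e.symm i) : KK I A) =
        (fun i => θ (e.symm i) : KK I A) * dd f := by
      funext i
      change θ (e.symm i) * ld (f (e (e.symm i))) = θ (e.symm i) * ld (f i)
      rw [e.apply_symm_apply]
    rw [h3] at h2
    exact h2
  have h4 : (fun i => η (e.symm i) : KK I A) ∈ Perp P := by
    intro p hp
    have h5 := hη _ (comp_mem e hp)
    rw [← res_comp e.symm] at h5
    have h6 : (fun i => (η * (fun i => p (e i) : KK I' A)) (e.symm i) : KK I A) =
        (fun i => η (e.symm i) : KK I A) * p := by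
      funext i
      change η (e.symm i) * p (e (e.symm i)) = η (e.symm i) * p i
      rw [e.apply_symm_apply]
    rw [h6] at h5
    exact h5
  exact hP _ h1 _ h4

theorem skr_reix (hKAU : Stmt_KAU) [Fintype I] [Fintype I'] (e : I' ≃ I) {h : ℕ}
    {R : Subalgebra A (KK I A)} (hR : SKr h R) : SKr h (reix e R) where
  kr := hKAU.2 R e hR.kr
  fs := by
    have := hR.fs
    exact Algebra.FormallySmooth.of_equiv (eqv e R)
  smc := smC_equiv (eqv e R) hR.smc
  dual := dual_reix e hR.dual

/-- The base change of a smooth Krichever ring. -/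
theorem skr_bc (hKBC : Stmt_KBC) (hKBT : Stmt_KBT) (hSDB : Stmt_SDB) [Fintype I] [Nonempty I]
    {h : ℕ} {R : Subalgebra A (KK I A)} (hR : SKr h R) (φ : A →+* B) : SKr h (bc φ R) := by
  refine ⟨(hKBC.2.2.2 hR.kr φ).1, ?_, (hSDB hR.kr hR.smc φ).1, (hSDB hR.kr hR.smc φ).2.1 hR.dual⟩
  let _ : Algebra A B := φ.toAlgebra
  obtain ⟨e, -⟩ := (hKBT (B := B) hR.kr).2
  have := hR.fs
  exact Algebra.FormallySmooth.of_equiv (A := B ⊗[A] R) (B := bc (algebraMap A B) R) e


end TRX

theorem t_TRX (hKBC : Stmt_KBC) (hKBT : Stmt_KBT) (hSDB : Stmt_SDB) (hKAU : Stmt_KAU) :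
    Stmt_TRX :=
  ⟨fun hR φ => TRX.skr_bc hKBC hKBT hSDB hR φ, fun e hR => TRX.skr_reix hKAU e hR⟩

end Pool.Agent.MG.G0
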