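import Pool.Agent.MG.G0.StmtsTG

/-!
# TWT: weights of polynomials in formal coefficients
-/

open TensorProduct

namespace Pool.Agent.MG.G0

namespace TWT

section

theorem wtb_zero (b : Bool) : wtb b 0 = 0 := Finsupp.sum_zero_index

theorem wt_zero : wt 0 = 0 := by
  rw [wt, wtb_zero, wtb_zero]

theorem wtb_add (b : Bool) (m m' : (Bool × ℕ) →₀ ℕ) : wtb b (m + m') = wtb b m + wtb b m' := by
  unfold wtb
  refine Finsupp.sum_add_index' (fun v => ?_) fun v k k' => ?_
  · rw [zero_mul, ite_self]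
  · split_ifs
    · rw [add_mul]
    · rfl

theorem wt_add (m m' : (Bool × ℕ) →₀ ℕ) : wt (m + m') = wt m + wt m' := by
  rw [wt, wt, wt, wtb_add, wtb_add]
  omega

theorem wtb_single (b : Bool) (v : Bool × ℕ) :
    wtb b (Finsupp.single v 1) = if v.1 = b then v.2 + 1 else 0 := by
  unfold wtb
  rw [Finsupp.sum_single_index]
  · rw [one_mul]
  · rw [zero_mul, ite_self]

theorem wt_single (v : Bool × ℕ) : wt (Finsupp.single v 1) = v.2 + 1 := by
  obtain ⟨b, i⟩ := v
  rw [wt, wtb_single, wtb_single]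
  cases b <;> simp

variable {A : Type} [CommRing A]

/-- Weight at most `J`. -/
def Wle (J : ℕ) (F : MvPolynomial (Bool × ℕ) A) : Prop :=
  ∀ m, J < wt m → MvPolynomial.coeff m F = 0

/-- Weight less than `J`. -/
def Wlt (J : ℕ) (F : MvPolynomial (Bool × ℕ) A) : Prop :=
  ∀ m, J ≤ wt m → MvPolynomial.coeff m F = 0

theorem Wlt.le {J : ℕ} {F : MvPolynomial (Bool × ℕ) A} (h : Wlt J F) : Wle J F :=
  fun m hm => h m hm.le

theorem Wle.add {J : ℕ} {F F' : MvPolynomial (Bool × ℕ) A} (h : Wle J F) (h' : Wle J F') :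
    Wle J (F + F') := fun m hm => by
  rw [MvPolynomial.coeff_add, h m hm, h' m hm, add_zero]

theorem Wlt.add {J : ℕ} {F F' : MvPolynomial (Bool × ℕ) A} (h : Wlt J F) (h' : Wlt J F') :
    Wlt J (F + F') := fun m hm => by
  rw [MvPolynomial.coeff_add, h m hm, h' m hm, add_zero]

theorem Wlt.mul {J J' : ℕ} {F F' : MvPolynomial (Bool × ℕ) A} (h : Wlt J F) (h' : Wle J' F') :
    Wlt (J + J') (F * F') := fun m hm => by
  classical
  rw [MvPolynomial.coeff_mul]
  refine Finset.sum_eq_zero fun x hx => ?_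
  rw [Finset.HasAntidiagonal.mem_antidiagonal] at hx
  rw [← hx, wt_add] at hm
  by_cases h1 : J ≤ wt x.1
  · rw [h _ h1, zero_mul]
  · rw [h' x.2 (by omega), mul_zero]

theorem Wle_monomial (m : (Bool × ℕ) →₀ ℕ) (c : A) : Wle (wt m) (MvPolynomial.monomial m c) :=
  fun m' hm => by
    classical
    rw [MvPolynomial.coeff_monomial, if_neg]
    rintro rfl
    exact lt_irrefl _ hm

/-- The leading constant of a monomial. -/
noncomputable def lc (l : Bool → A) (m : (Bool × ℕ) →₀ ℕ) : A :=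
  l true ^ wtb true m * l false ^ wtb false m

theorem lc_zero (l : Bool → A) : lc l 0 = 1 := by
  rw [lc, wtb_zero, wtb_zero, pow_zero, pow_zero, one_mul]

theorem lc_add (l : Bool → A) (m m' : (Bool × ℕ) →₀ ℕ) : lc l (m + m') = lc l m * lc l m' := by
  rw [lc, lc, lc, wtb_add, wtb_add, pow_add, pow_add]
  ring

theorem lc_single (l : Bool → A) (v : Bool × ℕ) :
    lc l (Finsupp.single v 1) = l v.1 ^ (v.2 + 1) := by
  obtain ⟨b, i⟩ := v
  rw [lc, wtb_single, wtb_single]
  cases b <;> simp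

variable (Ψ : MvPolynomial (Bool × ℕ) A →ₐ[A] MvPolynomial (Bool × ℕ) A) (l : Bool → A)

/-- The transformation of a monomial. -/
def Tr (m : (Bool × ℕ) →₀ ℕ) : Prop :=
  Wlt (wt m) (Ψ (MvPolynomial.monomial m 1) - MvPolynomial.C (lc l m) * MvPolynomial.monomial m 1)

variable {Ψ l}

theorem Tr.zero : Tr Ψ l 0 := by
  intro m hm
  have h : (MvPolynomial.monomial (0 : (Bool × ℕ) →₀ ℕ) (1 : A)) = 1 := rfl
  rw [h, map_one, lc_zero, map_one, one_mul, sub_self, MvPolynomial.coeff_zero]

theorem Tr.add {m m' : (Bool × ℕ) →₀ ℕ} (h : Tr Ψ l m) (h' : Tr Ψ l m') : Tr Ψ l (m + m') := by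
  unfold Tr at *
  rw [wt_add, lc_add]
  have e1 : (MvPolynomial.monomial (m + m') (1 : A)) =
      MvPolynomial.monomial m 1 * MvPolynomial.monomial m' 1 := by
    rw [MvPolynomial.monomial_mul, one_mul]
  have e2 : Ψ (MvPolynomial.monomial (m + m') 1) -
      MvPolynomial.C (lc l m * lc l m') * MvPolynomial.monomial (m + m') 1 =
      (Ψ (MvPolynomial.monomial m 1) - MvPolynomial.C (lc l m) * MvPolynomial.monomial m 1) *
        Ψ (MvPolynomial.monomial m' 1) +
      (Ψ (MvPolynomial.monomial m' 1) - MvPolynomial.C (lc l m') * MvPolynomial.monomial m' 1) *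
        (MvPolynomial.C (lc l m) * MvPolynomial.monomial m 1) := by
    rw [e1, map_mul, map_mul]
    ring
  rw [e2]
  have h3 : Wle (wt m') (Ψ (MvPolynomial.monomial m' 1)) := by
    have e3 : Ψ (MvPolynomial.monomial m' 1) =
        (Ψ (MvPolynomial.monomial m' 1) - MvPolynomial.C (lc l m') *
          MvPolynomial.monomial m' 1) + MvPolynomial.monomial m' (lc l m' * 1) := by
      rw [MvPolynomial.C_mul_monomial, sub_add_cancel]
    rw [e3]
    exact h'.le.add (Wle_monomial _ _)
  have h4 : Wle (wt m) (MvPolynomial.C (lc l m) * MvPolynomial.monomial m (1 : A)) := by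
    rw [MvPolynomial.C_mul_monomial]
    exact Wle_monomial _ _
  refine (h.mul h3).add ?_
  rw [add_comm (wt m)]
  exact h'.mul h4

theorem Tr.single (h : ∀ (v : Bool × ℕ) (m : (Bool × ℕ) →₀ ℕ), v.2 + 1 ≤ wt m →
    MvPolynomial.coeff m (Ψ (MvPolynomial.X v) -
      MvPolynomial.C (l v.1 ^ (v.2 + 1)) * MvPolynomial.X v) = 0) (v : Bool × ℕ) (k : ℕ) :
    Tr Ψ l (Finsupp.single v k) := by
  induction k with
  | zero =>
    rw [Finsupp.single_zero]
    exact Tr.zero
  | succ k ih =>
    rw [Finsupp.single_add]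
    refine ih.add ?_
    intro m hm
    rw [wt_single] at hm
    rw [lc_single]
    exact h v m hm

theorem Tr.all (h : ∀ (v : Bool × ℕ) (m : (Bool × ℕ) →₀ ℕ), v.2 + 1 ≤ wt m →
    MvPolynomial.coeff m (Ψ (MvPolynomial.X v) -
      MvPolynomial.C (l v.1 ^ (v.2 + 1)) * MvPolynomial.X v) = 0) (m : (Bool × ℕ) →₀ ℕ) :
    Tr Ψ l m := by
  induction m using Finsupp.induction_linear with
  | zero => exact Tr.zero
  | add m m' ih ih' => exact ih.add ih'
  | single v k => exact Tr.single h v k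

theorem coeff_Psi (h : ∀ (v : Bool × ℕ) (m : (Bool × ℕ) →₀ ℕ), v.2 + 1 ≤ wt m →
    MvPolynomial.coeff m (Ψ (MvPolynomial.X v) -
      MvPolynomial.C (l v.1 ^ (v.2 + 1)) * MvPolynomial.X v) = 0)
    (F : MvPolynomial (Bool × ℕ) A) (J : ℕ)
    (hF : ∀ m, J < wt m → MvPolynomial.coeff m F = 0) (m : (Bool × ℕ) →₀ ℕ) (hm : wt m = J) :
    MvPolynomial.coeff m (Ψ F) = lc l m * MvPolynomial.coeff m F := by
  classical
  have e1 : Ψ F = ∑ m' ∈ F.support, MvPolynomial.C (MvPolynomial.coeff m' F) *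
      Ψ (MvPolynomial.monomial m' 1) := by
    conv_lhs => rw [F.as_sum, map_sum]
    refine Finset.sum_congr rfl fun m' _ => ?_
    have e2 : MvPolynomial.monomial m' (MvPolynomial.coeff m' F) =
        MvPolynomial.coeff m' F • MvPolynomial.monomial m' (1 : A) := by
      rw [MvPolynomial.smul_monomial, smul_eq_mul, mul_one]
    rw [e2, map_smul, MvPolynomial.smul_eq_C_mul]
  rw [e1, MvPolynomial.coeff_sum]
  have e3 : ∀ m' ∈ F.support, MvPolynomial.coeff m (MvPolynomial.C (MvPolynomial.coeff m' F) *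
      Ψ (MvPolynomial.monomial m' 1)) =
      if m' = m then lc l m * MvPolynomial.coeff m F else 0 := by
    intro m' hm'
    have h1 : wt m' ≤ J := by
      by_contra hc
      exact MvPolynomial.mem_support_iff.1 hm' (hF m' (not_le.1 hc))
    have h2 := Tr.all h m' m (by omega)
    rw [MvPolynomial.coeff_sub, MvPolynomial.coeff_C_mul, MvPolynomial.coeff_monomial,
      sub_eq_zero] at h2
    rw [MvPolynomial.coeff_C_mul, h2]
    split_ifs with h3
    · subst h3
      ring
    · ring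
  rw [Finset.sum_congr rfl e3, Finset.sum_ite_eq']
  split_ifs with h4
  · rfl
  · rw [MvPolynomial.notMem_support_iff.1 h4, mul_zero]

theorem coeff_gs (b : Bool) (n : ℕ) (m : (Bool × ℕ) →₀ ℕ) (h : n < wt m + 1) :
    MvPolynomial.coeff m (PowerSeries.coeff n (gs A b)) = 0 := by
  classical
  rw [gs, PowerSeries.coeff_mk]
  split_ifs with h0 h1
  · exact MvPolynomial.coeff_zero m
  · rw [MvPolynomial.coeff_one, if_neg]
    rintro rfl
    rw [wt_zero] at h
    omega
  · rw [MvPolynomial.coeff_X, if_neg]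
    rintro rfl
    rw [wt_single] at h
    dsimp only at h
    omega

theorem coeff_gs_pow (b : Bool) (k n : ℕ) (m : (Bool × ℕ) →₀ ℕ) (h : n < wt m + k) :
    MvPolynomial.coeff m (PowerSeries.coeff n (gs A b ^ k)) = 0 := by
  classical
  induction k generalizing n m with
  | zero =>
    rw [pow_zero, PowerSeries.coeff_one]
    split_ifs with h0
    · rw [MvPolynomial.coeff_one, if_neg]
      rintro rfl
      rw [wt_zero] at h
      omega
    · exact MvPolynomial.coeff_zero m
  | succ k ih =>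
    rw [pow_succ, PowerSeries.coeff_mul, MvPolynomial.coeff_sum]
    refine Finset.sum_eq_zero fun x hx => ?_
    rw [Finset.HasAntidiagonal.mem_antidiagonal] at hx
    rw [MvPolynomial.coeff_mul]
    refine Finset.sum_eq_zero fun y hy => ?_
    rw [Finset.HasAntidiagonal.mem_antidiagonal] at hy
    rw [← hx, ← hy, wt_add] at h
    by_cases h1 : x.1 < wt y.1 + k
    · rw [ih x.1 y.1 h1, zero_mul]
    · rw [coeff_gs b x.2 y.2 (by omega), mul_zero]

end

end TWT

theorem t_TWT : Stmt_TWT := by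
  refine ⟨?_, ?_⟩
  · intro A _ Ψ l h F J hF m hm
    exact TWT.coeff_Psi h F J hF m hm
  · intro A _ b k n m h
    exact TWT.coeff_gs_pow b k n m h

end Pool.Agent.MG.G0
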