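import Pool.Agent.MG.G0.StmtsTC

/-!
# TZF: two independent regular differentials
-/

namespace Pool.Agent.MG.G0

namespace TZF

variable {I : Type} [Fintype I] {A B : Type} [CommRing A] [CommRing B]

/-- Two members of a basis of the regular differentials are independent after base change. -/
theorem indep {h : ℕ} {P : Subalgebra B (KK I B)} {ω : Fin h → KK I B} (hω : IsForms P ω)
    {i j : Fin h} (hij : i ≠ j) (a a' : B) (he : a • ω i = a' • ω j) : a = 0 := by
  classical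
  obtain ⟨f, hf⟩ := hω.surj (fun k => if k = i then 1 else 0)
  have h1 := congrArg (fun x => res (x * f)) he
  simp only [smul_mul_assoc, map_smul, hf, smul_eq_mul] at h1
  rw [if_neg (Ne.symm hij), if_true, mul_one, mul_zero] at h1
  exact h1

/-- A regular differential all of whose products with vector fields vanish is zero. -/
theorem zero_of {h : ℕ} [Nonempty I] (hSTO : Stmt_STO) {P : Subalgebra B (KK I B)}
    (hP : IsKr h P) (hS : SmC B P) {ω : KK I B} (hω : ∀ θ ∈ TT P, θ * ω = 0) : ω = 0 := by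
  obtain ⟨-, -, -, -, hK⟩ := hSTO hP
  obtain ⟨-, ⟨n, θ, g', hθ, -, h1⟩, -⟩ := hK hS
  calc ω = (∑ i, θ i * dd (g' i)) * ω := by rw [h1, one_mul]
    _ = ∑ i, θ i * ω * dd (g' i) := by
        rw [Finset.sum_mul]
        refine Finset.sum_congr rfl fun i _ => ?_
        ring
    _ = 0 := Finset.sum_eq_zero fun i _ => by rw [hω _ (hθ i), zero_mul]

end TZF

theorem t_TZF (hKFO : Stmt_KFO) (hKBC : Stmt_KBC) (hMCB : Stmt_MCB) (hSTO : Stmt_STO)
    (hTZU : Stmt_TZU) : Stmt_TZF := by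
  intro A κ _ _ _ r hr h hh R₁ R₂ P hC
  obtain ⟨⟨ω, hω⟩, hE⟩ := hKFO hC.s12.kr
  obtain ⟨hE1, -⟩ := hE ω hω
  have hfo : ∀ {B : Type} [CommRing B] (φ : A →+* B),
      IsForms (bc φ P) fun j => kmap φ (ω j) := fun φ =>
    (hKBC.2.2.2 hC.s12.kr φ).2.1 ω hω
  set i₀ : Fin h := ⟨0, by omega⟩ with hi₀
  set i₁ : Fin h := ⟨1, by omega⟩ with hi₁
  have hne : i₀ ≠ i₁ := by
    rw [hi₀, hi₁]
    simp
  refine ⟨ω i₀, ω i₁, hE1 _, hE1 _, ?_, ?_⟩
  · have hCk := hMCB.2.2 hC (r : A →+* κ)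
    have hnz : kmap (r : A →+* κ) (ω i₀) ≠ 0 := by
      intro h0
      classical
      obtain ⟨f, hf⟩ := (hfo (r : A →+* κ)).surj (fun _ => 1)
      have h1 := hf i₀
      simp only [h0, zero_mul, map_zero] at h1
      exact zero_ne_one h1
    have hperp : kmap (r : A →+* κ) (ω i₀) ∈ Perp (bc (r : A →+* κ) P) :=
      kmap_mem_Perp _ (hE1 i₀).1
    refine (hTZU r hr).2.1 _ fun i hi => hnz ?_
    refine TZF.zero_of hSTO hCk.s12.kr hCk.s12.smc fun θ hθ => ?_
    have hmem := hCk.s12.dual θ hθ _ hperp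
    rcases i with i | i
    · refine hCk.i1 _ hmem fun i' => ?_
      rw [Pi.mul_apply, Subsingleton.elim i' i, hi, mul_zero]
    · refine hCk.i2 _ hmem fun i' => ?_
      rw [Pi.mul_apply, Subsingleton.elim i' i, hi, mul_zero]
  · intro B _ φ a a' he
    exact ⟨TZF.indep (hfo φ) hne.symm a a' he, TZF.indep (hfo φ) hne a' a he.symm⟩

end Pool.Agent.MG.G0
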