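import Pool.Agent.MG.G0.StmtsTC

/-!
# TZU: units modulo nilpotent elements
-/

namespace Pool.Agent.MG.G0

namespace TZU

/-- The powers of a series with coefficients in an ideal. -/
theorem pow_coeff_mem {A : Type} [CommRing A] (J : Ideal A) (f : LaurentSeries A)
    (hf : ∀ m, f.coeff m ∈ J) (n : ℕ) : ∀ m, (f ^ n).coeff m ∈ J ^ n := by
  induction n with
  | zero =>
    intro m
    rw [pow_zero J, Ideal.one_eq_top]
    exact Submodule.mem_top
  | succ n ih =>
    intro m
    rw [pow_succ f, HahnSeries.coeff_mul, pow_succ J]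
    exact Submodule.sum_mem _ fun ij _ => Ideal.mul_mem_mul (ih ij.1) (hf ij.2)

/-- A series with coefficients in a nilpotent ideal is nilpotent. -/
theorem pow_eq_zero {A : Type} [CommRing A] {J : Ideal A} {n : ℕ} (hJ : J ^ n = ⊥)
    (f : LaurentSeries A) (hf : ∀ m, f.coeff m ∈ J) : f ^ n = 0 := by
  ext m
  have h := pow_coeff_mem J f hf n m
  rw [hJ, Ideal.mem_bot] at h
  rw [h, HahnSeries.coeff_zero]

/-- The kernel of `lmap`. -/
theorem pow_eq_zero_of_lmap {A B : Type} [CommRing A] [CommRing B] (r : A →+* B) {n : ℕ}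
    (hJ : RingHom.ker r ^ n = ⊥) (f : LaurentSeries A) (hf : lmap r f = 0) : f ^ n = 0 := by
  refine pow_eq_zero hJ f fun m => ?_
  rw [RingHom.mem_ker, ← lmap_coeff, hf, HahnSeries.coeff_zero]

end TZU

theorem t_TZU : Stmt_TZU := by
  rintro A κ _ _ _ r ⟨n, hn⟩
  have hn' : RingHom.ker (r : A →+* κ) ^ n = ⊥ := hn
  have hsec : ∀ c : κ, (r : A →+* κ) (algebraMap κ A c) = c := fun c => by
    change r (algebraMap κ A c) = c
    rw [AlgHom.commutes]
    rfl
  have h2 : ∀ {I : Type} (f : KK I A), (∀ i, kmap (r : A →+* κ) f i ≠ 0) → IsUnit f := by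
    intro I f hf
    rw [Pi.isUnit_iff]
    intro i
    have hi := hf i
    rw [kmap_apply] at hi
    obtain ⟨g, hg⟩ := (isUnit_iff_ne_zero.2 hi).exists_right_inv
    have hlift : lmap (r : A →+* κ) (lmap (algebraMap κ A) g) = g := by
      ext m
      rw [lmap_coeff, lmap_coeff, hsec]
    have h0 : (f i * lmap (algebraMap κ A) g - 1) ^ n = 0 := by
      refine TZU.pow_eq_zero_of_lmap (r : A →+* κ) hn' _ ?_
      rw [map_sub, map_mul, hlift, hg, map_one, sub_self]
    have hu : IsUnit (f i * lmap (algebraMap κ A) g) := by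
      have h := IsNilpotent.isUnit_one_add (r := f i * lmap (algebraMap κ A) g - 1) ⟨n, h0⟩
      rwa [add_sub_cancel] at h
    exact isUnit_of_mul_isUnit_left hu
  refine ⟨fun x hx => ?_, h2, fun {I} _ f _ hf => h2 f fun i hi => ?_, fun {I} P f hf => ?_⟩
  · have h0 : (x * algebraMap κ A (r x)⁻¹ - 1) ^ n = 0 := by
      have h : (x * algebraMap κ A (r x)⁻¹ - 1) ^ n ∈ RingHom.ker (r : A →+* κ) ^ n := by
        refine Ideal.pow_mem_pow ?_ n
        rw [RingHom.mem_ker, map_sub, map_mul, hsec, map_one]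
        change r x * (r x)⁻¹ - 1 = 0
        rw [mul_inv_cancel₀ hx, sub_self]
      rwa [hn', Ideal.mem_bot] at h
    have hu : IsUnit (x * algebraMap κ A (r x)⁻¹) := by
      have h := IsNilpotent.isUnit_one_add (r := x * algebraMap κ A (r x)⁻¹ - 1) ⟨n, h0⟩
      rwa [add_sub_cancel] at h
    exact isUnit_of_mul_isUnit_left hu
  · refine hf i ?_
    have h := congrArg (fun g : LaurentSeries κ => g.coeff 0) hi
    rw [kmap_apply] at h
    exact h
  · have h0 : (f - 1) ^ n = 0 := by
      refine Subtype.ext ?_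
      funext i
      have h : lmap (r : A →+* κ) ((f : KK I A) i - 1) = 0 := by
        rw [map_sub, map_one, ← kmap_apply, hf, Pi.one_apply, sub_self]
      exact TZU.pow_eq_zero_of_lmap (r : A →+* κ) hn' _ h
    have h := IsNilpotent.isUnit_one_add (r := f - 1) ⟨n, h0⟩
    rwa [add_sub_cancel] at h

end Pool.Agent.MG.G0
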