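import Pool.Agent.MG.G0.StmtsTC

/-!
# TCH: vector fields of `Rem W` as vector fields of `W` (PAPER_TG.md, TCH)
-/

namespace Pool.Agent.MG.G0

namespace TCH

theorem low_of_mul {A : Type} [CommRing A] {t U : LaurentSeries A} (hU : ∀ m < 0, U.coeff m = 0)
    (hU0 : U.coeff 0 = 1) (h : ∀ m < 0, (t * U).coeff m = 0) : ∀ m < 0, t.coeff m = 0 := by
  obtain ⟨N, hN⟩ := exists_low t
  have key : ∀ k : ℕ, k ≤ N → ∀ m < -(N : ℤ) + k, t.coeff m = 0 := by
    intro k
    induction k with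
    | zero =>
      intro _ m hm
      exact hN m (by push_cast at hm; omega)
    | succ k ih =>
      intro hk m hm
      rcases lt_or_ge m (-(N : ℤ) + k) with h1 | h1
      · exact ih (by omega) m h1
      · have hm' : m = -(N : ℤ) + k := by push_cast at hm; omega
        have h2 := mul_lead (ih (by omega)) hU
        rw [hU0, mul_one, h _ (by omega)] at h2
        rw [hm', ← h2]
  intro m hm
  exact key N le_rfl m (by omega)

end TCH

theorem t_TCH (hTEP : Stmt_TEP) (hLOC : Stmt_LOC) (hSTO : Stmt_STO) : Stmt_TCH := by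
  intro I A _ _ _ h W R hW hS hD hR ι hι1 hι2 D
  obtain ⟨ι', -, h1, h2, h3, h4⟩ := hTEP hW hD hR
  -- the given homomorphism is the one of TEP
  have hιe : ∀ f, ι f = ι' f := by
    intro f
    obtain ⟨f', hf'⟩ := h3 (ι f) (hι2 f)
    have e : f' = f := by
      refine Subtype.ext (funext fun i => ?_)
      rw [← h1 f' i, hf', hι1 f i]
    rw [← hf', e]
  letI alg : Algebra R W := ι.toRingHom.toAlgebra
  have hmap : ∀ f : R, algebraMap R W f = ι f := fun f => rfl
  haveI : IsScalarTower A R W := IsScalarTower.of_algebraMap_eq fun a => (ι.commutes a).symm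
  have hinj : Function.Injective (algebraMap R W) := by
    intro f g hfg
    rw [hmap, hmap] at hfg
    refine Subtype.ext (funext fun i => ?_)
    rw [← hι1 f i, hfg, hι1 g i]
  have hEp : Ep R W := by
    refine ⟨hinj, fun w => ?_⟩
    obtain ⟨M, hM⟩ := exists_low ((w : KK (I ⊕ Unit) A) (Sum.inr ()))
    obtain ⟨n, s, a, hs1, hs2⟩ := h4 M
    refine ⟨n, s, a, ?_, fun k => ?_⟩
    · rw [← hs1]
      exact Finset.sum_congr rfl fun k _ => by rw [hmap, hιe]
    · obtain ⟨r, hr⟩ := h3 (ι' (s k) * w) (by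
        intro m hm
        exact mul_low (hs2 k) hM m (by omega))
      refine ⟨r, ?_⟩
      rw [hmap, hmap, hιe, hιe, hr]
  obtain ⟨E, hE, -⟩ := hLOC hEp W ((Algebra.linearMap R W).compDer D)
  obtain ⟨θ, hθ, hθ2⟩ := ((hSTO hW).2.2.2.2 hS).1 E
  have hmain : ∀ f : R, θ * dd (ι f : KK (I ⊕ Unit) A) = (ι (D f) : KK (I ⊕ Unit) A) := by
    intro f
    have e1 : E (ι f) = ι (D f) := hE f
    rw [← hθ2 (ι f), e1]
  refine ⟨θ, hθ, ?_, hmain⟩
  -- regularity
  obtain ⟨w, hw, hw2⟩ := hD (fun _ => HahnSeries.single 1 1) 3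
  have hw3 : ∀ m < 3, (w (Sum.inr ())).coeff m = (HahnSeries.single (1 : ℤ) (1 : A)).coeff m :=
    fun m hm => hw2 () m hm
  have hreg : ∀ m < 0, (w (Sum.inr ())).coeff m = 0 := by
    intro m hm
    rw [hw3 m (by omega), HahnSeries.coeff_single_of_ne (by omega)]
  obtain ⟨x, hx⟩ := h3 ⟨w, hw⟩ hreg
  have hx' : (ι x : KK (I ⊕ Unit) A) = w := by rw [hιe, hx]
  have hm := congrFun (hmain x) (Sum.inr ())
  rw [hx', Pi.mul_apply] at hm
  refine TCH.low_of_mul (U := dd w (Sum.inr ())) ?_ ?_ ?_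
  · intro m hm
    change (ld (w (Sum.inr ()))).coeff m = 0
    rw [ld_coeff]
    rcases lt_or_ge (m + 1) 0 with h5 | h5
    · rw [hreg _ h5, mul_zero]
    · have : m + 1 = 0 := by omega
      rw [this, Int.cast_zero, zero_mul]
  · change (ld (w (Sum.inr ()))).coeff 0 = 1
    rw [ld_coeff, hw3 (0 + 1) (by norm_num), zero_add, HahnSeries.coeff_single_same]
    simp
  · intro m hm0
    rw [hm]
    exact hι2 (D x) m hm0

end Pool.Agent.MG.G0
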