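import Pool.Agent.MG.G0.StmtsTG
import Pool.Agent.MG.G0.SUB

/-!
# TGA: vanishing at the diagonal (PAPER_TG.md)
-/

open TensorProduct

namespace Pool.Agent.MG.G0

namespace TGA

section

variable {B S T : Type} [CommRing B] [CommRing S] [CommRing T] [Algebra B S] [Algebra B T]

theorem psl_inj : Function.Injective (psl S) := HahnSeries.ofPowerSeries_injective

theorem psl_alg (b : B) : psl S (algebraMap B (PowerSeries S) b) =
    algebraMap S (LaurentSeries S) (algebraMap B S b) := by
  rw [PowerSeries.algebraMap_apply]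
  exact SUB.psl_C _

/-- Power series as Laurent series. -/
noncomputable def pslB (B S : Type) [CommRing B] [CommRing S] [Algebra B S] :
    PowerSeries S →ₐ[B] LaurentSeries S :=
  { toRingHom := psl S
    commutes' := fun b => psl_alg b }

theorem pslB_apply (f : PowerSeries S) : pslB B S f = psl S f := rfl

/-- The constants. -/
noncomputable def cst (B S : Type) [CommRing B] [CommRing S] [Algebra B S] :
    S →ₐ[B] LaurentSeries S :=
  { toRingHom := HahnSeries.C
    commutes' := fun _ => rfl }

theorem cst_apply (f : S) : cst B S f = HahnSeries.C f := rfl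

theorem C_eq (f : S) : (HahnSeries.C f : LaurentSeries S) = psl S (PowerSeries.C f) :=
  (SUB.psl_C f).symm

theorem unit_X : IsUnit (psl S PowerSeries.X) := by
  rw [SUB.psl_X]
  exact IsUnit.of_mul_eq_one (SUB.ta S (-1)) (by rw [SUB.ta_mul]; exact SUB.ta_zero)

/-- Substitution in a homomorphism to power series. -/
theorem exists_sub (Φ : LaurentSeries T →ₐ[T] LaurentSeries T)
    (h4 : ∀ f : PowerSeries T, ∃ h : PowerSeries T, Φ (psl T f) = psl T h ∧
      PowerSeries.constantCoeff h = PowerSeries.constantCoeff f)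
    (k : S →ₐ[B] PowerSeries T) :
    ∃ k' : S →ₐ[B] PowerSeries T, (∀ f, psl T (k' f) = Φ (psl T (k f))) ∧
      ∀ f, PowerSeries.constantCoeff (k' f) = PowerSeries.constantCoeff (k f) := by
  choose K hK hK0 using h4
  refine ⟨{ toFun := fun f => K (k f)
            map_one' := psl_inj ?_
            map_mul' := fun a b => psl_inj ?_
            map_zero' := psl_inj ?_
            map_add' := fun a b => psl_inj ?_
            commutes' := fun b => psl_inj ?_ }, fun f => (hK (k f)).symm, fun f => hK0 (k f)⟩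
  · rw [← hK, map_one, map_one, map_one]
  · rw [← hK, map_mul k, map_mul (psl T) (K (k a)), ← hK, ← hK, map_mul (psl T), map_mul Φ]
  · rw [← hK, map_zero, map_zero, map_zero]
  · rw [← hK, map_add k, map_add (psl T) (K (k a)), ← hK, ← hK, map_add (psl T), map_add Φ]
  · rw [← hK, AlgHom.commutes, psl_alg, AlgHom.commutes]

/-- A homomorphism of algebras over `T` is one over `B`. -/
noncomputable def resB (Φ : LaurentSeries T →ₐ[T] LaurentSeries T) :
    LaurentSeries T →ₐ[B] LaurentSeries T :=
  { toRingHom := (Φ : LaurentSeries T →+* LaurentSeries T)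
    commutes' := fun b => Φ.commutes (algebraMap B T b) }

theorem resB_apply (Φ : LaurentSeries T →ₐ[T] LaurentSeries T) (f : LaurentSeries T) :
    resB (B := B) Φ f = Φ f := rfl

/-- The leading coefficients of a substitution. -/
theorem lead_pow {u : PowerSeries T} {Φ : LaurentSeries T →ₐ[T] LaurentSeries T} {g : T}
    (h : IsSub u Φ) (hu : PowerSeries.constantCoeff u = 0) (hg : PowerSeries.coeff 1 u = g)
    (c : ℤ → T) (hc : ∀ n, ∀ f ∈ Po T (-n), (Φ f).coeff n = c n * f.coeff n) (M : ℕ) (n : ℤ)
    (hn : n ≤ M) : c n * g ^ (M - n).toNat = g ^ M := by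
  have hm : ∀ n : ℤ, (HahnSeries.single n 1 : LaurentSeries T) ∈ Po T (-n) := fun n m hm =>
    HahnSeries.coeff_single_of_ne (by omega)
  have hu1 : ∀ m < 1, (psl T u).coeff m = 0 := by
    intro m hm
    rcases lt_or_ge m 0 with h0 | h0
    · exact SUB.psl_mem u m (by omega)
    · obtain rfl : m = ((0 : ℕ) : ℤ) := by omega
      change (HahnSeries.ofPowerSeries ℤ T u).coeff ((0 : ℕ) : ℤ) = 0
      rw [HahnSeries.ofPowerSeries_apply_coeff, PowerSeries.coeff_zero_eq_constantCoeff_apply, hu]
  have hu2 : (psl T u).coeff 1 = g := by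
    rw [← hg]
    exact HahnSeries.ofPowerSeries_apply_coeff u 1
  have hs : ∀ n : ℤ, c (n + 1) = c n * g := by
    intro n
    have h1 := hc (n + 1) _ (hm (n + 1))
    have h2 := hc n _ (hm n)
    rw [HahnSeries.coeff_single_same, mul_one] at h1 h2
    have e : (HahnSeries.single (n + 1) 1 : LaurentSeries T) =
        HahnSeries.single n 1 * HahnSeries.single 1 1 := by
      rw [HahnSeries.single_mul_single, mul_one]
    rw [← h1, e, map_mul, h.tau, mul_lead (a := n) (b := 1) ?_ hu1, h2, hu2]
    intro m hm'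
    exact h.pol (-n) _ (hm n) m (by omega)
  have h0 : c 0 = 1 := by
    have h1 := hc 0 1 (by
      rw [neg_zero]
      exact fun m hm' => by
        rw [HahnSeries.coeff_one, if_neg (by omega)])
    rw [map_one, HahnSeries.coeff_one, if_pos rfl, mul_one] at h1
    exact h1.symm
  have hk : ∀ (k : ℕ) (n : ℤ), c (n + k) = c n * g ^ k := by
    intro k
    induction k with
    | zero =>
      intro n
      rw [Nat.cast_zero, add_zero, pow_zero, mul_one]
    | succ k ih =>
      intro n
      have e : n + ((k + 1 : ℕ) : ℤ) = n + k + 1 := by push_cast; ring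
      rw [e, hs, ih, pow_succ, mul_assoc]
  have h1 := hk (M - n).toNat n
  have h2 := hk M 0
  have e : n + ((M - n).toNat : ℤ) = 0 + (M : ℤ) := by omega
  rw [← h1, e, h2, h0, one_mul]

end

end TGA

theorem t_TGA (hTFP : Stmt_TFP) (hSUB : Stmt_SUB) : Stmt_TGA := by
  intro B _ S _ _ T _ _ G a b F ha hb
  -- the formal points
  have hex : ∀ j, ∃ h : S j →ₐ[B] PowerSeries (S j),
      (∀ f, PowerSeries.constantCoeff (h f) = f) ∧
        h (G.x j) = PowerSeries.C (G.x j) + PowerSeries.X := fun j => by
    obtain ⟨h, h1, h2, -⟩ := (hTFP G.inv (G.ch j) (A := S j)).2.1 (AlgHom.id B (S j))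
      PowerSeries.X PowerSeries.constantCoeff_X
    exact ⟨h, h1, h2⟩
  choose H hH0 hHx using hex
  obtain ⟨HT, hT0, hTx, -⟩ := (hTFP G.inv G.chT (A := T)).2.1 (AlgHom.id B T)
    PowerSeries.X PowerSeries.constantCoeff_X
  have hT0' : ∀ f, PowerSeries.constantCoeff (HT f) = f := hT0
  have hTx' : HT (G.i true (G.x true)) =
      PowerSeries.C (G.i true (G.x true)) + PowerSeries.X := hTx
  -- the series `u`
  obtain ⟨u, hu⟩ : ∃ u, u = HT (G.i false (G.x false)) - PowerSeries.C (G.i false (G.x false)) :=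
    ⟨_, rfl⟩
  have hu0 : PowerSeries.constantCoeff u = 0 := by
    rw [hu, map_sub, hT0', PowerSeries.constantCoeff_C, sub_self]
  have hu1 : PowerSeries.coeff 1 u = G.g := by
    have h1 := (hTFP G.inv G.chT (A := T)).2.2 HT (G.i false (G.x false))
    rw [hT0', hTx', map_add, PowerSeries.coeff_one_X] at h1
    rw [hu, map_sub, h1]
    have h2 : ∀ t : T, PowerSeries.coeff 1 (PowerSeries.C t) = 0 := fun t => by
      rw [PowerSeries.coeff_C, if_neg one_ne_zero]
    rw [h2, h2, zero_add, mul_one, sub_zero]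
    rfl
  obtain ⟨Φ', hΦ'⟩ := hSUB.1 u hu0 (by rw [hu1]; exact G.gu)
  obtain ⟨Φ, hΦe⟩ : ∃ Φ : LaurentSeries T →ₐ[T] LaurentSeries T,
    Φ = (Φ' : LaurentSeries T →ₐ[T] LaurentSeries T) := ⟨_, rfl⟩
  have hΦ : IsSub u Φ := by rw [hΦe]; exact hΦ'
  obtain ⟨-, -, h3, h4, -⟩ := hSUB.2.1 u hu0 (by rw [hu1]; exact G.gu) Φ hΦ
  choose c0 hc0 hc0' using h3
  obtain ⟨c, hce⟩ : ∃ c : ℤ → T, ∀ n, c n = c0 (-n) := ⟨fun n => c0 (-n), fun _ => rfl⟩
  have hcu : ∀ n, IsUnit (c n) := fun n => by rw [hce]; exact hc0 _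
  have hc : ∀ n, ∀ f ∈ Po T (-n), (Φ f).coeff n = c n * f.coeff n := by
    intro n f hf
    have h1 := hc0' (-n) f hf
    rw [neg_neg] at h1
    rw [hce, h1]
  -- the values
  let PP : ∀ j, S j →ₐ[B] LaurentSeries (S j) := fun j => (TGA.pslB B (S j)).comp (H j)
  let QQ : ∀ j, S j →ₐ[B] LaurentSeries (S j) := fun j => TGA.cst B (S j)
  let E : ∀ j, LaurentSeries (S j) := fun j => F.e j (LaurentSeries (S j)) (PP j) (QQ j)
  have hdis : ∀ j, DisjP (PP j) (QQ j) := by
    intro j
    refine Ideal.eq_top_of_isUnit_mem _ (Ideal.subset_span ⟨G.x j, rfl⟩) ?_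
    change IsUnit (psl (S j) (H j (G.x j)) - HahnSeries.C (G.x j))
    rw [hHx, TGA.C_eq, ← map_sub, add_sub_cancel_left]
    exact TGA.unit_X
  let PT : T →ₐ[B] LaurentSeries T := (TGA.pslB B T).comp HT
  let QT : T →ₐ[B] LaurentSeries T := TGA.cst B T
  have hun : ∀ j, IsUnit (PT (G.i j (G.x j)) - QT (G.i j (G.x j))) := by
    intro j
    change IsUnit (psl T (HT (G.i j (G.x j))) - HahnSeries.C (G.i j (G.x j)))
    rw [TGA.C_eq, ← map_sub]
    cases j with
    | true =>
      rw [hTx', add_sub_cancel_left]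
      exact TGA.unit_X
    | false =>
      rw [← hu, ← hΦ.tau]
      have h1 : (HahnSeries.single 1 1 : LaurentSeries T) = psl T PowerSeries.X :=
        SUB.psl_X.symm
      rw [h1]
      exact TGA.unit_X.map Φ
  -- the first chart
  have e1 : (PowerSeries.mapAlgHom (G.i true)).comp (H true) = HT.comp (G.i true) := by
    refine (hTFP G.inv (G.ch true) (A := T)).1 _ _ (fun f => ?_) ?_
    · change PowerSeries.constantCoeff (PowerSeries.map (G.i true : S true →+* T) (H true f)) =
        PowerSeries.constantCoeff (HT (G.i true f))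
      rw [hT0', ← PowerSeries.coeff_zero_eq_constantCoeff_apply, PowerSeries.coeff_map,
        PowerSeries.coeff_zero_eq_constantCoeff_apply, hH0]
      rfl
    · change PowerSeries.map (G.i true : S true →+* T) (H true (G.x true)) =
        HT (G.i true (G.x true))
      rw [hTx', hHx, map_add, PowerSeries.map_C, PowerSeries.map_X]
      rfl
  have f1 : (lmapB (G.i true)).comp (PP true) = PT.comp (G.i true) := by
    ext1 f
    change lmap (G.i true : S true →+* T) (psl (S true) (H true f)) = psl T (HT (G.i true f))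
    rw [SUB.lmap_psl]
    exact congrArg (psl T) (DFunLike.congr_fun e1 f)
  have f1' : (lmapB (G.i true)).comp (QQ true) = QT.comp (G.i true) := by
    ext1 f
    change lmap (G.i true : S true →+* T) (HahnSeries.C f) = HahnSeries.C (G.i true f)
    exact lmap_single _ 0 f
  have n1 := F.nat true (lmapB (G.i true)) (PP true) (QQ true) (hdis true)
  rw [f1, f1'] at n1
  -- the second chart
  obtain ⟨k, hk, hk0⟩ := TGA.exists_sub Φ h4 ((PowerSeries.mapAlgHom (G.i false)).comp (H false))
  have e2 : k = HT.comp (G.i false) := by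
    refine (hTFP G.inv (G.ch false) (A := T)).1 _ _ (fun f => ?_) (TGA.psl_inj ?_)
    · rw [hk0]
      change PowerSeries.constantCoeff (PowerSeries.map (G.i false : S false →+* T) (H false f)) =
        PowerSeries.constantCoeff (HT (G.i false f))
      rw [hT0', ← PowerSeries.coeff_zero_eq_constantCoeff_apply, PowerSeries.coeff_map,
        PowerSeries.coeff_zero_eq_constantCoeff_apply, hH0]
      rfl
    · rw [hk]
      change Φ (psl T (PowerSeries.map (G.i false : S false →+* T) (H false (G.x false)))) =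
        psl T (HT (G.i false (G.x false)))
      have h1 : HT (G.i false (G.x false)) = PowerSeries.C (G.i false (G.x false)) + u := by
        rw [hu, add_sub_cancel]
      rw [h1, hHx, map_add, PowerSeries.map_C, PowerSeries.map_X, map_add, map_add, map_add,
        SUB.psl_X, SUB.psl_C, SUB.psl_C, AlgHom.commutes]
      congr 1
      exact hΦ.tau
  have f2 : ((TGA.resB Φ).comp (lmapB (G.i false))).comp (PP false) = PT.comp (G.i false) := by
    ext1 f
    change Φ (lmap (G.i false : S false →+* T) (psl (S false) (H false f))) =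
      psl T (HT (G.i false f))
    rw [SUB.lmap_psl]
    have h1 := hk f
    rw [e2] at h1
    exact h1.symm
  have f2' : ((TGA.resB Φ).comp (lmapB (G.i false))).comp (QQ false) = QT.comp (G.i false) := by
    ext1 f
    change Φ (lmap (G.i false : S false →+* T) (HahnSeries.C f)) = HahnSeries.C (G.i false f)
    have h1 : lmap (G.i false : S false →+* T) (HahnSeries.C f) =
        algebraMap T (LaurentSeries T) (G.i false f) := lmap_single _ 0 f
    rw [h1, AlgHom.commutes]
    rfl
  have n2 := F.nat false ((TGA.resB Φ).comp (lmapB (G.i false))) (PP false) (QQ false) (hdis false)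
  rw [f2, f2'] at n2
  have rel := F.trans PT QT hun
  rw [n1, n2] at rel
  have rel' : Φ (lmap (G.i false : S false →+* T) (E false)) =
      psl T (HT G.g ^ a * PowerSeries.C G.g ^ b) *
        lmap (G.i true : S true →+* T) (E true) := by
    have h1 : psl T (HT G.g ^ a * PowerSeries.C G.g ^ b) = PT G.g ^ a * QT G.g ^ b := by
      have h2 : QT G.g = psl T (PowerSeries.C G.g) := TGA.C_eq _
      rw [map_mul, map_pow, map_pow, h2]
      rfl
    rw [h1]
    exact rel
  -- the coefficients
  have step : ∀ n : ℤ, n < a + b → (∀ j, ∀ m < n, (E j).coeff m = 0) →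
      ∀ j, (E j).coeff n = 0 := by
    intro n hn hlow
    have hl : ∀ j, ∀ m < n, (lmap (G.i j : S j →+* T) (E j)).coeff m = 0 := fun j m hm => by
      rw [lmap_coeff, hlow j m hm, map_zero]
    have h1 := congrArg (fun s : LaurentSeries T => s.coeff n) rel'
    change (Φ (lmap (G.i false : S false →+* T) (E false))).coeff n =
      (psl T (HT G.g ^ a * PowerSeries.C G.g ^ b) *
        lmap (G.i true : S true →+* T) (E true)).coeff n at h1
    rw [hc n _ (fun m hm => hl false m (by omega))] at h1
    have h2 := mul_lead (f := psl T (HT G.g ^ a * PowerSeries.C G.g ^ b)) (a := 0) (b := n)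
      (fun m hm => SUB.psl_mem _ m (by omega)) (hl true)
    rw [zero_add] at h2
    have h3' : (psl T (HT G.g ^ a * PowerSeries.C G.g ^ b)).coeff 0 = G.g ^ (a + b) := by
      have h4' : (psl T (HT G.g ^ a * PowerSeries.C G.g ^ b)).coeff ((0 : ℕ) : ℤ) =
          PowerSeries.coeff 0 (HT G.g ^ a * PowerSeries.C G.g ^ b) :=
        HahnSeries.ofPowerSeries_apply_coeff _ 0
      have h5' : PowerSeries.constantCoeff (HT G.g ^ a * PowerSeries.C G.g ^ b) =
          G.g ^ (a + b) := by
        rw [map_mul, map_pow, map_pow, hT0', PowerSeries.constantCoeff_C, ← pow_add]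
      rw [PowerSeries.coeff_zero_eq_constantCoeff_apply, h5'] at h4'
      exact h4'
    have h5 := TGA.lead_pow hΦ hu0 hu1 c hc (a + b) n (by push_cast; omega)
    rw [h2, h3', ← h5, mul_assoc, lmap_coeff, lmap_coeff] at h1
    have h6 := (hcu n).mul_left_cancel h1
    have h7 : tmp B (G.i false) ((1 : B) ⊗ₜ[B] (E false).coeff n) =
        ((1 : B) ⊗ₜ[B] (G.ΔT (G.i false (G.x false)) ^ (((a + b : ℕ) : ℤ) - n).toNat)) *
          tmp B (G.i true) ((1 : B) ⊗ₜ[B] (E true).coeff n) := by
      change (1 : B) ⊗ₜ[B] (G.i false ((E false).coeff n)) =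
        ((1 : B) ⊗ₜ[B] (G.ΔT (G.i false (G.x false)) ^ (((a + b : ℕ) : ℤ) - n).toNat)) *
          ((1 : B) ⊗ₜ[B] (G.i true ((E true).coeff n)))
      rw [Algebra.TensorProduct.tmul_mul_tmul, mul_one]
      exact congrArg (fun t : T => (1 : B) ⊗ₜ[B] t) h6
    have hz : ∀ (j : Bool) (s : S j), ((1 : B) ⊗ₜ[B] s : B ⊗[B] S j) = 0 → s = 0 := by
      intro j s hs
      have h8 := congrArg (Algebra.TensorProduct.lid B (S j)) hs
      rw [Algebra.TensorProduct.lid_tmul, one_smul, map_zero] at h8
      exact h8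
    have h9 := G.ns B (((a + b : ℕ) : ℤ) - n).toNat 1 _ _ (by push_cast; omega) isUnit_one h7
    have h10 : (E true).coeff n = 0 := hz true _ h9
    have h11 : (E false).coeff n = 0 := by
      apply hz false
      apply G.inj false B
      rw [h7, h9, map_zero, mul_zero, map_zero]
    intro j
    cases j with
    | true => exact h10
    | false => exact h11
  obtain ⟨N1, hN1⟩ := exists_low (E true)
  obtain ⟨N2, hN2⟩ := exists_low (E false)
  have all : ∀ k : ℕ, -((max N1 N2 : ℕ) : ℤ) + k ≤ a + b →
      ∀ j, ∀ m < -((max N1 N2 : ℕ) : ℤ) + k, (E j).coeff m = 0 := by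
    intro k
    induction k with
    | zero =>
      intro _ j m hm
      have h1 : (N1 : ℤ) ≤ ((max N1 N2 : ℕ) : ℤ) := by exact_mod_cast le_max_left N1 N2
      have h2 : (N2 : ℤ) ≤ ((max N1 N2 : ℕ) : ℤ) := by exact_mod_cast le_max_right N1 N2
      rw [Nat.cast_zero, add_zero] at hm
      cases j with
      | true => exact hN1 m (by omega)
      | false => exact hN2 m (by omega)
    | succ k ih =>
      intro hk' j m hm
      push_cast at hk' hm
      have ih' := ih (by omega)
      rcases lt_or_ge m (-((max N1 N2 : ℕ) : ℤ) + k) with h1 | h1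
      · exact ih' j m (by push_cast at h1 ⊢; exact h1)
      · have h2 : m = -((max N1 N2 : ℕ) : ℤ) + k := by
          push_cast at h1 ⊢
          omega
        rw [h2]
        exact step _ (by push_cast at h2 ⊢; omega) ih' j
  have fin : ∀ n : ℤ, n < a + b → ∀ j, (E j).coeff n = 0 := by
    intro n hn j
    have h1 : ((((a : ℤ) + b + ((max N1 N2 : ℕ) : ℤ)).toNat : ℕ) : ℤ) =
      (a : ℤ) + b + ((max N1 N2 : ℕ) : ℤ) := by omega
    exact all ((a : ℤ) + b + ((max N1 N2 : ℕ) : ℤ)).toNat (by rw [h1]; omega) j n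
      (by rw [h1]; omega)
  intro j p q h hh0 hhx hp hq n hn
  have eh : h = H j := (hTFP G.inv (G.ch j) (A := S j)).1 _ _
    (fun f => by rw [hh0, hH0]) (by rw [hhx, hHx])
  have ep : p = PP j := by
    ext1 f
    rw [hp, eh]
    rfl
  have eq : q = QQ j := by
    ext1 f
    rw [hq]
    rfl
  rw [ep, eq]
  exact fin n hn j

end Pool.Agent.MG.G0
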